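import Pool.Agent.KE.Lindsey

/-! Rectangles: a balanced function has a small sum on large rectangles, with a free parameter. -/

namespace Pool.Agent.KF

open Finset Pool.Agent.SemRO Pool.Agent.KD Pool.Agent.KE

variable {n : ℕ}

section
variable {U : Finset (Fin n → Bool)} {T1 T2 : Finset (Fin n)}

/-- **Balance on one partition.** -/
theorem balance_j {f : (Fin n → Bool) → Bool} {e : ℕ} (j : ℕ) (hf : Bal f e) (hT1 : T1.card = 8 * e)
    (hd : ∀ i ∈ T1, i ∉ T2)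
    (hmix : ∀ u ∈ U, ∀ u' ∈ U, (∀ i, i ∉ T1 → i ∉ T2 → u i = u' i) → mix T1 u u' ∈ U)
    [DecidablePred fun u => (cls U T1 u).card ≤ 2 ^ (6 * e + (2 * j + 1))]
    [DecidablePred fun u => (cls U T2 u).card ≤ 2 ^ (2 * e)] :
    2 ^ j * |∑ u ∈ U, sg (f u)| ≤ U.card +
      2 ^ j * (U.filter fun u => (cls U T1 u).card ≤ 2 ^ (6 * e + (2 * j + 1))).card +
      2 ^ j * (U.filter fun u => (cls U T2 u).card ≤ 2 ^ (2 * e)).card := by
  classical
  obtain ⟨s1, hs1⟩ : ∃ s1 : (Fin n → Bool) → ℤ, s1 = fun u => if (cls U T1 u).card ≤ 2 ^ (6 * e + (2 * j + 1)) then 1 else 0 :=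
    ⟨_, rfl⟩
  obtain ⟨s2, hs2⟩ : ∃ s2 : (Fin n → Bool) → ℤ, s2 = fun u => if (cls U T2 u).card ≤ 2 ^ (2 * e) then 1 else 0 :=
    ⟨_, rfl⟩
  have hs10 : ∀ u, 0 ≤ s1 u := by intro u; rw [hs1]; simp only; split_ifs <;> norm_num
  have hs20 : ∀ u, 0 ≤ s2 u := by intro u; rw [hs2]; simp only; split_ifs <;> norm_num
  obtain ⟨g, hg⟩ : ∃ g : (Fin n → Bool) → (Fin n → Bool), g = fun u => mix (T1 ∪ T2) (fun _ => false) u := ⟨_, rfl⟩
  have hgi : ∀ u u', g u = g u' ↔ ∀ i, i ∉ T1 ∪ T2 → u i = u' i := by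
    intro u u'
    rw [hg]
    constructor
    · intro h i hi
      have := congrFun h i
      simp only [mix_off hi] at this
      exact this
    · intro h
      funext i
      by_cases hi : i ∈ T1 ∪ T2
      · simp only [mix_on hi]
      · simp only [mix_off hi]
        exact h i hi
  have key : ∀ σ ∈ U.image g, 2 ^ j * |∑ u ∈ U with g u = σ, sg (f u)| ≤
      ∑ u ∈ U with g u = σ, (1 + 2 ^ j * s1 u + 2 ^ j * s2 u) := by
    intro σ hσ
    obtain ⟨u0, hu0, rfl⟩ := Finset.mem_image.1 hσ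
    have e1 : (U.filter fun u => g u = g u0) = cls U (T1 ∪ T2) u0 := by
      ext u
      rw [Finset.mem_filter, mem_cls, hgi]
    rw [e1]
    have hE : ∀ u ∈ cls U (T1 ∪ T2) u0, u ∈ U ∧ ∀ i, i ∉ T1 → i ∉ T2 → u i = u0 i := by
      intro u hu
      obtain ⟨h1, h2⟩ := mem_cls.1 hu
      exact ⟨h1, fun i hi1 hi2 => h2 i (by rw [Finset.mem_union, not_or]; exact ⟨hi1, hi2⟩)⟩
    have hEc := card_class hd hmix hu0
    set E := cls U (T1 ∪ T2) u0
    have htriv : |∑ u ∈ E, sg (f u)| ≤ E.card := by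
      refine (Finset.abs_sum_le_sum_abs _ _).trans ?_
      rw [Finset.sum_congr rfl fun u _ => abs_sg _, Finset.sum_const, nsmul_eq_mul, mul_one]
    have hsum : ∑ u ∈ E, (1 + 2 ^ j * s1 u + 2 ^ j * s2 u) = E.card + 2 ^ j * ∑ u ∈ E, s1 u + 2 ^ j * ∑ u ∈ E, s2 u := by
      rw [Finset.sum_add_distrib, Finset.sum_add_distrib, Finset.sum_const, nsmul_eq_mul, mul_one,
        ← Finset.mul_sum, ← Finset.mul_sum]
    rw [hsum]
    have hs1E : 0 ≤ ∑ u ∈ E, s1 u := Finset.sum_nonneg fun u _ => hs10 u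
    have hs2E : 0 ≤ ∑ u ∈ E, s2 u := Finset.sum_nonneg fun u _ => hs20 u
    have hJ : (0 : ℤ) < 2 ^ j := by positivity
    have htriv2 : 2 ^ j * |∑ u ∈ E, sg (f u)| ≤ 2 ^ j * (E.card : ℤ) := mul_le_mul_of_nonneg_left htriv hJ.le
    have hJ1 : (0 : ℤ) ≤ 2 ^ j * ∑ u ∈ E, s1 u := mul_nonneg hJ.le hs1E
    have hJ2 : (0 : ℤ) ≤ 2 ^ j * ∑ u ∈ E, s2 u := mul_nonneg hJ.le hs2E
    by_cases hX : (cls U T1 u0).card ≤ 2 ^ (6 * e + (2 * j + 1))
    · have h1 : ∑ u ∈ E, s1 u = E.card := by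
        have h2 : ∀ u ∈ E, s1 u = 1 := by
          intro u hu
          obtain ⟨hu1, hu2⟩ := hE u hu
          rw [hs1]
          simp only
          rw [if_pos]
          exact (row_le hmix hu0 fun i a b => (hu2 i a b).symm).trans hX
        rw [Finset.sum_congr rfl h2, Finset.sum_const, nsmul_eq_mul, mul_one]
      rw [h1]
      have h3 : (0 : ℤ) ≤ E.card := Nat.cast_nonneg _
      linarith
    by_cases hY : (cls U T2 u0).card ≤ 2 ^ (2 * e)
    · have h1 : ∑ u ∈ E, s2 u = E.card := by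
        have h2 : ∀ u ∈ E, s2 u = 1 := by
          intro u hu
          obtain ⟨hu1, hu2⟩ := hE u hu
          rw [hs2]
          simp only
          rw [if_pos]
          exact (col_le hd hmix hu0 fun i a b => (hu2 i a b).symm).trans hY
        rw [Finset.sum_congr rfl h2, Finset.sum_const, nsmul_eq_mul, mul_one]
      rw [h1]
      have h3 : (0 : ℤ) ≤ E.card := Nat.cast_nonneg _
      linarith
    -- the large rectangle
    push Not at hX hY
    have h1 : ∑ u ∈ E, sg (f u) = ∑ x ∈ cls U T1 u0, ∑ y ∈ cls U T2 u0, sg (f (mix T1 x y)) :=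
      class_sum hd hmix hu0 (fun u => sg (f u))
    have h2 := lindsey f T1 u0 (cls U T1 u0) (cls U T2 u0)
      (fun x hx => mem_cube.2 (mem_cls.1 hx).2) (2 ^ (6 * e)) (by positivity)
      (by
        intro y hy y' hy' hyy
        refine bal_pair hf hT1 u0 y y' ?_
        by_contra hcon
        push Not at hcon
        apply hyy
        funext i
        by_cases hi : i ∈ T1
        · rw [(mem_cls.1 hy).2 i (hd i hi), (mem_cls.1 hy').2 i (hd i hi)]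
        · exact hcon i hi)
    rw [← h1, hT1] at h2
    set X := (cls U T1 u0).card
    set Y := (cls U T2 u0).card
    have hXz : (2 : ℤ) ^ (6 * e + (2 * j + 1)) ≤ X := by exact_mod_cast hX.le
    have hYz : (2 : ℤ) ^ (2 * e) ≤ Y := by exact_mod_cast hY.le
    have hX0 : (0 : ℤ) ≤ X := Nat.cast_nonneg _
    have hY0 : (0 : ℤ) ≤ Y := Nat.cast_nonneg _
    have h3 : (2 : ℤ) ^ (8 * e) * 2 ^ (2 * j + 1) ≤ X * Y := by
      calc (2 : ℤ) ^ (8 * e) * 2 ^ (2 * j + 1) = 2 ^ (6 * e + (2 * j + 1)) * 2 ^ (2 * e) := by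
            rw [← pow_add, ← pow_add]; congr 1; ring
        _ ≤ X * Y := mul_le_mul hXz hYz (by positivity) hX0
    have h4 : (2 : ℤ) ^ (6 * e) * 2 ^ (2 * j + 1) ≤ X := by
      rw [← pow_add]; exact hXz
    have h5 : (2 ^ j * |∑ u ∈ E, sg (f u)|) ^ 2 ≤ (E.card : ℤ) ^ 2 := by
      rw [mul_pow, sq_abs, hEc]
      push_cast
      have h6 : (X : ℤ) * (Y * 2 ^ (8 * e) + (Y : ℤ) ^ 2 * 2 ^ (6 * e)) * 2 ^ (2 * j + 1) ≤ 2 * (X * Y) ^ 2 := by
        have h7 : (X : ℤ) * Y * (2 ^ (8 * e) * 2 ^ (2 * j + 1)) ≤ X * Y * (X * Y) :=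
          mul_le_mul_of_nonneg_left h3 (mul_nonneg hX0 hY0)
        have h8 : (X : ℤ) * (Y : ℤ) ^ 2 * (2 ^ (6 * e) * 2 ^ (2 * j + 1)) ≤ X * (Y : ℤ) ^ 2 * X :=
          mul_le_mul_of_nonneg_left h4 (mul_nonneg hX0 (sq_nonneg _))
        linarith [h7, h8]
      have h10 : ((2 : ℤ) ^ j) ^ 2 * 2 = 2 ^ (2 * j + 1) := by
        rw [← pow_mul, ← pow_succ]; congr 1; ring
      have h11 : (2 : ℤ) * (((2 : ℤ) ^ j) ^ 2 * (∑ u ∈ E, sg (f u)) ^ 2) ≤ 2 * ((X : ℤ) * Y) ^ 2 := by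
        calc (2 : ℤ) * (((2 : ℤ) ^ j) ^ 2 * (∑ u ∈ E, sg (f u)) ^ 2)
            = (∑ u ∈ E, sg (f u)) ^ 2 * (((2 : ℤ) ^ j) ^ 2 * 2) := by ring
          _ = (∑ u ∈ E, sg (f u)) ^ 2 * 2 ^ (2 * j + 1) := by rw [h10]
          _ ≤ (X : ℤ) * (Y * 2 ^ (8 * e) + (Y : ℤ) ^ 2 * 2 ^ (6 * e)) * 2 ^ (2 * j + 1) :=
              mul_le_mul_of_nonneg_right h2 (by positivity)
          _ ≤ _ := h6
      linarith
    have h9 : 2 ^ j * |∑ u ∈ E, sg (f u)| ≤ E.card :=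
      abs_le_of_sq_le_sq' h5 (Nat.cast_nonneg _) |>.2
    linarith
  have hmaps : ∀ u ∈ U, g u ∈ U.image g := fun u hu => Finset.mem_image_of_mem g hu
  have hA : ∑ u ∈ U, sg (f u) = ∑ σ ∈ U.image g, ∑ u ∈ U with g u = σ, sg (f u) :=
    (Finset.sum_fiberwise_of_maps_to hmaps _).symm
  have hB : ∑ u ∈ U, (1 + 2 ^ j * s1 u + 2 ^ j * s2 u) =
      ∑ σ ∈ U.image g, ∑ u ∈ U with g u = σ, (1 + 2 ^ j * s1 u + 2 ^ j * s2 u) :=
    (Finset.sum_fiberwise_of_maps_to hmaps _).symm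
  have hC : ∑ u ∈ U, (1 + 2 ^ j * s1 u + 2 ^ j * s2 u) = U.card +
      2 ^ j * ((U.filter fun u => (cls U T1 u).card ≤ 2 ^ (6 * e + (2 * j + 1))).card : ℤ) +
      2 ^ j * ((U.filter fun u => (cls U T2 u).card ≤ 2 ^ (2 * e)).card : ℤ) := by
    rw [Finset.sum_add_distrib, Finset.sum_add_distrib, Finset.sum_const, nsmul_eq_mul, mul_one,
      ← Finset.mul_sum, ← Finset.mul_sum, hs1, hs2]
    simp only [Finset.sum_boole]
  rw [← hC, hB, hA]
  calc 2 ^ j * |∑ σ ∈ U.image g, ∑ u ∈ U with g u = σ, sg (f u)|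
      ≤ 2 ^ j * ∑ σ ∈ U.image g, |∑ u ∈ U with g u = σ, sg (f u)| :=
        mul_le_mul_of_nonneg_left (Finset.abs_sum_le_sum_abs _ _) (by norm_num)
    _ = ∑ σ ∈ U.image g, 2 ^ j * |∑ u ∈ U with g u = σ, sg (f u)| := by rw [Finset.mul_sum]
    _ ≤ _ := Finset.sum_le_sum key

end

end Pool.Agent.KF
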