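import Pool.Agent.KE.CoreTwo
import Pool.Agent.KF.Lindsey

/-! The two-sided core theorem for one skeleton, with a free parameter. -/

namespace Pool.Agent.KF

open Finset Pool.Agent.SemRO Pool.Agent.KD Pool.Agent.KE

/-- **The two-sided core theorem.** -/
theorem core_j {n R : ℕ} {c : Fin R → (Fin n → Bool) → Fin n → Option Bool}
    {W : Finset (Fin n → Bool)} {J : Finset (Fin R)} (hsub : ∀ z ∈ W, ∀ j, Sub (c j z) z)
    (hdet : ∀ j, ∀ z ∈ W, ∀ z' ∈ W, Compat (c j z) (c j z') → c j z = c j z')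
    (hclosed : ∀ u, (∀ j, ∃ w ∈ W, Sub (c j w) u) → u ∈ W) {D1 D2 : Finset (Fin n)}
    (hD : Disjoint D1 D2) {m1 m2 e j lam : ℕ} (he1 : 1 ≤ e) (f : (Fin n → Bool) → Bool)
    (hbal : Bal f e) (h1 : D1.card.choose (8 * e) ≤ 2 ^ (lam * (8 * e)) * m1.choose (8 * e))
    (h2 : D2.card.choose ((8 * lam + 4) * e) ≤ 2 ^ e * m2.choose ((8 * lam + 4) * e))
    (hp1 : 8 * e ≤ m1) (hp2 : (8 * lam + 4) * e ≤ m2) [DecidablePred (Good c J D1 D2 m1 m2)] :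
    |∑ u ∈ W.filter (Good c J D1 D2 m1 m2), (sg (f u) : ℝ)| ≤
      (W.card : ℝ) / 2 ^ j + 2 ^ n * 2 ^ (2 * j + 2) / 2 ^ e := by
  classical
  obtain ⟨t1, ht1⟩ : ∃ t1, t1 = 8 * e := ⟨_, rfl⟩
  obtain ⟨t2, ht2⟩ : ∃ t2, t2 = (8 * lam + 4) * e := ⟨_, rfl⟩
  rw [← ht1] at h1 hp1
  rw [← ht2] at h2 hp2
  have ht1p : 1 ≤ t1 := by omega
  have ht2p : 1 ≤ t2 := by
    rw [ht2]
    exact Nat.one_le_iff_ne_zero.2 (Nat.mul_ne_zero (by omega) (by omega))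
  set ρ := 2 ^ (6 * e + (2 * j + 1)) with hρ
  set L := 2 ^ (2 * e) with hL
  set C1 := m1.choose t1 with hC1
  set C2 := m2.choose t2 with hC2
  have hC1p : 0 < C1 := Nat.choose_pos hp1
  have hC2p : 0 < C2 := Nat.choose_pos hp2
  set A : Finset (Fin n) → Finset (Fin n) → ℕ := fun T1 T2 => ((UU c J W D1 D2 m1 m2 T1 T2).filter
      (fun u => (cls (UU c J W D1 D2 m1 m2 T1 T2) T1 u).card ≤ ρ)).card with hA
  set B : Finset (Fin n) → Finset (Fin n) → ℕ := fun T1 T2 => ((UU c J W D1 D2 m1 m2 T1 T2).filter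
      (fun u => (cls (UU c J W D1 D2 m1 m2 T1 T2) T2 u).card ≤ L)).card with hB
  -- each pair of sets
  have hbalance : ∀ T2 ∈ D2.powersetCard t2, ∀ T1 ∈ D1.powersetCard t1,
      2 ^ j * |∑ u ∈ UU c J W D1 D2 m1 m2 T1 T2, sg (f u)| ≤
        (∑ u ∈ UU c J W D1 D2 m1 m2 T1 T2, (1 : ℤ)) + 2 ^ j * A T1 T2 + 2 ^ j * B T1 T2 := by
    intro T2 hT2 T1 hT1
    obtain ⟨hT2a, hT2b⟩ := Finset.mem_powersetCard.1 hT2
    obtain ⟨hT1a, hT1b⟩ := Finset.mem_powersetCard.1 hT1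
    have hd : ∀ i ∈ T1, i ∉ T2 := fun i h1 h2 => Finset.disjoint_left.1 hD (hT1a h1) (hT2a h2)
    have h := balance_j j (U := UU c J W D1 D2 m1 m2 T1 T2) (T2 := T2) hbal (by rw [hT1b, ht1]) hd
      (fun u hu u' hu' h => UU_mix hsub hdet hclosed hu hu' h)
    rw [Finset.sum_const, nsmul_eq_mul, mul_one]
    exact h
  -- sums
  have hsumA : (∑ T2 ∈ D2.powersetCard t2, ∑ T1 ∈ D1.powersetCard t1, A T1 T2) * 2 ^ t1 ≤
      D2.card.choose t2 * (ρ * 2 ^ n * C1) := by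
    rw [Finset.sum_mul, ← Finset.card_powersetCard t2 D2, ← smul_eq_mul (a := (D2.powersetCard t2).card)]
    exact Finset.sum_le_card_nsmul _ _ _ fun T2 _ => small_rows hsub hdet t1 ρ T2
  have hsumB : (∑ T2 ∈ D2.powersetCard t2, ∑ T1 ∈ D1.powersetCard t1, B T1 T2) * 2 ^ t2 ≤
      D2.card.choose t2 * (D1.card.choose t1 * (L * 2 ^ n)) := by
    rw [Finset.sum_mul, ← Finset.card_powersetCard t2 D2, ← smul_eq_mul (a := (D2.powersetCard t2).card)]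
    refine Finset.sum_le_card_nsmul _ _ _ fun T2 hT2 => ?_
    rw [Finset.sum_mul, ← Finset.card_powersetCard t1 D1, ← smul_eq_mul (a := (D1.powersetCard t1).card)]
    refine Finset.sum_le_card_nsmul _ _ _ fun T1 _ => ?_
    have := small_cols (c := c) (J := J) (W := W) (D1 := D1) (D2 := D2) (m1 := m1) (m2 := m2) L T1 T2
    rw [(Finset.mem_powersetCard.1 hT2).2] at this
    exact this
  have hmain : 2 ^ j * |((C1 * C2 : ℕ) : ℤ) * ∑ u ∈ W.filter (Good c J D1 D2 m1 m2), sg (f u)| ≤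
      ((C1 * C2 : ℕ) : ℤ) * (∑ u ∈ W.filter (Good c J D1 D2 m1 m2), (1 : ℤ)) +
        2 ^ j * (∑ T2 ∈ D2.powersetCard t2, ∑ T1 ∈ D1.powersetCard t1, A T1 T2 : ℕ) +
        2 ^ j * (∑ T2 ∈ D2.powersetCard t2, ∑ T1 ∈ D1.powersetCard t1, B T1 T2 : ℕ) := by
    rw [← sum_UU ht1p ht2p (fun u => sg (f u)), ← sum_UU ht1p ht2p (fun _ => 1)]
    calc 2 ^ j * |∑ T2 ∈ D2.powersetCard t2, ∑ T1 ∈ D1.powersetCard t1,
          ∑ u ∈ UU c J W D1 D2 m1 m2 T1 T2, sg (f u)|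
        ≤ 2 ^ j * ∑ T2 ∈ D2.powersetCard t2, ∑ T1 ∈ D1.powersetCard t1,
          |∑ u ∈ UU c J W D1 D2 m1 m2 T1 T2, sg (f u)| := by
          refine mul_le_mul_of_nonneg_left ((Finset.abs_sum_le_sum_abs _ _).trans ?_) (by norm_num)
          exact Finset.sum_le_sum fun T2 _ => Finset.abs_sum_le_sum_abs _ _
      _ = ∑ T2 ∈ D2.powersetCard t2, ∑ T1 ∈ D1.powersetCard t1,
          2 ^ j * |∑ u ∈ UU c J W D1 D2 m1 m2 T1 T2, sg (f u)| := by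
          rw [Finset.mul_sum]
          refine Finset.sum_congr rfl fun T2 _ => ?_
          rw [Finset.mul_sum]
      _ ≤ ∑ T2 ∈ D2.powersetCard t2, ∑ T1 ∈ D1.powersetCard t1,
          ((∑ u ∈ UU c J W D1 D2 m1 m2 T1 T2, (1 : ℤ)) + 2 ^ j * A T1 T2 + 2 ^ j * B T1 T2) :=
          Finset.sum_le_sum fun T2 hT2 => Finset.sum_le_sum fun T1 hT1 => hbalance T2 hT2 T1 hT1
      _ = _ := by
          simp only [Finset.sum_add_distrib]
          push_cast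
          simp only [Finset.mul_sum]
  -- pass to the reals
  set SA := ∑ T2 ∈ D2.powersetCard t2, ∑ T1 ∈ D1.powersetCard t1, A T1 T2
  set SB := ∑ T2 ∈ D2.powersetCard t2, ∑ T1 ∈ D1.powersetCard t1, B T1 T2
  set S := ∑ u ∈ W.filter (Good c J D1 D2 m1 m2), sg (f u) with hS
  have hgood : (∑ u ∈ W.filter (Good c J D1 D2 m1 m2), (1 : ℤ)) ≤ W.card := by
    rw [Finset.sum_const, nsmul_eq_mul, mul_one]
    exact_mod_cast Finset.card_le_card (Finset.filter_subset _ _)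
  have hC : (0 : ℝ) < (C1 : ℝ) * C2 := by positivity
  have hA' : (SA : ℝ) * 2 ^ e ≤ (C1 : ℝ) * C2 * 2 ^ n * 2 ^ (2 * j + 1) := by
    have h3 : SA * 2 ^ t1 ≤ 2 ^ e * C2 * (ρ * 2 ^ n * C1) := hsumA.trans (Nat.mul_le_mul_right _ h2)
    have h4 : (SA * 2 ^ e) * 2 ^ (7 * e) ≤ (C1 * C2 * 2 ^ n * 2 ^ (2 * j + 1)) * 2 ^ (7 * e) := by
      calc (SA * 2 ^ e) * 2 ^ (7 * e) = SA * 2 ^ t1 := by
            rw [mul_assoc, ← pow_add]; congr 2; omega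
        _ ≤ 2 ^ e * C2 * (ρ * 2 ^ n * C1) := h3
        _ = C1 * C2 * 2 ^ n * (2 ^ e * 2 ^ (6 * e + (2 * j + 1))) := by rw [hρ]; ring
        _ = C1 * C2 * 2 ^ n * (2 ^ (2 * j + 1) * 2 ^ (7 * e)) := by
            rw [← pow_add, ← pow_add]; congr 2; ring
        _ = _ := by ring
    have h5 := Nat.le_of_mul_le_mul_right h4 (by positivity)
    exact_mod_cast h5
  have hB' : (SB : ℝ) * 2 ^ e ≤ (C1 : ℝ) * C2 * 2 ^ n := by
    have h3 : SB * 2 ^ t2 ≤ 2 ^ e * C2 * ((2 ^ (lam * t1) * C1) * (L * 2 ^ n)) :=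
      hsumB.trans (Nat.mul_le_mul h2 (Nat.mul_le_mul_right _ h1))
    have h4 : (SB * 2 ^ e) * 2 ^ (e + lam * t1 + 2 * e) ≤
        (C1 * C2 * 2 ^ n) * 2 ^ (e + lam * t1 + 2 * e) := by
      calc (SB * 2 ^ e) * 2 ^ (e + lam * t1 + 2 * e) = SB * 2 ^ (e + (e + lam * t1 + 2 * e)) := by
            rw [mul_assoc, ← pow_add]
        _ ≤ SB * 2 ^ t2 := by
            refine Nat.mul_le_mul_left _ (Nat.pow_le_pow_right (by norm_num) ?_)
            rw [ht2, ht1]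
            have : (8 * lam + 4) * e = lam * (8 * e) + 4 * e := by ring
            omega
        _ ≤ 2 ^ e * C2 * ((2 ^ (lam * t1) * C1) * (L * 2 ^ n)) := h3
        _ = _ := by rw [hL]; ring
    have h5 := Nat.le_of_mul_le_mul_right h4 (by positivity)
    exact_mod_cast h5
  have hmain' : 2 ^ j * ((C1 : ℝ) * C2 * |(S : ℝ)|) ≤ (C1 : ℝ) * C2 * W.card + 2 ^ j * SA + 2 ^ j * SB := by
    have h6 : 2 ^ j * |((C1 * C2 : ℕ) : ℤ) * S| ≤ ((C1 * C2 : ℕ) : ℤ) * W.card + 2 ^ j * SA + 2 ^ j * SB := by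
      refine hmain.trans ?_
      have : ((C1 * C2 : ℕ) : ℤ) * (∑ u ∈ W.filter (Good c J D1 D2 m1 m2), (1 : ℤ)) ≤
          ((C1 * C2 : ℕ) : ℤ) * W.card := mul_le_mul_of_nonneg_left hgood (Nat.cast_nonneg _)
      linarith
    have h7 : ((2 ^ j * |((C1 * C2 : ℕ) : ℤ) * S| : ℤ) : ℝ) ≤
        ((((C1 * C2 : ℕ) : ℤ) * W.card + 2 ^ j * SA + 2 ^ j * SB : ℤ) : ℝ) := by exact_mod_cast h6
    push_cast at h7
    rw [abs_mul, abs_of_pos hC] at h7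
    linarith
  have hcast : ((S : ℤ) : ℝ) = ∑ u ∈ W.filter (Good c J D1 D2 m1 m2), (sg (f u) : ℝ) := by
    rw [hS, Int.cast_sum]
  rw [← hcast]
  have hJ : (0 : ℝ) < 2 ^ j := by positivity
  have hE : (0 : ℝ) < 2 ^ e := by positivity
  have hA'' : (SA : ℝ) ≤ (C1 : ℝ) * C2 * (2 ^ n * 2 ^ (2 * j + 1) / 2 ^ e) := by
    rw [← mul_div_assoc, le_div_iff₀ hE]
    linarith
  have hB'' : (SB : ℝ) ≤ (C1 : ℝ) * C2 * (2 ^ n * 2 ^ (2 * j + 1) / 2 ^ e) := by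
    rw [← mul_div_assoc, le_div_iff₀ hE]
    have h8 : (1 : ℝ) ≤ 2 ^ (2 * j + 1) := one_le_pow₀ (by norm_num)
    have h9 : (0 : ℝ) ≤ (C1 : ℝ) * C2 * 2 ^ n := by positivity
    have h10 : (C1 : ℝ) * C2 * 2 ^ n * 1 ≤ (C1 : ℝ) * C2 * 2 ^ n * 2 ^ (2 * j + 1) :=
      mul_le_mul_of_nonneg_left h8 h9
    linarith
  have hmm : 2 ^ j * ((C1 : ℝ) * C2 * |(S : ℝ)|) ≤
      2 ^ j * ((C1 : ℝ) * C2 * ((W.card : ℝ) / 2 ^ j + 2 ^ n * 2 ^ (2 * j + 2) / 2 ^ e)) := by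
    have e1 : 2 ^ j * ((C1 : ℝ) * C2 * ((W.card : ℝ) / 2 ^ j + 2 ^ n * 2 ^ (2 * j + 2) / 2 ^ e)) =
        (C1 : ℝ) * C2 * W.card + 2 ^ j * ((C1 : ℝ) * C2 * (2 ^ n * 2 ^ (2 * j + 1) / 2 ^ e)) +
        2 ^ j * ((C1 : ℝ) * C2 * (2 ^ n * 2 ^ (2 * j + 1) / 2 ^ e)) := by
      have e2 : (2 : ℝ) ^ (2 * j + 2) = 2 * 2 ^ (2 * j + 1) := by rw [pow_succ 2 (2 * j + 1)]; ring
      rw [e2]
      field_simp
      ring
    rw [e1]
    have h11 := mul_le_mul_of_nonneg_left hA'' hJ.le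
    have h12 := mul_le_mul_of_nonneg_left hB'' hJ.le
    linarith
  exact le_of_mul_le_mul_left (le_of_mul_le_mul_left hmm hJ) hC

end Pool.Agent.KF
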