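import Pool.Agent.KE.Family
import Pool.Agent.KF.CoreX

/-! One refined class of a skeleton: the choice of the numbers. -/

namespace Pool.Agent.KF

open Finset Pool.Agent.SemRO Pool.Agent.KD Pool.Agent.KE

/-- the base-two logarithm of the number of colours -/
def lx (k : ℕ) : ℕ := 26 + 3 * Nat.clog 2 k

/-- the number of colours -/
def qx (k : ℕ) : ℕ := 2 ^ lx k

/-- its power `4 k` -/
def Qx (k : ℕ) : ℕ := qx k ^ (4 * k)

/-- the loss per private variable -/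
def lamx (k : ℕ) : ℕ := 10 + 4 * k * lx k

/-- the number of segments -/
def Rx (k : ℕ) : ℕ := 2 ^ 14 * k ^ 2 * Qx k + 1

/-- `e = Ex k * β` -/
def Ex (k : ℕ) : ℕ := 512 * Qx k * Rx k + 6

/-- `β = n / Bx k` -/
def Bx (k : ℕ) : ℕ := 8192 * Qx k * Ex k

lemma qx_large {k : ℕ} (hk : 1 ≤ k) : 51200 * k * (8 * lamx k + 4) ≤ qx k := by
  unfold qx lamx lx
  set l := Nat.clog 2 k with hl
  have h1 : k ≤ 2 ^ l := Nat.le_pow_clog (by norm_num) k
  have h2 : l ≤ k := clog_le_self k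
  have h3 : (2 : ℕ) ^ (26 + 3 * l) = 67108864 * (2 ^ l) ^ 3 := by
    rw [pow_add, mul_comm 3 l, pow_mul]
    norm_num
  rw [h3]
  have h4 : k ^ 3 ≤ (2 ^ l) ^ 3 := Nat.pow_le_pow_left h1 3
  refine le_trans ?_ (Nat.mul_le_mul_left _ h4)
  have h5 : 8 * (10 + 4 * k * (26 + 3 * l)) + 4 ≤ 1012 * k ^ 2 := by
    have h6 : k * l ≤ k * k := Nat.mul_le_mul_left _ h2
    nlinarith
  calc 51200 * k * (8 * (10 + 4 * k * (26 + 3 * l)) + 4) ≤ 51200 * k * (1012 * k ^ 2) :=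
        Nat.mul_le_mul_left _ h5
    _ = 51814400 * k ^ 3 := by ring
    _ ≤ 67108864 * k ^ 3 := Nat.mul_le_mul_right _ (by norm_num)

lemma Qx_KB : KB Qx := by
  refine ⟨128, fun k hk => ?_⟩
  have h1 : qx k ≤ k ^ 32 := by
    unfold qx lx
    have h3 : (2 : ℕ) ^ (26 + 3 * Nat.clog 2 k) = 2 ^ 26 * (2 ^ Nat.clog 2 k) ^ 3 := by
      rw [pow_add, mul_comm 3 (Nat.clog 2 k), pow_mul]
    rw [h3]
    have h4 := two_pow_clog k (by omega)
    calc 2 ^ 26 * (2 ^ Nat.clog 2 k) ^ 3 ≤ 2 ^ 26 * (2 * k) ^ 3 :=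
          Nat.mul_le_mul_left _ (Nat.pow_le_pow_left h4 3)
      _ = 2 ^ 29 * k ^ 3 := by ring
      _ ≤ k ^ 29 * k ^ 3 := Nat.mul_le_mul_right _ (Nat.pow_le_pow_left hk _)
      _ = k ^ 32 := by rw [← pow_add]
  unfold Qx
  calc qx k ^ (4 * k) ≤ (k ^ 32) ^ (4 * k) := Nat.pow_le_pow_left h1 _
    _ = k ^ (128 * k) := by rw [← pow_mul]; congr 1; ring

lemma k_KB : KB (fun k => k) := ⟨1, fun k hk => by
    calc k = k ^ 1 := (pow_one k).symm
      _ ≤ k ^ (1 * k) := Nat.pow_le_pow_right (by omega) (by omega)⟩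

lemma Rx_KB : KB Rx :=
  ((((KB.const (2 ^ 14)).mul (k_KB.pow 2)).mul Qx_KB).add (KB.const 1)).mono fun _ _ => le_of_eq rfl

lemma Ex_KB : KB Ex :=
  ((((KB.const 512).mul Qx_KB).mul Rx_KB).add (KB.const 6)).mono fun _ _ => le_of_eq rfl

lemma Bx_KB : KB Bx := (((KB.const 8192).mul Qx_KB).mul Ex_KB).mono fun _ _ => le_of_eq rfl

lemma qx_pos (k : ℕ) : 0 < qx k := by unfold qx; positivity

lemma Qx_pos (k : ℕ) : 0 < Qx k := by
  have := qx_pos k
  unfold Qx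
  positivity

lemma Rx_pos (k : ℕ) : 1 ≤ Rx k := Nat.le_add_left _ _

lemma Qx_eq (k : ℕ) : Qx k = 2 ^ (4 * k * lx k) := by
  unfold Qx qx
  rw [← pow_mul]
  ring_nf

/-- **One refined class.** -/
theorem one_class {k n : ℕ} (hk : 1 ≤ k) {β : ℕ} (hβ1 : 1 ≤ β) (hβ : 8192 * Qx k * (Ex k * β) ≤ n) (j : ℕ)
    (f : (Fin n → Bool) → Bool) (hbal : Bal f (Ex k * β)) {R : ℕ}
    (W : Finset (Fin n → Bool)) (c : Fin R → (Fin n → Bool) → Fin n → Option Bool) (J : Finset (Fin R))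
    (hsub : ∀ z ∈ W, ∀ j, Sub (c j z) z)
    (hdet : ∀ j, ∀ z ∈ W, ∀ z' ∈ W, Compat (c j z) (c j z') → c j z = c j z')
    (hclosed : ∀ u, (∀ j, ∃ w ∈ W, Sub (c j w) u) → u ∈ W)
    {D1 D2 : Finset (Fin n)} (hD1c : D1.card = n / 2) (hD2c : D2.card = n - n / 2)
    (hdisj : Disjoint D1 D2) {m1 m2 : ℕ} (hm1 : m1 = n / (512 * Qx k))
    (hm2 : m2 = D2.card - (6400 * k * n / qx k + 1)) [DecidablePred (Good c J D1 D2 m1 m2)] :
    |∑ u ∈ W, (sg (f u) : ℝ)| ≤ (W.card : ℝ) / 2 ^ j + 2 ^ n * 2 ^ (2 * j + 2) / 2 ^ (Ex k * β) +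
      ((W.filter fun u => ¬ Good c J D1 D2 m1 m2 u).card : ℝ) := by
  classical
  obtain ⟨l, hl⟩ : ∃ l, l = lx k := ⟨_, rfl⟩
  obtain ⟨q, hq⟩ : ∃ q, q = qx k := ⟨_, rfl⟩
  obtain ⟨lam, hlam⟩ : ∃ lam, lam = lamx k := ⟨_, rfl⟩
  obtain ⟨mm, hmm⟩ : ∃ mm, mm = 8 * lam + 4 := ⟨_, rfl⟩
  obtain ⟨e, he⟩ : ∃ e, e = Ex k * β := ⟨_, rfl⟩
  obtain ⟨Q, hQ⟩ : ∃ Q, Q = Qx k := ⟨_, rfl⟩
  have hq2 : q = 2 ^ l := by rw [hq, hl]; rfl
  have hqpos : 0 < q := by rw [hq2]; positivity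
  have hQ2 : Q = 2 ^ (4 * k * l) := by rw [hQ, Qx_eq, hl]
  have hQpos : 0 < Q := by rw [hQ]; exact Qx_pos k
  have hlam2 : lam = 10 + 4 * k * l := by rw [hlam, hl]; rfl
  have hqmm : 51200 * k * mm ≤ q := by rw [hmm, hlam, hq]; exact qx_large hk
  rw [← hQ] at hβ hm1
  rw [← he] at hβ hbal
  rw [← hq] at hm2
  rw [← he]
  have hE6 : 6 ≤ Ex k := Nat.le_add_left _ _
  have he6 : 6 ≤ e := by
    rw [he]
    calc 6 = 6 * 1 := rfl
      _ ≤ Ex k * β := Nat.mul_le_mul hE6 hβ1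
  -- sizes
  have hQge : 4 * k * l + 1 ≤ Q := by rw [hQ2]; exact Nat.lt_two_pow_self
  have hl26 : 26 ≤ l := by rw [hl]; unfold lx; omega
  have hy1 : 1 ≤ 4 * k * l := Nat.one_le_iff_ne_zero.2 (by
    have : 0 < 4 * k * l := by positivity
    omega)
  have hmmQ : mm ≤ 92 * Q := by
    rw [hmm, hlam2]
    obtain ⟨y, hy⟩ : ∃ y, y = 4 * k * l := ⟨_, rfl⟩
    rw [← hy] at hQge hy1 ⊢
    omega
  have hQe : Q ≤ Q * e := Nat.le_mul_of_pos_right _ (by omega)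
  have h8192 : 8192 * (Q * e) ≤ n := by
    calc 8192 * (Q * e) = 8192 * Q * e := by ring
      _ ≤ n := hβ
  have hn10 : 10 ≤ n := by omega
  -- the numbers of private variables
  obtain ⟨x, hx⟩ : ∃ x, x = 6400 * k * n / q := ⟨_, rfl⟩
  rw [← hx] at hm2
  have hm1a : 512 * Q * m1 ≤ n := by rw [hm1]; exact Nat.mul_div_le n _
  have hm1b : n ≤ 512 * Q * (m1 + 1) := by
    rw [hm1]
    exact (Nat.lt_mul_div_succ n (show 0 < 512 * Q by omega)).le
  have hm1e : 16 * e ≤ m1 := by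
    rw [hm1, Nat.le_div_iff_mul_le (by omega)]
    calc 16 * e * (512 * Q) = 8192 * (Q * e) := by ring
      _ ≤ n := h8192
  have hxq : x * q ≤ 6400 * k * n := by rw [hx]; exact Nat.div_mul_le_self _ _
  have hxmm : 8 * mm * x ≤ n := by
    have : (8 * mm * x) * q ≤ n * q := by
      calc (8 * mm * x) * q = 8 * mm * (x * q) := by ring
        _ ≤ 8 * mm * (6400 * k * n) := Nat.mul_le_mul_left _ hxq
        _ = (51200 * k * mm) * n := by ring
        _ ≤ q * n := Nat.mul_le_mul_right _ hqmm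
        _ = n * q := by ring
    exact Nat.le_of_mul_le_mul_right this hqpos
  have hmme : 8 * mm * e ≤ n := by
    calc 8 * mm * e ≤ 8 * (92 * Q) * e := Nat.mul_le_mul_right _ (Nat.mul_le_mul_left _ hmmQ)
      _ = 736 * (Q * e) := by ring
      _ ≤ n := by omega
  have hmm16 : 16 * mm ≤ n := by omega
  have hsp : 2 * mm * (x + 1) + mm * e ≤ D2.card := by
    rw [hD2c]
    have h1 : 4 * (2 * mm * x) ≤ n := by
      calc 4 * (2 * mm * x) = 8 * mm * x := by ring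
        _ ≤ n := hxmm
    have h2 : 8 * (mm * e) ≤ n := by
      calc 8 * (mm * e) = 8 * mm * e := by ring
        _ ≤ n := hmme
    have h3 : 2 * mm * (x + 1) = 2 * mm * x + 2 * mm := by ring
    omega
  -- binomial coefficients
  have h1 : D1.card.choose (8 * e) ≤ 2 ^ (lam * (8 * e)) * m1.choose (8 * e) := by
    have h2 : D1.card ≤ 2 ^ lam * (m1 - 8 * e) := by
      have h3 : m1 + 1 ≤ 4 * (m1 - 8 * e) := by omega
      rw [hD1c]
      have h4 : n ≤ 2048 * (Q * (m1 - 8 * e)) := by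
        calc n ≤ 512 * Q * (m1 + 1) := hm1b
          _ ≤ 512 * Q * (4 * (m1 - 8 * e)) := Nat.mul_le_mul_left _ h3
          _ = _ := by ring
      have h5 : 2 ^ lam = 1024 * Q := by rw [hlam2, hQ2, pow_add]; norm_num
      rw [h5]
      have h6 : 1024 * Q * (m1 - 8 * e) = 1024 * (Q * (m1 - 8 * e)) := by ring
      omega
    have := choose_le_pow_mul h2
    rw [← pow_mul] at this
    exact this
  have hm2' : D2.card.choose (mm * e) ≤ 2 ^ e * m2.choose (mm * e) := by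
    rw [hm2]
    exact choose_sparse (q := mm) (by omega) hsp (by rw [mul_comm])
  have hp1 : 8 * e ≤ m1 := by omega
  have hp2 : mm * e ≤ m2 := by
    rw [hm2]
    have : 2 * mm * (x + 1) ≥ x + 1 := by
      calc x + 1 = 1 * (x + 1) := (one_mul _).symm
        _ ≤ 2 * mm * (x + 1) := Nat.mul_le_mul_right _ (by omega)
    omega
  have hcore := core_j (c := c) (W := W) (J := J) hsub hdet hclosed hdisj (m1 := m1) (m2 := m2)
    (e := e) (j := j) (lam := lam) (by omega) f hbal h1 (by rw [← hmm]; exact hm2') hp1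
    (by rw [← hmm]; exact hp2)
  have hsplit : ∑ u ∈ W, (sg (f u) : ℝ) = ∑ u ∈ W.filter (Good c J D1 D2 m1 m2), (sg (f u) : ℝ) +
      ∑ u ∈ W.filter (fun u => ¬ Good c J D1 D2 m1 m2 u), (sg (f u) : ℝ) :=
    (Finset.sum_filter_add_sum_filter_not _ _ _).symm
  have hbad2 : |∑ u ∈ W.filter (fun u => ¬ Good c J D1 D2 m1 m2 u), (sg (f u) : ℝ)| ≤
      ((W.filter fun u => ¬ Good c J D1 D2 m1 m2 u).card : ℝ) := by
    refine (Finset.abs_sum_le_sum_abs _ _).trans ?_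
    have h4 : ∀ u, |(sg (f u) : ℝ)| = 1 := by
      intro u
      have := KE.abs_sg (f u)
      have h5 : ((|sg (f u)| : ℤ) : ℝ) = 1 := by rw [this]; norm_num
      rw [Int.cast_abs] at h5
      exact h5
    rw [Finset.sum_congr rfl fun u _ => h4 u, Finset.sum_const, nsmul_eq_mul, mul_one]
  rw [hsplit]
  refine (abs_add_le _ _).trans ?_
  linarith

end Pool.Agent.KF
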