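import Pool.Agent.KF.FamDefs

/-! One sample of variables decides, for all but few points, whether sets of variables are small or large. -/

namespace Pool.Agent.KF

open Finset

/-- moment generating function of the number of sample points -/
lemma sum_pow_cnt {n t : ℕ} (K : Finset (Fin n)) (v : ℝ) :
    ∑ S : Fin t → Fin n, v ^ cnt S K = ((n : ℝ) + K.card * (v - 1)) ^ t := by
  classical
  have h1 : ∀ S : Fin t → Fin n, v ^ cnt S K = ∏ a, (if S a ∈ K then v else 1) := by
    intro S
    rw [Finset.prod_ite, prod_const_one, mul_one, prod_const]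
    rfl
  rw [sum_congr rfl fun S _ => h1 S]
  have h2 := Finset.prod_univ_sum (fun _ : Fin t => (univ : Finset (Fin n)))
    (fun _ s => if s ∈ K then v else 1)
  rw [Fintype.piFinset_univ] at h2
  rw [← h2, prod_const, card_univ, Fintype.card_fin]
  congr 1
  have h3 : ∀ s : Fin n, (if s ∈ K then v else 1) = 1 + (if s ∈ K then (v - 1) else 0) := by
    intro s
    split_ifs <;> ring
  rw [sum_congr rfl fun s _ => h3 s, sum_add_distrib, sum_const, card_univ, Fintype.card_fin, nsmul_eq_mul,
    mul_one, Finset.sum_ite_mem, Finset.univ_inter, sum_const, nsmul_eq_mul]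

lemma exp_one_le_four : Real.exp 1 ≤ 4 := by
  have := Real.exp_one_lt_d9
  linarith

lemma two_le_exp_one : (2 : ℝ) ≤ Real.exp 1 := by
  have := Real.add_one_le_exp (1 : ℝ)
  linarith

/-- small sets -/
lemma small_set {n t β lo : ℕ} (hn : 0 < n) (K : Finset (Fin n)) (hK : K.card ≤ lo) (hlo : lo * t ≤ β * n) :
    ((univ.filter fun S : Fin t → Fin n => 4 * β ≤ cnt S K).card : ℝ) * 2 ^ (2 * β) ≤ (n : ℝ) ^ t := by
  classical
  have hn' : (0 : ℝ) < n := by exact_mod_cast hn
  have h1 : ((univ.filter fun S : Fin t → Fin n => 4 * β ≤ cnt S K).card : ℝ) * 2 ^ (4 * β) ≤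
      ((n : ℝ) + K.card) ^ t := by
    have h2 := sum_pow_cnt (t := t) K 2
    have h3 : (n : ℝ) + K.card * (2 - 1) = n + K.card := by ring
    rw [h3] at h2
    rw [← h2]
    calc ((univ.filter fun S : Fin t → Fin n => 4 * β ≤ cnt S K).card : ℝ) * 2 ^ (4 * β)
        = ∑ _S ∈ univ.filter (fun S : Fin t → Fin n => 4 * β ≤ cnt S K), (2 : ℝ) ^ (4 * β) := by
          rw [sum_const, nsmul_eq_mul]
      _ ≤ ∑ S ∈ univ.filter (fun S : Fin t → Fin n => 4 * β ≤ cnt S K), (2 : ℝ) ^ cnt S K :=
          sum_le_sum fun S hS => pow_le_pow_right₀ (by norm_num) (mem_filter.1 hS).2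
      _ ≤ ∑ S : Fin t → Fin n, (2 : ℝ) ^ cnt S K :=
          sum_le_sum_of_subset_of_nonneg (filter_subset _ _) fun _ _ _ => by positivity
  have h4 : ((n : ℝ) + K.card) ^ t ≤ (n : ℝ) ^ t * 4 ^ β := by
    calc ((n : ℝ) + K.card) ^ t = (n : ℝ) ^ t * (1 + K.card / n) ^ t := by
          rw [← mul_pow]
          congr 1
          field_simp
      _ ≤ (n : ℝ) ^ t * Real.exp (K.card / n) ^ t := by
          refine mul_le_mul_of_nonneg_left (pow_le_pow_left₀ (by positivity) ?_ _) (by positivity)
          have := Real.add_one_le_exp ((K.card : ℝ) / n)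
          linarith
      _ = (n : ℝ) ^ t * Real.exp (t * (K.card / n)) := by rw [← Real.exp_nat_mul]
      _ ≤ (n : ℝ) ^ t * Real.exp β := by
          refine mul_le_mul_of_nonneg_left (Real.exp_le_exp.2 ?_) (by positivity)
          rw [← mul_div_assoc, div_le_iff₀ hn']
          have h5 : t * K.card ≤ β * n := by
            calc t * K.card ≤ t * lo := Nat.mul_le_mul_left _ hK
              _ = lo * t := mul_comm _ _
              _ ≤ β * n := hlo
          exact_mod_cast h5
      _ = (n : ℝ) ^ t * Real.exp 1 ^ β := by rw [← Real.exp_nat_mul, mul_one]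
      _ ≤ (n : ℝ) ^ t * 4 ^ β := mul_le_mul_of_nonneg_left
          (pow_le_pow_left₀ (Real.exp_pos _).le exp_one_le_four _) (by positivity)
  have h6 : (2 : ℝ) ^ (4 * β) = 2 ^ (2 * β) * 4 ^ β := by
    have : (4 : ℝ) = 2 ^ 2 := by norm_num
    rw [this, ← pow_mul, ← pow_add]
    congr 1
    ring
  rw [h6, ← mul_assoc] at h1
  exact le_of_mul_le_mul_right (h1.trans h4) (by positivity)

/-- large sets -/
lemma large_set {n t β hi : ℕ} (hn : 0 < n) (K : Finset (Fin n)) (hK : hi ≤ K.card)
    (hhi : 16 * β * n ≤ hi * t) :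
    ((univ.filter fun S : Fin t → Fin n => cnt S K < 4 * β).card : ℝ) * 2 ^ (2 * β) ≤ (n : ℝ) ^ t := by
  classical
  have hn' : (0 : ℝ) < n := by exact_mod_cast hn
  have hKn : (K.card : ℝ) ≤ n := by
    have := card_le_univ K
    rw [Fintype.card_fin] at this
    exact_mod_cast this
  have h1 : ((univ.filter fun S : Fin t → Fin n => cnt S K < 4 * β).card : ℝ) * (1 / 2) ^ (4 * β) ≤
      ((n : ℝ) - K.card / 2) ^ t := by
    have h2 := sum_pow_cnt (t := t) K (1 / 2)
    have h3 : (n : ℝ) + K.card * (1 / 2 - 1) = n - K.card / 2 := by ring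
    rw [h3] at h2
    rw [← h2]
    calc ((univ.filter fun S : Fin t → Fin n => cnt S K < 4 * β).card : ℝ) * (1 / 2) ^ (4 * β)
        = ∑ _S ∈ univ.filter (fun S : Fin t → Fin n => cnt S K < 4 * β), (1 / 2 : ℝ) ^ (4 * β) := by
          rw [sum_const, nsmul_eq_mul]
      _ ≤ ∑ S ∈ univ.filter (fun S : Fin t → Fin n => cnt S K < 4 * β), (1 / 2 : ℝ) ^ cnt S K :=
          sum_le_sum fun S hS => pow_le_pow_of_le_one (by norm_num) (by norm_num) (mem_filter.1 hS).2.le
      _ ≤ ∑ S : Fin t → Fin n, (1 / 2 : ℝ) ^ cnt S K :=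
          sum_le_sum_of_subset_of_nonneg (filter_subset _ _) fun _ _ _ => by positivity
  have h4 : ((n : ℝ) - K.card / 2) ^ t ≤ (n : ℝ) ^ t * Real.exp (-(8 * β)) := by
    calc ((n : ℝ) - K.card / 2) ^ t = (n : ℝ) ^ t * (1 - K.card / (2 * n)) ^ t := by
          rw [← mul_pow]
          congr 1
          field_simp
      _ ≤ (n : ℝ) ^ t * Real.exp (-(K.card / (2 * n))) ^ t := by
          refine mul_le_mul_of_nonneg_left (pow_le_pow_left₀ ?_ ?_ _) (by positivity)
          · rw [sub_nonneg, div_le_one (by positivity)]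
            linarith
          · have := Real.add_one_le_exp (-((K.card : ℝ) / (2 * n)))
            linarith
      _ = (n : ℝ) ^ t * Real.exp (t * (-(K.card / (2 * n)))) := by rw [← Real.exp_nat_mul]
      _ ≤ (n : ℝ) ^ t * Real.exp (-(8 * β)) := by
          refine mul_le_mul_of_nonneg_left (Real.exp_le_exp.2 ?_) (by positivity)
          have h5 : 16 * β * n ≤ t * K.card := by
            calc 16 * β * n ≤ hi * t := hhi
              _ = t * hi := mul_comm _ _
              _ ≤ t * K.card := Nat.mul_le_mul_left _ hK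
          have h6 : 16 * (β : ℝ) * n ≤ t * K.card := by exact_mod_cast h5
          have h7 : 8 * (β : ℝ) ≤ t * (K.card / (2 * n)) := by
            rw [← mul_div_assoc, le_div_iff₀ (by positivity)]
            linarith
          linarith
  have h8 : ((univ.filter fun S : Fin t → Fin n => cnt S K < 4 * β).card : ℝ) * 2 ^ (2 * β) *
      ((1 / 2) ^ (4 * β) * (1 / 2) ^ (2 * β)) ≤ (n : ℝ) ^ t * Real.exp (-(8 * β)) := by
    calc ((univ.filter fun S : Fin t → Fin n => cnt S K < 4 * β).card : ℝ) * 2 ^ (2 * β) *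
        ((1 / 2) ^ (4 * β) * (1 / 2) ^ (2 * β))
        = ((univ.filter fun S : Fin t → Fin n => cnt S K < 4 * β).card : ℝ) * (1 / 2) ^ (4 * β) *
          ((2 : ℝ) ^ (2 * β) * (1 / 2) ^ (2 * β)) := by ring
      _ = ((univ.filter fun S : Fin t → Fin n => cnt S K < 4 * β).card : ℝ) * (1 / 2) ^ (4 * β) := by
          rw [← mul_pow]
          norm_num
      _ ≤ _ := h1.trans h4
  have h9 : Real.exp (-(8 * β)) ≤ (1 / 2 : ℝ) ^ (4 * β) * (1 / 2) ^ (2 * β) := by
    rw [← pow_add, Real.exp_neg]
    have h10 : (2 : ℝ) ^ (4 * β + 2 * β) ≤ Real.exp (8 * β) := by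
      calc (2 : ℝ) ^ (4 * β + 2 * β) ≤ 2 ^ (8 * β) := pow_le_pow_right₀ (by norm_num) (by omega)
        _ ≤ Real.exp 1 ^ (8 * β) := pow_le_pow_left₀ (by norm_num) two_le_exp_one _
        _ = Real.exp (8 * β) := by
            rw [← Real.exp_nat_mul]
            congr 1
            push_cast
            ring
    rw [one_div, inv_pow]
    exact inv_anti₀ (by positivity) h10
  have h11 : (0 : ℝ) < (1 / 2) ^ (4 * β) * (1 / 2) ^ (2 * β) := by positivity
  refine le_of_mul_le_mul_right (h8.trans ?_) h11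
  exact mul_le_mul_of_nonneg_left h9 (by positivity)

/-- **The sampling lemma.** -/
theorem sampleX : SampleX := by
  classical
  intro α κ _ n t b hn Z K lo hi β hβ hlo hhi
  have hn' : (0 : ℝ) < n := by exact_mod_cast hn
  obtain ⟨Ty, hTy⟩ : ∃ Ty : (Fin t → Fin n) → α → Prop, Ty = fun S z =>
      ∀ i, ((K i z).card ≤ lo i → cnt S (K i z) < 4 * β i) ∧
        (hi i ≤ (K i z).card → 4 * β i ≤ cnt S (K i z)) := ⟨_, rfl⟩
  -- a fixed point
  have hz : ∀ z, ((univ.filter fun S : Fin t → Fin n => ¬ Ty S z).card : ℝ) * 2 ^ (2 * b) ≤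
      2 * Fintype.card κ * (n : ℝ) ^ t := by
    intro z
    have hsub : (univ.filter fun S : Fin t → Fin n => ¬ Ty S z) ⊆
        (univ : Finset κ).biUnion fun i =>
          (if (K i z).card ≤ lo i then univ.filter fun S : Fin t → Fin n => 4 * β i ≤ cnt S (K i z) else ∅) ∪
          (if hi i ≤ (K i z).card then univ.filter fun S : Fin t → Fin n => cnt S (K i z) < 4 * β i else ∅) := by
      intro S hS
      have h1 := (mem_filter.1 hS).2
      rw [hTy] at h1
      simp only at h1
      push Not at h1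
      obtain ⟨i, hi'⟩ := h1
      rw [mem_biUnion]
      refine ⟨i, mem_univ _, mem_union.2 ?_⟩
      by_cases h2 : (K i z).card ≤ lo i ∧ 4 * β i ≤ cnt S (K i z)
      · left
        rw [if_pos h2.1]
        exact mem_filter.2 ⟨mem_univ _, h2.2⟩
      · right
        have h3 := hi' fun h4 => by
          by_contra h5
          exact h2 ⟨h4, not_lt.1 h5⟩
        rw [if_pos h3.1]
        exact mem_filter.2 ⟨mem_univ _, h3.2⟩
    have hcard : (univ.filter fun S : Fin t → Fin n => ¬ Ty S z).card ≤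
        ∑ i, ((if (K i z).card ≤ lo i then univ.filter fun S : Fin t → Fin n => 4 * β i ≤ cnt S (K i z) else ∅).card +
          (if hi i ≤ (K i z).card then univ.filter fun S : Fin t → Fin n => cnt S (K i z) < 4 * β i else ∅).card) :=
      (card_le_card hsub).trans (card_biUnion_le.trans (sum_le_sum fun i _ => card_union_le _ _))
    have hb : ∀ (i : κ) (c : ℝ), 0 ≤ c → c * 2 ^ (2 * β i) ≤ (n : ℝ) ^ t → c * 2 ^ (2 * b) ≤ (n : ℝ) ^ t := by
      intro i c hc h
      refine le_trans (mul_le_mul_of_nonneg_left ?_ hc) h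
      exact pow_le_pow_right₀ (by norm_num) (by have := hβ i; omega)
    calc ((univ.filter fun S : Fin t → Fin n => ¬ Ty S z).card : ℝ) * 2 ^ (2 * b)
        ≤ (∑ i, (((if (K i z).card ≤ lo i then univ.filter fun S : Fin t → Fin n => 4 * β i ≤ cnt S (K i z) else ∅).card : ℝ) +
          ((if hi i ≤ (K i z).card then univ.filter fun S : Fin t → Fin n => cnt S (K i z) < 4 * β i else ∅).card : ℝ))) *
          2 ^ (2 * b) := mul_le_mul_of_nonneg_right (by exact_mod_cast hcard) (by positivity)
      _ = ∑ i, (((if (K i z).card ≤ lo i then univ.filter fun S : Fin t → Fin n => 4 * β i ≤ cnt S (K i z) else ∅).card : ℝ) * 2 ^ (2 * b) +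
          ((if hi i ≤ (K i z).card then univ.filter fun S : Fin t → Fin n => cnt S (K i z) < 4 * β i else ∅).card : ℝ) * 2 ^ (2 * b)) := by
          rw [sum_mul]
          exact sum_congr rfl fun i _ => add_mul _ _ _
      _ ≤ ∑ _i : κ, ((n : ℝ) ^ t + (n : ℝ) ^ t) := by
          refine sum_le_sum fun i _ => add_le_add ?_ ?_
          · split_ifs with h
            · exact hb i _ (Nat.cast_nonneg _) (small_set hn _ h (hlo i))
            · rw [card_empty, Nat.cast_zero, zero_mul]
              positivity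
          · split_ifs with h
            · exact hb i _ (Nat.cast_nonneg _) (large_set hn _ h (hhi i))
            · rw [card_empty, Nat.cast_zero, zero_mul]
              positivity
      _ = 2 * Fintype.card κ * (n : ℝ) ^ t := by
          rw [sum_const, card_univ, nsmul_eq_mul]
          ring
  -- the best sample
  have hsum : ∑ S : Fin t → Fin n, ((Z.filter fun z => ¬ Ty S z).card : ℝ) * 2 ^ (2 * b) ≤
      ∑ _S : Fin t → Fin n, (2 * Fintype.card κ * Z.card : ℝ) := by
    have e1 : ∑ S : Fin t → Fin n, ((Z.filter fun z => ¬ Ty S z).card : ℝ) =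
        ∑ z ∈ Z, ((univ.filter fun S : Fin t → Fin n => ¬ Ty S z).card : ℝ) := by
      have e2 : ∀ S, ((Z.filter fun z => ¬ Ty S z).card : ℝ) = ∑ z ∈ Z, if ¬ Ty S z then (1 : ℝ) else 0 :=
        fun S => by rw [Finset.sum_boole]
      have e3 : ∀ z, ((univ.filter fun S : Fin t → Fin n => ¬ Ty S z).card : ℝ) =
          ∑ S : Fin t → Fin n, if ¬ Ty S z then (1 : ℝ) else 0 := fun z => by rw [Finset.sum_boole]
      rw [sum_congr rfl fun S _ => e2 S, sum_congr rfl fun z _ => e3 z, sum_comm]
    rw [← sum_mul, e1, sum_mul]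
    refine (sum_le_sum fun z _ => hz z).trans (le_of_eq ?_)
    rw [sum_const, sum_const, card_univ, Fintype.card_fun, Fintype.card_fin, Fintype.card_fin,
      nsmul_eq_mul, nsmul_eq_mul]
    push_cast
    ring
  have hne : (univ : Finset (Fin t → Fin n)).Nonempty := ⟨fun _ => ⟨0, hn⟩, mem_univ _⟩
  obtain ⟨S, _, hS⟩ := Finset.exists_le_of_sum_le hne hsum
  refine ⟨S, fun Y hY h => ?_⟩
  have hYs : Y ⊆ Z.filter fun z => ¬ Ty S z := by
    intro z hz'
    refine mem_filter.2 ⟨hY hz', ?_⟩
    rw [hTy]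
    exact h z hz'
  have h1 : (Z.filter fun z => ¬ Ty S z).card * 2 ^ (2 * b) ≤ 2 * Fintype.card κ * Z.card := by
    exact_mod_cast hS
  exact (Nat.mul_le_mul_right _ (card_le_card hYs)).trans h1

end Pool.Agent.KF
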