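import Pool.Agent.KE.Params
import Pool.Agent.KF.ClassX
import Pool.Agent.KF.Sample

/-! The family theorem with exponentially small bias: the players are chosen by sampling. -/

namespace Pool.Agent.KF

open Finset Pool.Agent.SemRO Pool.Agent.KD Pool.Agent.KE

section pattern
variable {n R t : ℕ}

open Classical in
/-- the pattern of the sample -/
noncomputable def pat (S : Fin t → Fin n) (c : Fin R → (Fin n → Bool) → Fin n → Option Bool)
    (z : Fin n → Bool) : Fin t → Finset (Fin R) := fun a => univ.filter fun j => S a ∈ dom (c j z)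

lemma mem_pat {S : Fin t → Fin n} {c : Fin R → (Fin n → Bool) → Fin n → Option Bool} {z : Fin n → Bool}
    {a : Fin t} {j : Fin R} : j ∈ pat S c z a ↔ S a ∈ dom (c j z) := by
  unfold pat
  rw [Finset.mem_filter]
  exact ⟨fun h => h.2, fun h => ⟨Finset.mem_univ _, h⟩⟩

open Classical in
/-- the class of a pattern -/
noncomputable def cl (S : Fin t → Fin n) (c : Fin R → (Fin n → Bool) → Fin n → Option Bool)
    (W : Finset (Fin n → Bool)) (τ : Fin t → Finset (Fin R)) : Finset (Fin n → Bool) :=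
  W.filter fun z => pat S c z = τ

lemma mem_cl {S : Fin t → Fin n} {c : Fin R → (Fin n → Bool) → Fin n → Option Bool}
    {W : Finset (Fin n → Bool)} {τ : Fin t → Finset (Fin R)} {z : Fin n → Bool} :
    z ∈ cl S c W τ ↔ z ∈ W ∧ pat S c z = τ := by
  unfold cl
  rw [Finset.mem_filter]

/-- the classes are closed -/
lemma cl_closed {c : Fin R → (Fin n → Bool) → Fin n → Option Bool} {W : Finset (Fin n → Bool)}
    (hsub : ∀ z ∈ W, ∀ j, Sub (c j z) z)
    (hdet : ∀ j, ∀ z ∈ W, ∀ z' ∈ W, Compat (c j z) (c j z') → c j z = c j z')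
    (hclosed : ∀ u, (∀ j, ∃ w ∈ W, Sub (c j w) u) → u ∈ W) (S : Fin t → Fin n)
    (τ : Fin t → Finset (Fin R)) (u : Fin n → Bool) (h : ∀ j, ∃ w ∈ cl S c W τ, Sub (c j w) u) :
    u ∈ cl S c W τ := by
  have hu : u ∈ W := hclosed u fun j => by
    obtain ⟨w, hw, h1⟩ := h j
    exact ⟨w, (mem_cl.1 hw).1, h1⟩
  refine mem_cl.2 ⟨hu, ?_⟩
  funext a
  ext j
  obtain ⟨w, hw, h1⟩ := h j
  obtain ⟨hw1, hw2⟩ := mem_cl.1 hw
  have h2 : c j u = c j w := hdet j u hu w hw1 fun i b b' hb hb' => by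
    rw [← hsub u hu j i b hb, ← h1 i b' hb']
  rw [mem_pat, h2, ← mem_pat (S := S) (c := c), hw2]

/-- the first condition on the sample, for the pattern -/
def g1 (S : Fin t → Fin n) (D : Finset (Fin n)) (τ : Fin t → Finset (Fin R)) (J : Finset (Fin R)) : ℕ :=
  (univ.filter fun a => S a ∈ D ∧ ∀ j, j ∉ J → j ∉ τ a).card

open Classical in
/-- the second condition on the sample, for the pattern -/
noncomputable def g2 (S : Fin t → Fin n) (D : Finset (Fin n)) (τ : Fin t → Finset (Fin R))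
    (J : Finset (Fin R)) : ℕ :=
  (univ.filter fun a => S a ∈ D ∧ ¬ ∀ j ∈ J, j ∉ τ a).card

open Classical in
/-- the variables of `D` that some player in `J` reads -/
noncomputable def K3 (c : Fin R → (Fin n → Bool) → Fin n → Option Bool) (J : Finset (Fin R)) (D : Finset (Fin n))
    (u : Fin n → Bool) : Finset (Fin n) :=
  D.filter (fun i => ¬ ∀ j ∈ J, i ∉ dom (c j u))

lemma card_K2_K3 (c : Fin R → (Fin n → Bool) → Fin n → Option Bool) (J : Finset (Fin R)) (D : Finset (Fin n))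
    (u : Fin n → Bool) : (K2 c J D u).card + (K3 c J D u).card = D.card := by
  classical
  unfold K2 K3
  have h := Finset.card_filter_add_card_filter_not (s := D) (fun i => ∀ j ∈ J, i ∉ dom (c j u))
  convert h

lemma g1_eq (S : Fin t → Fin n) (c : Fin R → (Fin n → Bool) → Fin n → Option Bool) (J : Finset (Fin R))
    (D : Finset (Fin n)) (z : Fin n → Bool) : cnt S (K1 c J D z) = g1 S D (pat S c z) J := by
  classical
  unfold cnt g1
  congr 1
  ext a
  simp only [Finset.mem_filter, Finset.mem_univ, true_and, K1, mem_pat]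

lemma g2_eq (S : Fin t → Fin n) (c : Fin R → (Fin n → Bool) → Fin n → Option Bool) (J : Finset (Fin R))
    (D : Finset (Fin n)) (z : Fin n → Bool) : cnt S (K3 c J D z) = g2 S D (pat S c z) J := by
  classical
  unfold cnt g2
  congr 1
  ext a
  simp only [Finset.mem_filter, Finset.mem_univ, true_and, K3, mem_pat]

end pattern

/-- **One point has a good set of players.** -/
lemma exists_J1 {n R k : ℕ} (hk : 1 ≤ k) (hR : 2 ^ 14 * k ^ 2 * Qx k ≤ R) (c : Fin R → (Fin n → Bool) → Fin n → Option Bool)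
    (z : Fin n → Bool) (hd : ∀ j, (dom (c j z)).card * R ≤ k * n) (D1 D2 : Finset (Fin n)) {h1 lo2 : ℕ}
    (hD1 : 9 * n ≤ 20 * D1.card) (hh1 : 16 * Qx k * h1 ≤ n) (hlo2 : 200 * k * n ≤ qx k * lo2)
    (hlo : lo2 ≤ D2.card) : ∃ J : Finset (Fin R), h1 ≤ (K1 c J D1 z).card ∧ (K3 c J D2 z).card ≤ lo2 := by
  classical
  obtain ⟨J, hJ⟩ := existsJ (n := n) (R := R) (k := k) (q := qx k) (m1 := h1) (m2 := D2.card - lo2)
    (qx_pos k) hk hR {z} (fun j u => dom (c j u)) (fun u hu j => by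
      rw [Finset.mem_singleton] at hu
      rw [hu]
      exact hd j) D1 D2 hD1 hh1 (by
      have h3 : qx k * (D2.card - lo2) + qx k * lo2 = qx k * D2.card := by
        rw [← mul_add]
        congr 1
        omega
      omega)
  have h4 : h1 ≤ (K1 c J D1 z).card ∧ D2.card - lo2 ≤ (K2 c J D2 z).card := by
    by_contra hcon
    have := hJ {z} (Finset.Subset.refl _) (fun u hu => by
      rw [Finset.mem_singleton] at hu
      rw [hu]
      exact hcon)
    rw [Finset.card_singleton] at this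
    omega
  refine ⟨J, h4.1, ?_⟩
  have := card_K2_K3 c J D2 z
  omega

/-- **The family with a sample.** -/
theorem family_sample (hS : SampleX) {k n : ℕ} (hk : 1 ≤ k) {β : ℕ} (hβ1 : 1 ≤ β)
    (hβ : 8192 * Qx k * (Ex k * β) ≤ n) (hqn : qx k ≤ n) (j : ℕ) (f : (Fin n → Bool) → Bool) (hbal : Bal f (Ex k * β))
    (ι : Type) [Fintype ι] (W : ι → Finset (Fin n → Bool))
    (c : ι → Fin (Rx k) → (Fin n → Bool) → Fin n → Option Bool)
    (hsub : ∀ i, ∀ z ∈ W i, ∀ j, Sub (c i j z) z)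
    (hdet : ∀ i j, ∀ z ∈ W i, ∀ z' ∈ W i, Compat (c i j z) (c i j z') → c i j z = c i j z')
    (hclosed : ∀ i u, (∀ j, ∃ w ∈ W i, Sub (c i j w) u) → u ∈ W i)
    (hdom : ∀ i, ∀ z ∈ W i, ∀ j, (dom (c i j z)).card * Rx k ≤ k * n)
    (hdisj : ∀ i i', i ≠ i' → Disjoint (W i) (W i')) :
    |∑ i, ∑ x ∈ W i, (sg (f x) : ℝ)| ≤ 2 ^ n / 2 ^ j +
      Fintype.card ι * 2 ^ (512 * Qx k * β * Rx k) * (2 ^ n * 2 ^ (2 * j + 2) / 2 ^ (Ex k * β)) +
      2 ^ (Rx k + 2) * 2 ^ n / 2 ^ (2 * β) := by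
  classical
  obtain ⟨q, hq⟩ : ∃ q, q = qx k := ⟨_, rfl⟩
  obtain ⟨Q, hQ⟩ : ∃ Q, Q = Qx k := ⟨_, rfl⟩
  obtain ⟨R, hR⟩ : ∃ R, R = Rx k := ⟨_, rfl⟩
  have hqpos : 0 < q := by rw [hq]; exact qx_pos k
  have hQpos : 0 < Q := by rw [hQ]; exact Qx_pos k
  obtain ⟨Q', hQ'⟩ : ∃ Q', Q = q * Q' := by
    refine ⟨q ^ (4 * k - 1), ?_⟩
    rw [hQ, hq]
    unfold Qx
    rw [← pow_succ']
    congr 1
    omega
  have hQ'pos : 0 < Q' := by
    rcases Nat.eq_zero_or_pos Q' with h | h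
    · rw [h] at hQ'
      omega
    · exact h
  have hqk : 51200 * k ≤ q := by
    have h1 := qx_large hk
    rw [hq]
    calc 51200 * k = 51200 * k * 1 := (mul_one _).symm
      _ ≤ 51200 * k * (8 * lamx k + 4) := Nat.mul_le_mul_left _ (by omega)
      _ ≤ qx k := h1
  have hE6 : 6 ≤ Ex k := Nat.le_add_left _ _
  have hE1 : 1 ≤ Ex k * β := Nat.mul_pos (by omega) hβ1
  have hQn : 8192 * Q ≤ n := by
    rw [hQ]
    calc 8192 * Qx k = 8192 * Qx k * 1 := (mul_one _).symm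
      _ ≤ 8192 * Qx k * (Ex k * β) := Nat.mul_le_mul_left _ hE1
      _ ≤ n := hβ
  have hn8 : 8192 ≤ n := by omega
  -- the two halves
  obtain ⟨D1, hD1⟩ : ∃ D1 : Finset (Fin n), D1 = univ.filter (fun i : Fin n => (i : ℕ) < n / 2) := ⟨_, rfl⟩
  have hD1c : D1.card = n / 2 := by
    rw [hD1, Fin.card_filter_val_lt]
    omega
  obtain ⟨D2, hD2⟩ : ∃ D2 : Finset (Fin n), D2 = D1ᶜ := ⟨_, rfl⟩
  have hD2c : D2.card = n - n / 2 := by rw [hD2, Finset.card_compl, Fintype.card_fin, hD1c]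
  have hD12 : Disjoint D1 D2 := by rw [hD2]; exact disjoint_compl_right
  -- the thresholds
  obtain ⟨m1, hm1⟩ : ∃ m1, m1 = n / (512 * Qx k) := ⟨_, rfl⟩
  obtain ⟨h1, hh1⟩ : ∃ h1, h1 = n / (32 * Q) + 1 := ⟨_, rfl⟩
  obtain ⟨lo2, hlo2⟩ : ∃ lo2, lo2 = 400 * k * n / q := ⟨_, rfl⟩
  obtain ⟨hi2, hhi2⟩ : ∃ hi2, hi2 = 6400 * k * n / qx k + 1 := ⟨_, rfl⟩
  obtain ⟨m2, hm2⟩ : ∃ m2, m2 = D2.card - (6400 * k * n / qx k + 1) := ⟨_, rfl⟩
  obtain ⟨v, hv⟩ : ∃ v, v = 512 * Q' * β := ⟨_, rfl⟩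
  obtain ⟨t, ht⟩ : ∃ t, t = 512 * Q * β := ⟨_, rfl⟩
  have htv : t = q * v := by rw [ht, hv, hQ']; ring
  have hvβ : β ≤ v := by
    rw [hv]
    exact Nat.le_mul_of_pos_left _ (by omega)
  -- the sample
  obtain ⟨κ, hκ⟩ : ∃ κ : Type, κ = (Finset (Fin (Rx k)) × Bool) := ⟨_, rfl⟩
  obtain ⟨Z, hZ⟩ : ∃ Z : Finset (ι × (Fin n → Bool)), Z = univ.filter fun p => p.2 ∈ W p.1 := ⟨_, rfl⟩
  have hZm : ∀ p, p ∈ Z ↔ p.2 ∈ W p.1 := by
    intro p
    rw [hZ, Finset.mem_filter]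
    exact ⟨fun h => h.2, fun h => ⟨Finset.mem_univ _, h⟩⟩
  obtain ⟨S, hSm⟩ := hS (α := ι × (Fin n → Bool)) (κ := Finset (Fin (Rx k)) × Bool) (n := n) (t := t) (b := β)
    (by omega) Z
    (fun i p => if i.2 = true then K1 (c p.1) i.1 D1 p.2 else K3 (c p.1) i.1 D2 p.2)
    (fun i => if i.2 = true then m1 else lo2) (fun i => if i.2 = true then h1 else hi2)
    (fun i => if i.2 = true then β else 400 * k * v)
    (by
      rintro ⟨J, b⟩
      cases b
      · simp only [Bool.false_eq_true, if_false]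
        calc β ≤ v := hvβ
          _ ≤ 400 * k * v := Nat.le_mul_of_pos_left _ (by omega)
      · simp only [if_true]; exact le_rfl)
    (by
      rintro ⟨J, b⟩
      cases b
      · simp only [Bool.false_eq_true, if_false]
        rw [htv, hlo2]
        calc 400 * k * n / q * (q * v) = (400 * k * n / q * q) * v := by ring
          _ ≤ (400 * k * n) * v := Nat.mul_le_mul_right _ (Nat.div_mul_le_self _ _)
          _ = 400 * k * v * n := by ring
      · simp only [if_true]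
        rw [ht, hm1, ← hQ]
        calc n / (512 * Q) * (512 * Q * β) = (n / (512 * Q) * (512 * Q)) * β := by ring
          _ ≤ n * β := Nat.mul_le_mul_right _ (Nat.div_mul_le_self _ _)
          _ = β * n := by ring)
    (by
      rintro ⟨J, b⟩
      cases b
      · simp only [Bool.false_eq_true, if_false]
        rw [htv, hhi2, ← hq]
        calc 16 * (400 * k * v) * n = (6400 * k * n) * v := by ring
          _ ≤ (q * (6400 * k * n / q + 1)) * v :=
              Nat.mul_le_mul_right _ (Nat.lt_mul_div_succ _ hqpos).le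
          _ = _ := by ring
      · simp only [if_true]
        rw [ht, hh1]
        calc 16 * β * n = n * (16 * β) := by ring
          _ ≤ (32 * Q * (n / (32 * Q) + 1)) * (16 * β) :=
              Nat.mul_le_mul_right _ (Nat.lt_mul_div_succ _ (by omega)).le
          _ = _ := by ring)
  -- the players
  obtain ⟨Jf, hJf⟩ : ∃ Jf : (Fin t → Finset (Fin (Rx k))) → Finset (Fin (Rx k)), ∀ τ,
      (∃ J, 4 * β ≤ g1 S D1 τ J ∧ g2 S D2 τ J < 4 * (400 * k * v)) →
      4 * β ≤ g1 S D1 τ (Jf τ) ∧ g2 S D2 τ (Jf τ) < 4 * (400 * k * v) :=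
    ⟨fun τ => if h : ∃ J, 4 * β ≤ g1 S D1 τ J ∧ g2 S D2 τ J < 4 * (400 * k * v) then h.choose else ∅,
      fun τ h => by simp only [dif_pos h]; exact h.choose_spec⟩
  obtain ⟨Ty, hTy⟩ : ∃ Ty : ι × (Fin n → Bool) → Prop, Ty = fun p => ∀ J : Finset (Fin (Rx k)),
      ((K1 (c p.1) J D1 p.2).card ≤ m1 → cnt S (K1 (c p.1) J D1 p.2) < 4 * β) ∧
      (h1 ≤ (K1 (c p.1) J D1 p.2).card → 4 * β ≤ cnt S (K1 (c p.1) J D1 p.2)) ∧
      ((K3 (c p.1) J D2 p.2).card ≤ lo2 → cnt S (K3 (c p.1) J D2 p.2) < 4 * (400 * k * v)) ∧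
      (hi2 ≤ (K3 (c p.1) J D2 p.2).card → 4 * (400 * k * v) ≤ cnt S (K3 (c p.1) J D2 p.2)) := ⟨_, rfl⟩
  have hgood : ∀ i, ∀ z ∈ W i, Ty (i, z) → Good (c i) (Jf (pat S (c i) z)) D1 D2 m1 m2 z := by
    intro i z hz hty
    rw [hTy] at hty
    simp only at hty
    have hlo2D : lo2 ≤ D2.card := by
      rw [hlo2, hD2c]
      have : 400 * k * n / q ≤ n / 128 := by
        rw [Nat.le_div_iff_mul_le (by norm_num)]
        have h2 : 400 * k * n / q * q ≤ 400 * k * n := Nat.div_mul_le_self _ _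
        have h3 : 400 * k * n / q * 128 * (400 * k) ≤ n * (400 * k) := by
          calc 400 * k * n / q * 128 * (400 * k) = 400 * k * n / q * (51200 * k) := by ring
            _ ≤ 400 * k * n / q * q := Nat.mul_le_mul_left _ hqk
            _ ≤ 400 * k * n := h2
            _ = n * (400 * k) := by ring
        exact Nat.le_of_mul_le_mul_right h3 (by omega)
      omega
    obtain ⟨J0, hJ1, hJ2⟩ := exists_J1 (R := Rx k) (k := k) hk (Nat.le_succ _) (c i) z (hdom i z hz)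
      D1 D2 (h1 := h1) (lo2 := lo2) (by rw [hD1c]; omega) (by
        rw [← hQ, hh1]
        have h2 : 32 * Q * (n / (32 * Q)) ≤ n := Nat.mul_div_le n _
        have h3 : 16 * Q * (n / (32 * Q) + 1) = 16 * Q * (n / (32 * Q)) + 16 * Q := by ring
        have h4 : 32 * Q * (n / (32 * Q)) = 2 * (16 * Q * (n / (32 * Q))) := by ring
        omega) (by
        rw [← hq, hlo2]
        have h2 : 400 * k * n < q * (400 * k * n / q + 1) := Nat.lt_mul_div_succ _ hqpos
        have h3 : q * (400 * k * n / q + 1) = q * (400 * k * n / q) + q := by ring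
        have h4 : 400 * k * n = 2 * (200 * k * n) := by ring
        have h5 : q ≤ 200 * k * n := by
          rw [hq]
          calc qx k ≤ n := hqn
            _ ≤ 200 * k * n := Nat.le_mul_of_pos_left _ (by omega)
        omega) hlo2D
    obtain ⟨a1, a2⟩ := hJf (pat S (c i) z) ⟨J0, by
      rw [← g1_eq]
      exact (hty J0).2.1 hJ1, by
      rw [← g2_eq]
      exact (hty J0).2.2.1 hJ2⟩
    rw [← g1_eq] at a1
    rw [← g2_eq] at a2
    obtain ⟨b1, _, _, b4⟩ := hty (Jf (pat S (c i) z))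
    constructor
    · by_contra hcon
      have := b1 (by omega)
      omega
    · have h2 := card_K2_K3 (c i) (Jf (pat S (c i) z)) D2 z
      have h3 : ¬ hi2 ≤ (K3 (c i) (Jf (pat S (c i) z)) D2 z).card := by
        intro hcon
        have := b4 hcon
        omega
      rw [hm2]
      omega
  -- the points that are not typical
  obtain ⟨Y, hY⟩ : ∃ Y : Finset (ι × (Fin n → Bool)), Y = Z.filter fun p => ¬ Ty p := ⟨_, rfl⟩
  have hYc : Y.card * 2 ^ (2 * β) ≤ 2 * (2 ^ Rx k * 2) * Z.card := by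
    have h2 := hSm Y (by rw [hY]; exact Finset.filter_subset _ _) (by
      intro p hp hcon
      rw [hY] at hp
      apply (Finset.mem_filter.1 hp).2
      rw [hTy]
      intro J
      have c1 := hcon (J, true)
      have c2 := hcon (J, false)
      simp only [if_true, Bool.false_eq_true, if_false] at c1 c2
      exact ⟨c1.1, c1.2, c2.1, c2.2⟩)
    rw [Fintype.card_prod, Fintype.card_finset, Fintype.card_fin, Fintype.card_bool] at h2
    exact h2
  have hZc : Z.card = ∑ i, (W i).card := by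
    rw [hZ, Finset.card_filter, ← Finset.univ_product_univ, Finset.sum_product]
    refine Finset.sum_congr rfl fun i _ => ?_
    rw [← Finset.card_filter]
    congr 1
    ext z
    simp
  have hZ2 : Z.card ≤ 2 ^ n := by
    rw [hZc]
    have h2 : (univ.biUnion W).card = ∑ i, (W i).card :=
      Finset.card_biUnion fun i _ i' _ h => hdisj i i' h
    rw [← h2]
    refine (Finset.card_le_univ _).trans ?_
    rw [Fintype.card_fun, Fintype.card_bool, Fintype.card_fin]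
  -- each class
  have hcls : ∀ i τ, |∑ x ∈ cl S (c i) (W i) τ, (sg (f x) : ℝ)| ≤
      ((cl S (c i) (W i) τ).card : ℝ) / 2 ^ j + 2 ^ n * 2 ^ (2 * j + 2) / 2 ^ (Ex k * β) +
        (((cl S (c i) (W i) τ).filter fun z => ¬ Ty (i, z)).card : ℝ) := by
    intro i τ
    have h2 := one_class hk hβ1 hβ j f hbal (cl S (c i) (W i) τ) (c i) (Jf τ)
      (fun z hz => hsub i z (mem_cl.1 hz).1)
      (fun j z hz z' hz' => hdet i j z (mem_cl.1 hz).1 z' (mem_cl.1 hz').1)
      (cl_closed (hsub i) (hdet i) (hclosed i) S τ) hD1c hD2c hD12 hm1 hm2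
    refine h2.trans ?_
    have h3 : ((cl S (c i) (W i) τ).filter fun u => ¬ Good (c i) (Jf τ) D1 D2 m1 m2 u) ⊆
        (cl S (c i) (W i) τ).filter fun z => ¬ Ty (i, z) := by
      intro z hz
      obtain ⟨hz1, hz2⟩ := Finset.mem_filter.1 hz
      refine Finset.mem_filter.2 ⟨hz1, fun hty => hz2 ?_⟩
      obtain ⟨hz3, hz4⟩ := mem_cl.1 hz1
      have := hgood i z hz3 hty
      rw [hz4] at this
      exact this
    have h4 : (((cl S (c i) (W i) τ).filter fun u => ¬ Good (c i) (Jf τ) D1 D2 m1 m2 u).card : ℝ) ≤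
        (((cl S (c i) (W i) τ).filter fun z => ¬ Ty (i, z)).card : ℝ) := by
      exact_mod_cast Finset.card_le_card h3
    linarith
  -- decomposition into classes
  have hdec : ∀ (i : ι) (φ : (Fin n → Bool) → ℝ), ∑ x ∈ W i, φ x = ∑ τ, ∑ x ∈ cl S (c i) (W i) τ, φ x := by
    intro i φ
    unfold cl
    exact (Finset.sum_fiberwise (W i) (fun z => pat S (c i) z) φ).symm
  have hcard1 : ∀ i, ∑ τ, ((cl S (c i) (W i) τ).card : ℝ) = (W i).card := by
    intro i
    have := hdec i (fun _ => 1)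
    simp only [Finset.sum_const, nsmul_eq_mul, mul_one] at this
    exact this.symm
  have hcard2 : ∀ i, ∑ τ, (((cl S (c i) (W i) τ).filter fun z => ¬ Ty (i, z)).card : ℝ) =
      ((W i).filter fun z => ¬ Ty (i, z)).card := by
    intro i
    have := hdec i (fun z => if ¬ Ty (i, z) then 1 else 0)
    simp only [Finset.sum_boole] at this
    exact this.symm
  have hcard3 : ∑ i, (((W i).filter fun z => ¬ Ty (i, z)).card : ℝ) = Y.card := by
    have : Y.card = ∑ i, ((W i).filter fun z => ¬ Ty (i, z)).card := by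
      rw [hY, hZ, Finset.filter_filter, Finset.card_filter, ← Finset.univ_product_univ, Finset.sum_product]
      refine Finset.sum_congr rfl fun i _ => ?_
      rw [← Finset.card_filter]
      congr 1
      ext z
      simp
    rw [this]
    push_cast
    rfl
  have hcard4 : ∑ i, ((W i).card : ℝ) ≤ 2 ^ n := by
    rw [hZc] at hZ2
    exact_mod_cast hZ2
  have hτ : ((Fintype.card (Fin t → Finset (Fin (Rx k))) : ℕ) : ℝ) = 2 ^ (512 * Qx k * β * Rx k) := by
    rw [Fintype.card_fun, Fintype.card_finset, Fintype.card_fin, Fintype.card_fin, ← pow_mul]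
    push_cast
    congr 1
    rw [ht, hQ]
    ring
  obtain ⟨X, hX⟩ : ∃ X : ℝ, X = 2 ^ n * 2 ^ (2 * j + 2) / 2 ^ (Ex k * β) := ⟨_, rfl⟩
  rw [← hX] at hcls ⊢
  have hYr : (Y.card : ℝ) ≤ 2 ^ (Rx k + 2) * 2 ^ n / 2 ^ (2 * β) := by
    rw [le_div_iff₀ (by positivity)]
    have h2 : Y.card * 2 ^ (2 * β) ≤ 2 ^ (Rx k + 2) * 2 ^ n := by
      calc Y.card * 2 ^ (2 * β) ≤ 2 * (2 ^ Rx k * 2) * Z.card := hYc
        _ ≤ 2 * (2 ^ Rx k * 2) * 2 ^ n := Nat.mul_le_mul_left _ hZ2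
        _ = 2 ^ (Rx k + 2) * 2 ^ n := by ring
    exact_mod_cast h2
  calc |∑ i, ∑ x ∈ W i, (sg (f x) : ℝ)| ≤ ∑ i, |∑ x ∈ W i, (sg (f x) : ℝ)| :=
        Finset.abs_sum_le_sum_abs _ _
    _ ≤ ∑ i, ∑ τ, |∑ x ∈ cl S (c i) (W i) τ, (sg (f x) : ℝ)| := by
        refine Finset.sum_le_sum fun i _ => ?_
        rw [hdec i]
        exact Finset.abs_sum_le_sum_abs _ _
    _ ≤ ∑ i, ∑ τ, (((cl S (c i) (W i) τ).card : ℝ) / 2 ^ j + X +
        (((cl S (c i) (W i) τ).filter fun z => ¬ Ty (i, z)).card : ℝ)) :=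
        Finset.sum_le_sum fun i _ => Finset.sum_le_sum fun τ _ => hcls i τ
    _ = (∑ i, ((W i).card : ℝ)) / 2 ^ j + Fintype.card ι * 2 ^ (512 * Qx k * β * Rx k) * X + Y.card := by
        rw [← hcard3, Finset.sum_div, ← hτ]
        simp only [Finset.sum_add_distrib, ← Finset.sum_div, hcard1, hcard2, Finset.sum_const, nsmul_eq_mul,
          Finset.card_univ]
        ring
    _ ≤ _ := by
        have h3 : (∑ i, ((W i).card : ℝ)) / 2 ^ j ≤ 2 ^ n / 2 ^ j :=
          div_le_div_of_nonneg_right hcard4 (by positivity)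
        linarith

/-- the bound for the number of variables -/
def B2x (k : ℕ) : ℕ := 4 * Bx k * (Rx k + 8) + 2 ^ 33 * Qx k ^ 2

lemma B2x_KB : KB B2x :=
  ((((KB.const 4).mul Bx_KB).mul (Rx_KB.add (KB.const 8))).add ((KB.const (2 ^ 33)).mul (Qx_KB.pow 2))).mono
    fun _ _ => le_of_eq rfl

/-- the family theorem with the additional information `4 n ≤ e ^ 2` -/
def FamilyX' : Prop := ∃ B2 Rf : ℕ → ℕ, KB B2 ∧ KB Rf ∧ (∀ k, 1 ≤ B2 k) ∧ (∀ k, 1 ≤ Rf k) ∧
  ∀ k, 2 ≤ k → ∀ n, B2 k ≤ n → ∃ e q : ℕ, 1 ≤ e ∧ 8 * e ≤ n ∧ 2 * n ≤ q * e ∧ q * e ≤ 2 * n + e ∧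
    q ^ (2 * q) ≤ 2 ^ n ∧ 4 * n ≤ e ^ 2 ∧ ∀ f : (Fin n → Bool) → Bool, Bal f e →
      ∀ (ι : Type) [Fintype ι] (W : ι → Finset (Fin n → Bool))
        (c : ι → Fin (Rf k) → (Fin n → Bool) → Fin n → Option Bool),
        (∀ i, ∀ z ∈ W i, ∀ j, Sub (c i j z) z) →
        (∀ i j, ∀ z ∈ W i, ∀ z' ∈ W i, Compat (c i j z) (c i j z') → c i j z = c i j z') →
        (∀ i u, (∀ j, ∃ w ∈ W i, Sub (c i j w) u) → u ∈ W i) →
        (∀ i, ∀ z ∈ W i, ∀ j, (dom (c i j z)).card * Rf k ≤ k * n) →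
        (∀ i i', i ≠ i' → Disjoint (W i) (W i')) →
        (Fintype.card ι : ℝ) ≤ 2 ^ ((n : ℝ) / B2 k) →
        |∑ i, ∑ x ∈ W i, (sg (f x) : ℝ)| ≤ 2 ^ n / 2 ^ ((n : ℝ) / B2 k)

/-- **The family theorem, from the sampling lemma.** -/
theorem familyX_of' (hS : SampleX) : FamilyX' := by
  classical
  refine ⟨B2x, Rx, B2x_KB, Rx_KB, fun k => ?_, Rx_pos, fun k hk n hn => ?_⟩
  · have := Qx_pos k
    unfold B2x
    have h1 : 0 < 2 ^ 33 * Qx k ^ 2 := by positivity
    omega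
  obtain ⟨β, hβ⟩ : ∃ β, β = n / Bx k := ⟨_, rfl⟩
  obtain ⟨e, he⟩ : ∃ e, e = Ex k * β := ⟨_, rfl⟩
  obtain ⟨Q, hQ⟩ : ∃ Q, Q = Qx k := ⟨_, rfl⟩
  obtain ⟨R, hR⟩ : ∃ R, R = Rx k := ⟨_, rfl⟩
  obtain ⟨B, hB⟩ : ∃ B, B = Bx k := ⟨_, rfl⟩
  have hQpos : 0 < Q := by rw [hQ]; exact Qx_pos k
  have hE6 : 6 ≤ Ex k := Nat.le_add_left _ _
  have hBpos : 0 < B := by
    rw [hB]
    unfold Bx
    rw [← hQ]
    exact Nat.mul_pos (by omega) (by omega)
  have hn' : 4 * B * (R + 8) + 2 ^ 33 * Q ^ 2 ≤ n := by rw [hB, hR, hQ]; exact hn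
  rw [← hB] at hβ
  have hβR : 4 * (R + 8) ≤ β := by
    rw [hβ, Nat.le_div_iff_mul_le hBpos]
    calc 4 * (R + 8) * B = 4 * B * (R + 8) := by ring
      _ ≤ n := by omega
  have hBβ : B * β ≤ n := by rw [hβ]; exact Nat.mul_div_le n B
  have hBβ' : n < B * (β + 1) := by rw [hβ]; exact Nat.lt_mul_div_succ n hBpos
  have hBβ2 : n ≤ 2 * (B * β) := by
    have : B * (β + 1) = B * β + B := by ring
    have h2 : B ≤ B * β := Nat.le_mul_of_pos_right _ (by omega)
    omega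
  have h8192 : 8192 * Q * e ≤ n := by
    rw [he]
    calc 8192 * Q * (Ex k * β) = (8192 * Q * Ex k) * β := by ring
      _ = B * β := by rw [hB, hQ]; rfl
      _ ≤ n := hBβ
  have hne : n ≤ 16384 * Q * e := by
    refine hBβ2.trans (le_of_eq ?_)
    rw [he, hB, hQ]
    unfold Bx
    ring
  have he1 : 1 ≤ e := by rw [he]; exact Nat.mul_pos (by omega) (by omega)
  have hQe : e ≤ Q * e := Nat.le_mul_of_pos_left _ hQpos
  have h8 : 8 * e ≤ n := by
    have : 8192 * Q * e = 8192 * (Q * e) := by ring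
    omega
  obtain ⟨q0, hq0⟩ : ∃ q0, q0 = (2 * n + e - 1) / e := ⟨_, rfl⟩
  have hq0a : 2 * n ≤ q0 * e := by
    have h1 : 2 * n + e - 1 < e * ((2 * n + e - 1) / e + 1) := Nat.lt_mul_div_succ _ (by omega)
    rw [← hq0] at h1
    have h2 : e * (q0 + 1) = q0 * e + e := by ring
    omega
  have hq0b : q0 * e ≤ 2 * n + e - 1 := by rw [hq0]; exact Nat.div_mul_le_self _ _
  have hq0c : q0 ≤ 2 ^ 16 * Q := by
    have h1 : q0 * e ≤ (2 ^ 16 * Q) * e := by
      calc q0 * e ≤ 2 * n + e := by omega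
        _ ≤ 2 * (16384 * Q * e) + Q * e := by omega
        _ = 32769 * (Q * e) := by ring
        _ ≤ 2 ^ 16 * (Q * e) := Nat.mul_le_mul_right _ (by norm_num)
        _ = _ := by ring
    exact Nat.le_of_mul_le_mul_right h1 (by omega)
  have hq0d : q0 ^ (2 * q0) ≤ 2 ^ n := by
    calc q0 ^ (2 * q0) ≤ (2 ^ q0) ^ (2 * q0) := Nat.pow_le_pow_left Nat.lt_two_pow_self.le _
      _ = 2 ^ (2 * q0 ^ 2) := by rw [← pow_mul]; congr 1; ring
      _ ≤ 2 ^ n := by
          refine Nat.pow_le_pow_right (by norm_num) ?_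
          have h1 : q0 ^ 2 ≤ (2 ^ 16 * Q) ^ 2 := Nat.pow_le_pow_left hq0c 2
          have h2 : 2 * (2 ^ 16 * Q) ^ 2 = 2 ^ 33 * Q ^ 2 := by ring
          omega
  have h4n : 4 * n ≤ e ^ 2 := by
    have h1 : 65536 * Q ≤ e := by
      have h2 : 65536 * Q ≤ Ex k := by
        unfold Ex Rx
        rw [← hQ]
        have h3 : 1 ≤ k ^ 2 * Q := Nat.mul_pos (by positivity) hQpos
        have h4 : 512 * Q * (2 ^ 14 * k ^ 2 * Q + 1) = 8388608 * Q * (k ^ 2 * Q) + 512 * Q := by ring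
        have h5 : 8388608 * Q * 1 ≤ 8388608 * Q * (k ^ 2 * Q) := Nat.mul_le_mul_left _ h3
        omega
      calc 65536 * Q ≤ Ex k := h2
        _ ≤ Ex k * β := Nat.le_mul_of_pos_right _ (by omega)
        _ = e := he.symm
    calc 4 * n ≤ 4 * (16384 * Q * e) := Nat.mul_le_mul_left _ hne
      _ = 65536 * Q * e := by ring
      _ ≤ e * e := Nat.mul_le_mul_right _ h1
      _ = e ^ 2 := by ring
  refine ⟨e, q0, he1, h8, hq0a, by omega, hq0d, h4n, fun f hbal ι _ W c hsub hdet hclosed hdom hdisj hcard => ?_⟩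
  have hqn : qx k ≤ n := by
    have h1 : qx k ≤ Qx k := by
      unfold Qx
      exact Nat.le_self_pow (by omega) _
    rw [← hQ] at h1
    have h2 : Q ≤ 2 ^ 33 * Q ^ 2 := by nlinarith
    omega
  have hmain := family_sample hS (k := k) (n := n) (by omega) (β := β) (by omega)
    (by rw [← hQ, ← he]; exact h8192) hqn β f (by rw [← he]; exact hbal) ι W c hsub hdet hclosed hdom hdisj
  refine hmain.trans ?_
  obtain ⟨r, hr⟩ : ∃ r : ℝ, r = (n : ℝ) / ((B2x k : ℕ) : ℝ) := ⟨_, rfl⟩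
  rw [← hr] at hcard ⊢
  have hB2 : (32 : ℝ) * B ≤ ((B2x k : ℕ) : ℝ) := by
    have h1 : 32 * B ≤ B2x k := by
      unfold B2x
      rw [← hB, ← hR]
      nlinarith
    exact_mod_cast h1
  have hBr : (0 : ℝ) < B := by exact_mod_cast hBpos
  have hrβ : r + 2 ≤ β := by
    have h1 : r ≤ (n : ℝ) / (32 * B) := by
      rw [hr]
      exact div_le_div_of_nonneg_left (Nat.cast_nonneg _) (by positivity) hB2
    have h2 : (n : ℝ) / (32 * B) ≤ (β : ℝ) / 16 := by
      rw [div_le_div_iff₀ (by positivity) (by norm_num)]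
      have h3 : (n : ℝ) ≤ 2 * (B * β) := by exact_mod_cast hBβ2
      nlinarith
    have h3 : (32 : ℝ) ≤ β := by
      have : 32 ≤ β := by omega
      exact_mod_cast this
    linarith
  have h4r : 4 * (2 : ℝ) ^ r ≤ 2 ^ β := by
    rw [← Real.rpow_natCast 2 β]
    calc 4 * (2 : ℝ) ^ r = 2 ^ (r + 2) := by
          rw [Real.rpow_add (by norm_num)]
          norm_num
          ring
      _ ≤ 2 ^ (β : ℝ) := Real.rpow_le_rpow_of_exponent_le (by norm_num) hrβ
  have hrpos : (0 : ℝ) < 2 ^ r := Real.rpow_pos_of_pos (by norm_num) _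
  have hcard' : (Fintype.card ι : ℝ) ≤ 2 ^ β := by linarith
  -- the second term
  have ht2 : (Fintype.card ι : ℝ) * 2 ^ (512 * Qx k * β * Rx k) *
      (2 ^ n * 2 ^ (2 * β + 2) / 2 ^ (Ex k * β)) ≤ 2 ^ n / 2 ^ β := by
    have h1 : (2 : ℝ) ^ (Ex k * β) = 2 ^ (512 * Qx k * β * Rx k) * 2 ^ (6 * β) := by
      rw [← pow_add]
      congr 1
      unfold Ex
      ring
    rw [h1]
    have h2 : (Fintype.card ι : ℝ) * 2 ^ (512 * Qx k * β * Rx k) *
        (2 ^ n * 2 ^ (2 * β + 2) / (2 ^ (512 * Qx k * β * Rx k) * 2 ^ (6 * β))) =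
        Fintype.card ι * (2 ^ n * 2 ^ (2 * β + 2) / 2 ^ (6 * β)) := by
      field_simp
    rw [h2]
    have h3 : (Fintype.card ι : ℝ) * (2 ^ n * 2 ^ (2 * β + 2) / 2 ^ (6 * β)) ≤
        2 ^ β * (2 ^ n * 2 ^ (2 * β + 2) / 2 ^ (6 * β)) :=
      mul_le_mul_of_nonneg_right hcard' (by positivity)
    refine h3.trans ?_
    rw [mul_div_assoc', div_le_div_iff₀ (by positivity) (by positivity)]
    have h4 : (2 : ℝ) ^ β * (2 ^ n * 2 ^ (2 * β + 2)) * 2 ^ β = 2 ^ n * 2 ^ (4 * β + 2) := by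
      rw [show 4 * β + 2 = β + (2 * β + 2) + β by ring, pow_add, pow_add]
      ring
    rw [h4]
    refine mul_le_mul_of_nonneg_left ?_ (by positivity)
    exact pow_le_pow_right₀ (by norm_num) (by omega)
  have ht3 : (2 : ℝ) ^ (Rx k + 2) * 2 ^ n / 2 ^ (2 * β) ≤ 2 ^ n / 2 ^ β := by
    rw [div_le_div_iff₀ (by positivity) (by positivity)]
    have h1 : (2 : ℝ) ^ (Rx k + 2) * 2 ^ n * 2 ^ β = 2 ^ n * 2 ^ (Rx k + 2 + β) := by
      rw [pow_add 2 (Rx k + 2) β]
      ring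
    rw [h1]
    refine mul_le_mul_of_nonneg_left ?_ (by positivity)
    refine pow_le_pow_right₀ (by norm_num) ?_
    rw [← hR]
    omega
  have hfin : 3 * ((2 : ℝ) ^ n / 2 ^ β) ≤ 2 ^ n / 2 ^ r := by
    rw [mul_div_assoc', div_le_div_iff₀ (by positivity) hrpos]
    have h1 : (3 * (2 : ℝ) ^ r) ≤ 2 ^ β := by linarith
    have h2 : (0 : ℝ) < 2 ^ n := by positivity
    nlinarith
  linarith

/-- **The family theorem**, with `4 n ≤ e ^ 2`. -/
theorem familyX' : FamilyX' := familyX_of' sampleX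

/-- **The family theorem.** -/
theorem familyX : FamilyX := by
  obtain ⟨B2, Rf, h1, h2, h3, h4, h5⟩ := familyX'
  refine ⟨B2, Rf, h1, h2, h3, h4, fun k hk n hn => ?_⟩
  obtain ⟨e, q, a1, a2, a3, a4, a5, _, a7⟩ := h5 k hk n hn
  exact ⟨e, q, a1, a2, a3, a4, a5, a7⟩

end Pool.Agent.KF
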