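import Pool.Agent.KF.Defs
import Pool.Agent.KE.PTime
import Pool.Agent.Lib.PolyTime.PL

/-! The language of exponentiation with an explicit modulus is decided in polynomial time. -/

namespace Pool.Agent.KF

open Pool.Agent.PolyTime Pool.Agent.KNL Pool.Agent.KE
open Pool.Agent.KE.PTimeAux (pfBits_of_pd getD_map_range toNat_cast mod2_cast)

namespace PXAux

/-! ### Powers of three -/

/-- powers of three, in a form suitable for expressions -/
def isP3 (p : ℕ) : Prop := p ≠ 0 ∧ ∀ d < p + 1, (p % d = 0 ∧ d ≠ 0 ∧ d ≠ 1) → d % 3 = 0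

theorem isP3_iff (p : ℕ) : isP3 p ↔ ∃ i, p = 3 ^ i := by
  unfold isP3
  constructor
  · rintro ⟨h0, h⟩
    refine ⟨_, Nat.eq_prime_pow_of_unique_prime_dvd h0 fun {d} hd hdp => ?_⟩
    have h1 := h d (by have := Nat.le_of_dvd (Nat.pos_of_ne_zero h0) hdp; omega)
      ⟨Nat.mod_eq_zero_of_dvd hdp, hd.ne_zero, hd.ne_one⟩
    exact ((Nat.prime_dvd_prime_iff_eq Nat.prime_three hd).1 (Nat.dvd_of_mod_eq_zero h1)).symm
  · rintro ⟨i, rfl⟩
    refine ⟨by positivity, fun d _ h => ?_⟩
    obtain ⟨j, hj, rfl⟩ := (Nat.dvd_prime_pow Nat.prime_three).mp (Nat.dvd_of_mod_eq_zero h.1)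
    rcases j with _ | j
    · simp at h
    · rw [pow_succ]; omega

instance : DecidablePred isP3 := fun p => by unfold isP3; infer_instance

/-- the largest power of three that is at most `K` -/
def p3 (K : ℕ) : ℕ :=
  ((Finset.range (K + 2)).filter fun q => ∃ p < K + 2, isP3 p ∧ q < p ∧ (p ≤ K ∨ p = 1)).card

theorem p3_eq (K : ℕ) : p3 K = 3 ^ Nat.log 3 K := by
  unfold p3
  have h1 : 3 ^ Nat.log 3 K ≤ K ∨ 3 ^ Nat.log 3 K = 1 := by
    rcases Nat.eq_zero_or_pos K with rfl | hK
    · right; simp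
    · left; exact Nat.pow_log_le_self 3 (by omega)
  have : (Finset.range (K + 2)).filter (fun q => ∃ p < K + 2, isP3 p ∧ q < p ∧ (p ≤ K ∨ p = 1)) =
      Finset.range (3 ^ Nat.log 3 K) := by
    ext q
    rw [Finset.mem_filter, Finset.mem_range, Finset.mem_range]
    constructor
    · rintro ⟨_, p, _, hp, hqp, hpK⟩
      obtain ⟨i, rfl⟩ := (isP3_iff p).1 hp
      refine lt_of_lt_of_le hqp ?_
      rcases hpK with hpK | hpK
      · refine Nat.pow_le_pow_right (by norm_num) ?_
        exact (Nat.le_log_iff_pow_le (by norm_num) (by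
          intro h0
          rw [h0] at hpK
          have : 0 < 3 ^ i := by positivity
          omega)).2 hpK
      · rw [hpK]; exact Nat.one_le_pow _ _ (by norm_num)
    · intro hq
      refine ⟨by omega, 3 ^ Nat.log 3 K, by omega, (isP3_iff _).2 ⟨_, rfl⟩, hq, h1⟩
  rw [this, Finset.card_range]

/-! ### The state -/

/-- length of the word that belongs to a state -/
def N0 (y : List Bool) : ℕ := (Nat.sqrt y.length - 220) / 2

/-- number of digits of the exponent -/
def nd (y : List Bool) : ℕ := 2 * p3 (N0 y / 110)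

/-- length of the registers -/
def MM (y : List Bool) : ℕ := 27 * nd y

/-- the bit in row `r` and column `c` of the table -/
def bt (y : List Bool) (r c : ℕ) : ℕ := (y.getD (r * (2 * N0 y + 220) + c) false).toNat

/-- coefficients of the factor for the digit `j` -/
def selb (y : List Bool) (j s : ℕ) : ℕ :=
  if bt y 0 (2 * MM y + (nd y - j)) = 1 then bt y 0 s else if s = 0 then 1 else 0

/-- new value of the power of `X` -/
def valT (y : List Bool) (r c : ℕ) : ℕ :=
  if r = 1 then (if c = 0 then 1 else 0) else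
    ((if c = 0 then 0 else bt y (r - 1) (c - 1)) +
      bt y (r - 1) (MM y - 1) * (if c = 0 ∨ c = MM y / 2 then 1 else 0)) % 2

/-- new value of the power of `a` -/
def valR (y : List Bool) (r c : ℕ) : ℕ :=
  if r = 3 * MM y + 1 then (if c = 0 then 1 else 0) else
    (∑ p ∈ Finset.range (MM y), ∑ q ∈ Finset.range (MM y), ∑ s ∈ Finset.range (MM y),
      bt y (r - 1) p * bt y (r - 1) q * selb y (r - 1 - 3 * MM y) s * bt y (1 + (p + q + s)) c) % 2

/-- the new value in row `r` and column `c` -/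
def val (y : List Bool) (r c : ℕ) : ℕ :=
  if r = 0 then bt y 0 c else if r ≤ 3 * MM y then valT y r c else valR y r c

/-- the new value of the bit `P` -/
def Q (y : List Bool) (P : ℕ) : Prop :=
  val y (P / (2 * N0 y + 220)) (P % (2 * N0 y + 220)) = 1

/-- the value of coefficient `i` read from the final state -/
def FinG (y : List Bool) (i : ℕ) : Prop :=
  (∑ p ∈ Finset.range (MM y), ∑ q ∈ Finset.range (MM y),
    bt y 0 (MM y + p) * bt y (3 * MM y + 1 + nd y) q * bt y (1 + (p + q)) i) % 2 = 1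

section
variable {α : Type} [Ctx α]

theorem pf_N0 : PF (fun y (_ : α) => N0 y) := ((PF.sqrt PF.len).sub (PF.const 220)).div (PF.const 2)

theorem pd_isP3 {F : List Bool → α → ℕ} (hF : PF F) : PD (fun x a => isP3 (F x a)) := by
  have h : PD (fun (_ : List Bool) (p : Unit × ℕ) => isP3 p.2) := by
    unfold isP3
    refine PF.snd.ne_zero.and (PD.forall_lt (PF.snd.add (PF.const 1))
      (P := fun _ (q : (Unit × ℕ) × ℕ) => (q.1.2 % q.2 = 0 ∧ q.2 ≠ 0 ∧ q.2 ≠ 1) → q.2 % 3 = 0) ?_)
    have hp : PF (fun (_ : List Bool) (q : (Unit × ℕ) × ℕ) => q.1.2) := PF.snd.fst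
    have hd : PF (fun (_ : List Bool) (q : (Unit × ℕ) × ℕ) => q.2) := PF.snd
    refine (((PD.eq (hp.mod hd) (PF.const 0)).and (hd.ne_zero.and
      (PD.eq hd (PF.const 1)).not)).not.or (PD.eq (hd.mod (PF.const 3)) (PF.const 0))).congr
      fun x q => ?_
    tauto
  exact PD.sub1 (α := Unit) (π := fun _ => ())
    ⟨Nat.zero_le _, fun _ _ h => absurd h (Nat.not_lt_zero _)⟩ hF h

theorem pf_p3 {K : List Bool → α → ℕ} (hK : PF K) : PF (fun x a => p3 (K x a)) := by
  classical
  have h2 : PD (fun (x : List Bool) (t : (α × ℕ) × ℕ) =>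
      isP3 t.2 ∧ t.1.2 < t.2 ∧ (t.2 ≤ K x t.1.1 ∨ t.2 = 1)) :=
    (pd_isP3 PF.snd).and ((PD.lt PF.snd.fst PF.snd).and
      ((PD.le PF.snd hK.fst.fst).or (PD.eq PF.snd (PF.const 1))))
  have h1 : PD (fun (x : List Bool) (t : α × ℕ) => ∃ p < K x t.1 + 2,
      isP3 p ∧ t.2 < p ∧ (p ≤ K x t.1 ∨ p = 1)) :=
    PD.exists_lt (B := fun x (t : α × ℕ) => K x t.1 + 2) (hK.fst.add (PF.const 2)) h2
  refine (PF.count (hK.add (PF.const 2)) h1).congr fun x a => ?_
  unfold p3
  congr 2

theorem pf_nd : PF (fun y (_ : α) => nd y) := (PF.const 2).mul (pf_p3 (pf_N0.div (PF.const 110)))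

theorem pf_MM : PF (fun y (_ : α) => MM y) := (PF.const 27).mul pf_nd

theorem pf_bt {R C : List Bool → α → ℕ} (hR : PF R) (hC : PF C) :
    PF (fun y a => bt y (R y a) (C y a)) :=
  PF.inp ((hR.mul (((PF.const 2).mul pf_N0).add (PF.const 220))).add hC)

theorem pf_selb {J S : List Bool → α → ℕ} (hJ : PF J) (hS : PF S) :
    PF (fun y a => selb y (J y a) (S y a)) :=
  PF.ite (PD.eq (pf_bt (PF.const 0) (((PF.const 2).mul pf_MM).add (pf_nd.sub hJ))) (PF.const 1))
    (pf_bt (PF.const 0) hS) (PF.ite (PD.eq hS (PF.const 0)) (PF.const 1) (PF.const 0))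

theorem pf_valT {R C : List Bool → α → ℕ} (hR : PF R) (hC : PF C) :
    PF (fun y a => valT y (R y a) (C y a)) :=
  PF.ite (PD.eq hR (PF.const 1)) (PF.ite (PD.eq hC (PF.const 0)) (PF.const 1) (PF.const 0))
    (((PF.ite (PD.eq hC (PF.const 0)) (PF.const 0)
      (pf_bt (hR.sub (PF.const 1)) (hC.sub (PF.const 1)))).add
      ((pf_bt (hR.sub (PF.const 1)) (pf_MM.sub (PF.const 1))).mul
        (PF.ite ((PD.eq hC (PF.const 0)).or (PD.eq hC (pf_MM.div (PF.const 2)))) (PF.const 1)
          (PF.const 0)))).mod (PF.const 2))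

theorem pf_valR {R C : List Bool → α → ℕ} (hR : PF R) (hC : PF C) :
    PF (fun y a => valR y (R y a) (C y a)) := by
  have h3 : PF (fun (y : List Bool) (t : ((α × ℕ) × ℕ) × ℕ) =>
      bt y (R y t.1.1.1 - 1) t.1.1.2 * bt y (R y t.1.1.1 - 1) t.1.2 *
        selb y (R y t.1.1.1 - 1 - 3 * MM y) t.2 * bt y (1 + (t.1.1.2 + t.1.2 + t.2))
          (C y t.1.1.1)) := by
    have hr := (hR.sub (PF.const 1)).fst.fst.fst
    have hp : PF (fun (_ : List Bool) (t : ((α × ℕ) × ℕ) × ℕ) => t.1.1.2) := PF.snd.fst.fst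
    have hq : PF (fun (_ : List Bool) (t : ((α × ℕ) × ℕ) × ℕ) => t.1.2) := PF.snd.fst
    have hs : PF (fun (_ : List Bool) (t : ((α × ℕ) × ℕ) × ℕ) => t.2) := PF.snd
    exact (((pf_bt hr hp).mul (pf_bt hr hq)).mul
      (pf_selb (hr.sub ((PF.const 3).mul pf_MM)) hs)).mul
      (pf_bt ((PF.const 1).add ((hp.add hq).add hs)) hC.fst.fst.fst)
  have h2 : PF (fun (y : List Bool) (t : (α × ℕ) × ℕ) => ∑ s ∈ Finset.range (MM y),
      bt y (R y t.1.1 - 1) t.1.2 * bt y (R y t.1.1 - 1) t.2 *
        selb y (R y t.1.1 - 1 - 3 * MM y) s * bt y (1 + (t.1.2 + t.2 + s)) (C y t.1.1)) :=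
    PF.sum pf_MM h3
  have h1 : PF (fun (y : List Bool) (t : α × ℕ) => ∑ q ∈ Finset.range (MM y),
      ∑ s ∈ Finset.range (MM y), bt y (R y t.1 - 1) t.2 * bt y (R y t.1 - 1) q *
        selb y (R y t.1 - 1 - 3 * MM y) s * bt y (1 + (t.2 + q + s)) (C y t.1)) :=
    PF.sum pf_MM h2
  exact PF.ite (PD.eq hR (((PF.const 3).mul pf_MM).add (PF.const 1)))
    (PF.ite (PD.eq hC (PF.const 0)) (PF.const 1) (PF.const 0))
    ((PF.sum pf_MM h1).mod (PF.const 2))

theorem pf_val {R C : List Bool → α → ℕ} (hR : PF R) (hC : PF C) :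
    PF (fun y a => val y (R y a) (C y a)) :=
  PF.ite (PD.eq hR (PF.const 0)) (pf_bt (PF.const 0) hC)
    (PF.ite (PD.le hR ((PF.const 3).mul pf_MM)) (pf_valT hR hC) (pf_valR hR hC))

end

theorem pd_Q : PD (fun (y : List Bool) (p : Unit × ℕ) => Q y p.2) :=
  PD.eq (pf_val (PF.snd.div (((PF.const 2).mul pf_N0).add (PF.const 220)))
    (PF.snd.mod (((PF.const 2).mul pf_N0).add (PF.const 220)))) (PF.const 1)

theorem pd_FinG {α : Type} [Ctx α] {I : List Bool → α → ℕ} (hI : PF I) :
    PD (fun (y : List Bool) (a : α) => FinG y (I y a)) := by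
  have h2 : PF (fun (y : List Bool) (t : (α × ℕ) × ℕ) =>
      bt y 0 (MM y + t.1.2) * bt y (3 * MM y + 1 + nd y) t.2 * bt y (1 + (t.1.2 + t.2)) (I y t.1.1)) := by
    have hp : PF (fun (_ : List Bool) (t : (α × ℕ) × ℕ) => t.1.2) := PF.snd.fst
    have hq : PF (fun (_ : List Bool) (t : (α × ℕ) × ℕ) => t.2) := PF.snd
    exact ((pf_bt (PF.const 0) (pf_MM.add hp)).mul
      (pf_bt ((((PF.const 3).mul pf_MM).add (PF.const 1)).add pf_nd) hq)).mul
      (pf_bt ((PF.const 1).add (hp.add hq)) hI.fst.fst)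
  have h1 : PF (fun (y : List Bool) (t : α × ℕ) => ∑ q ∈ Finset.range (MM y),
      bt y 0 (MM y + t.2) * bt y (3 * MM y + 1 + nd y) q * bt y (1 + (t.2 + q)) (I y t.1)) :=
    PF.sum pf_MM h2
  exact PD.eq ((PF.sum pf_MM h1).mod (PF.const 2)) (PF.const 1)

/-! ### The functions -/

open Classical in
/-- the word followed by zeros -/
noncomputable def ini (x : List Bool) : List Bool :=
  (List.range ((2 * x.length + 220) ^ 2)).map (fun i => decide (x.getD i false = true))

open Classical in
/-- one step -/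
noncomputable def stp (y : List Bool) : List Bool :=
  (List.range y.length).map (fun i => decide (Q y i))

theorem pc_ini : PC ini := by
  classical
  exact (pfBits_of_pd (L := fun x => (2 * x.length + 220) ^ 2)
    ((((PF.const 2).mul PF.len).add (PF.const 220)).pow 2)
    (Q := fun x i => x.getD i false = true) (PD.bit PF.snd)).pc

theorem pfBits_stp : PFBits stp := by
  classical
  exact pfBits_of_pd (L := fun x => x.length) PF.len (Q := Q) pd_Q

theorem len_ini (x : List Bool) : (ini x).length = (2 * x.length + 220) ^ 2 := by simp [ini]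

theorem len_stp (x : List Bool) : (stp x).length = x.length := by simp [stp]

theorem N0_of {x y : List Bool} (h : y.length = (2 * x.length + 220) ^ 2) : N0 y = x.length := by
  unfold N0
  rw [h, Nat.sqrt_eq']
  omega

theorem bt_ini (x : List Bool) {c : ℕ} (hc : c < 2 * x.length + 220) :
    bt (ini x) 0 c = (x.getD c false).toNat := by
  classical
  unfold bt ini
  rw [getD_map_range, if_pos]
  · simp
  · have : 2 * x.length + 220 ≤ (2 * x.length + 220) ^ 2 := Nat.le_self_pow (by norm_num) _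
    simp only [zero_mul, zero_add]
    omega

theorem bt_le (y : List Bool) (r c : ℕ) : bt y r c ≤ 1 := Bool.toNat_le _

theorem valT_le (y : List Bool) (r c : ℕ) : valT y r c ≤ 1 := by
  unfold valT
  by_cases h : r = 1
  · rw [if_pos h]
    split_ifs <;> norm_num
  · rw [if_neg h]
    exact Nat.le_of_lt_succ (Nat.mod_lt _ (by norm_num))

theorem valR_le (y : List Bool) (r c : ℕ) : valR y r c ≤ 1 := by
  unfold valR
  by_cases h : r = 3 * MM y + 1
  · rw [if_pos h]
    split_ifs <;> norm_num
  · rw [if_neg h]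
    exact Nat.le_of_lt_succ (Nat.mod_lt _ (by norm_num))

theorem val_le (y : List Bool) (r c : ℕ) : val y r c ≤ 1 := by
  unfold val
  split_ifs
  · exact bt_le _ _ _
  · exact valT_le _ _ _
  · exact valR_le _ _ _

theorem bt_stp {x y : List Bool} (h : y.length = (2 * x.length + 220) ^ 2) {r c : ℕ}
    (hr : r < 2 * x.length + 220) (hc : c < 2 * x.length + 220) : bt (stp y) r c = val y r c := by
  classical
  have hN : N0 y = x.length := N0_of h
  have hN' : N0 (stp y) = x.length := N0_of (by rw [len_stp, h])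
  have hlt : r * (2 * x.length + 220) + c < y.length := by
    rw [h, pow_two]
    calc r * (2 * x.length + 220) + c < r * (2 * x.length + 220) + (2 * x.length + 220) := by omega
      _ = (r + 1) * (2 * x.length + 220) := by ring
      _ ≤ _ := Nat.mul_le_mul_right _ hr
  have e1 : (r * (2 * x.length + 220) + c) / (2 * x.length + 220) = r := by
    rw [mul_comm, Nat.mul_add_div (by omega), Nat.div_eq_of_lt hc, add_zero]
  have e2 : (r * (2 * x.length + 220) + c) % (2 * x.length + 220) = c := by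
    rw [mul_comm, Nat.mul_add_mod, Nat.mod_eq_of_lt hc]
  unfold bt
  rw [hN']
  unfold stp
  rw [getD_map_range, if_pos hlt]
  unfold Q
  rw [hN, e1, e2]
  have := val_le y r c
  by_cases h1 : val y r c = 1
  · simp [h1]
  · have h0 : val y r c = 0 := by omega
    simp [h0]

/-! ### The invariant -/

open Polynomial

theorem nn_bound (N : ℕ) : 2 ≤ nn N ∧ 55 * nn N ≤ N + 110 := by
  unfold nn
  have h1 : 1 ≤ 3 ^ Nat.log 3 (N / 110) := Nat.one_le_pow _ _ (by norm_num)
  refine ⟨by omega, ?_⟩
  by_cases h : N / 110 = 0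
  · rw [h]
    simp
  · have := Nat.pow_log_le_self 3 h
    omega

theorem inv (x : List Bool) {n M : ℕ} (hn : n = nn x.length) (hM : M = 27 * nn x.length) (k : ℕ) :
    (stp^[k] (ini x)).length = (2 * x.length + 220) ^ 2 ∧
    (∀ c < 2 * x.length + 220, bt (stp^[k] (ini x)) 0 c = (x.getD c false).toNat) ∧
    (∀ l < 3 * M, l + 1 ≤ k → ∀ i < M,
      ((bt (stp^[k] (ini x)) (1 + l) i : ℕ) : ZMod 2) =
        ((X ^ l : (ZMod 2)[X]) %ₘ modu M (tg (M / 2))).coeff i) ∧
    (∀ j ≤ n, 3 * M + j + 1 ≤ k → ∀ i < M,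
      ((bt (stp^[k] (ini x)) (3 * M + 1 + j) i : ℕ) : ZMod 2) =
        ((polyOf M (fun i => x.getD i false) ^
          topExp n (fun i => x.getD (2 * M + i) false) j) %ₘ modu M (tg (M / 2))).coeff i) := by
  obtain ⟨hn2, hn55⟩ := nn_bound x.length
  rw [← hn] at hn2 hn55 hM
  induction k with
  | zero =>
    refine ⟨len_ini x, fun c hc => bt_ini x hc, ?_, ?_⟩
    · intro l _ h; omega
    · intro j _ h; omega
  | succ k ih =>
    obtain ⟨h1, h2, h3, h4⟩ := ih
    rw [Function.iterate_succ_apply']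
    obtain ⟨y, hy⟩ : ∃ y, y = stp^[k] (ini x) := ⟨_, rfl⟩
    rw [← hy] at h1 h2 h3 h4 ⊢
    have hN : N0 y = x.length := N0_of h1
    have hnn : nd y = n := by unfold nd; rw [hN, hn, p3_eq]; rfl
    have hMM : MM y = M := by unfold MM; rw [hnn, hM]
    have hM1 : 1 ≤ M := by omega
    refine ⟨by rw [len_stp, h1], ?_, ?_, ?_⟩
    · intro c hc
      rw [bt_stp h1 (by omega) hc]
      unfold val
      rw [if_pos rfl]
      exact h2 c hc
    · intro l hl hlk i hi
      rw [bt_stp h1 (by omega) (by omega)]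
      unfold val
      rw [if_neg (by omega), hMM, if_pos (by omega)]
      unfold valT
      rcases Nat.eq_zero_or_pos l with rfl | hl0
      · rw [if_pos (by omega), row_zero hM1 _ hi]
        split_ifs <;> simp
      · obtain ⟨l', rfl⟩ : ∃ l', l = l' + 1 := ⟨l - 1, by omega⟩
        rw [if_neg (by omega), mod2_cast, row_succ hM1 _ _ hi, hMM]
        have e1 : 1 + (l' + 1) - 1 = 1 + l' := by omega
        rw [e1, Nat.cast_add, Nat.cast_mul, h3 l' (by omega) (by omega) (M - 1) (by omega)]
        congr 1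
        · split_ifs with hi0
          · simp
          · exact h3 l' (by omega) (by omega) (i - 1) (by omega)
        · congr 1
          unfold zb tg
          by_cases hi0 : i = 0 ∨ i = M / 2
          · simp [hi0]
          · simp [hi0]
    · intro j hj hjk i hi
      rw [bt_stp h1 (by omega) (by omega)]
      unfold val
      rw [if_neg (by omega), hMM, if_neg (by omega)]
      unfold valR
      rw [hMM]
      rcases Nat.eq_zero_or_pos j with rfl | hj0
      · rw [if_pos (by omega), pow_zero_row hM1 _ _ _ hi]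
        split_ifs <;> simp
      · obtain ⟨j', rfl⟩ : ∃ j', j = j' + 1 := ⟨j - 1, by omega⟩
        rw [if_neg (by omega), mod2_cast, pow_succ_row hM1 _ _ _ (by omega) hi]
        have e1 : 3 * M + 1 + (j' + 1) - 1 = 3 * M + 1 + j' := by omega
        have e2 : 3 * M + 1 + j' - 3 * M = j' + 1 := by omega
        rw [e1, e2]
        push_cast
        refine Finset.sum_congr rfl fun p hp => Finset.sum_congr rfl fun q hq =>
          Finset.sum_congr rfl fun s hs => ?_
        have hp' := Finset.mem_range.1 hp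
        have hq' := Finset.mem_range.1 hq
        have hs' := Finset.mem_range.1 hs
        rw [h4 j' (by omega) (by omega) p hp', h4 j' (by omega) (by omega) q hq',
          h3 (p + q + s) (by omega) (by omega) i hi]
        congr 2
        unfold selb
        rw [hMM, hnn, h2 _ (by omega), h2 _ (by omega)]
        cases hx1 : x.getD (2 * M + (n - (j' + 1))) false
        · simp [zb]
        · simp [toNat_cast]

theorem mul_row {M : ℕ} (g b : ℕ → Bool) (w : (ZMod 2)[X]) (i : ℕ) :
    ((polyOf M b * w) %ₘ modu M g).coeff i =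
      ∑ p ∈ Finset.range M, ∑ q ∈ Finset.range M, zb (b p) * (w %ₘ modu M g).coeff q *
          ((X ^ (p + q) : (ZMod 2)[X]) %ₘ modu M g).coeff i := by
  simp only [← co_mk]
  set z := AdjoinRoot.mk (modu M g) w with hz
  have h1 : AdjoinRoot.mk (modu M g) (polyOf M b * w) = el M g b * z := by
    rw [map_mul, ← hz]
    rfl
  rw [h1]
  have h2 := el_expand g z
  have h3 : el M g b = ∑ s ∈ Finset.range M, zb (b s) • rt M g ^ s := by
    rw [el_sum]
    refine Finset.sum_congr rfl fun s _ => ?_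
    unfold zb
    split_ifs
    · rw [one_smul]
    · rw [zero_smul]
  have h4 : el M g b * z = ∑ p ∈ Finset.range M, ∑ q ∈ Finset.range M,
      (zb (b p) * co M g q z) • rt M g ^ (p + q) := by
    conv_lhs => rw [h3, h2]
    rw [Finset.sum_mul_sum]
    refine Finset.sum_congr rfl fun p _ => Finset.sum_congr rfl fun q _ => ?_
    rw [smul_mul_smul_comm, pow_add]
  rw [h4]
  simp only [map_sum, map_smul, smul_eq_mul]
  refine Finset.sum_congr rfl fun p _ => Finset.sum_congr rfl fun q _ => ?_
  rw [rt, ← map_pow]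

/-- the final state -/
noncomputable def fst (x : List Bool) : List Bool := stp^[(ini x).length] (ini x)

theorem len_iter (x : List Bool) (k : ℕ) : (stp^[k] (ini x)).length = (2 * x.length + 220) ^ 2 := by
  induction k with
  | zero => exact len_ini x
  | succ k ih => rw [Function.iterate_succ_apply', len_stp, ih]

theorem MM_fst (x : List Bool) : MM (fst x) = 27 * nn x.length := by
  have hN : N0 (fst x) = x.length := N0_of (len_iter x _)
  unfold MM nd
  rw [hN, p3_eq]
  rfl

theorem nd_fst (x : List Bool) : nd (fst x) = nn x.length := by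
  have hN : N0 (fst x) = x.length := N0_of (len_iter x _)
  unfold nd
  rw [hN, p3_eq]
  rfl

theorem finG_iff (x : List Bool) {i : ℕ} (hi : i < 27 * nn x.length) :
    FinG (fst x) i ↔ out x i = 1 := by
  obtain ⟨n, hn⟩ : ∃ n, n = nn x.length := ⟨_, rfl⟩
  obtain ⟨M, hM⟩ : ∃ M, M = 27 * nn x.length := ⟨_, rfl⟩
  obtain ⟨hn2, hn55⟩ := nn_bound x.length
  unfold FinG out coefBit
  rw [MM_fst, nd_fst, ← hM, ← hn]
  rw [← hM] at hi
  rw [← hn] at hn2 hn55
  have hMn : M = 27 * n := by rw [hM, hn]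
  obtain ⟨_, h2, h3, h4⟩ := inv x hn hM (ini x).length
  have hbig : 3 * M + n + 1 ≤ (ini x).length := by
    rw [len_ini]
    have : 2 * x.length + 220 ≤ (2 * x.length + 220) ^ 2 := Nat.le_self_pow (by norm_num) _
    omega
  have h5 := h4 n le_rfl hbig
  rw [topExp_self] at h5
  have e : ∀ m : ℕ, m % 2 = 1 ↔ (m : ZMod 2) = 1 := by
    intro m
    rw [← mod2_cast]
    rcases Nat.mod_two_eq_zero_or_one m with h | h <;> rw [h] <;> simp
  rw [e]
  push_cast
  have h6 := mul_row (M := M) (tg (M / 2)) (fun i => x.getD (M + i) false)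
    (polyOf M (fun i => x.getD i false) ^ numOf n (fun i => x.getD (2 * M + i) false)) i
  unfold modu at h6
  rw [h6]
  unfold fst
  refine iff_of_eq (congrArg (· = 1) ?_)
  refine Finset.sum_congr rfl fun p hp => Finset.sum_congr rfl fun q hq => ?_
  have hp' := Finset.mem_range.1 hp
  have hq' := Finset.mem_range.1 hq
  rw [h2 (M + p) (by omega), h5 q hq', h3 (p + q) (by omega) (by omega) i hi, toNat_cast]
  rfl

end PXAux

open PXAux in
/-- The language is in P. -/
theorem inP_lang : Pool.Agent.KNL.InP Lang := by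
  classical
  refine ⟨fun w => decide (Lang w), fun w => by simp, ?_⟩
  have h1 : PC (fun y => stp^[y.length] y) :=
    pfBits_stp.iterate (fun x => (len_stp x).le) (c := fun y => y.length) PF.len
  have h2 : PC (fun y : List Bool => [decide (FinG y 0)]) := by
    have h3 : PFBits (fun y : List Bool => (List.range 1).map (fun _ => decide (FinG y 0))) :=
      pfBits_of_pd (L := fun _ => 1) (Q := fun y _ => FinG y 0) (PF.const 1)
        (pd_FinG (PF.const 0)).fst
    exact h3.pc.congr fun x => by simp [List.range_succ]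
  have h4 := (h2.comp (h1.comp pc_ini))
  refine (h4.congr fun x => ?_).polyTime
  have hn := (nn_bound x.length).1
  exact congrArg (fun b : Bool => [b]) (decide_eq_decide.mpr (finG_iff x (by omega)))

end Pool.Agent.KF
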