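import Pool.Agent.KF.FamDefs
import Pool.Agent.KE.ParamsS

/-! The correlation of deterministic programs with a stack with functions that are balanced as functions
of a part of the digits. -/

namespace Pool.Agent.KF

open Finset Pool.Agent.SemRO Pool.Agent.KD Pool.Agent.KNL Pool.Agent.KE

section Put

variable {n N : ℕ} {pos : Fin n → Fin N}

lemma put_pos (hpos : Function.Injective pos) (y : Fin N → Bool) (x : Fin n → Bool) (i : Fin n) :
    Function.extend pos x y (pos i) = x i := hpos.extend_apply x y i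

lemma put_off (y : Fin N → Bool) (x : Fin n → Bool) {p : Fin N} (hp : ∀ i : Fin n, p ≠ pos i) :
    Function.extend pos x y p = y p :=
  Function.extend_apply' _ _ _ fun ⟨i, hi⟩ => hp i hi.symm

/-- exchange of the digits at the positions `pos` -/
noncomputable def putEquiv (hpos : Function.Injective pos) :
    (Fin N → Bool) × (Fin n → Bool) ≃ (Fin N → Bool) × (Fin n → Bool) where
  toFun w := (Function.extend pos w.2 w.1, fun i => w.1 (pos i))
  invFun w := (Function.extend pos w.2 w.1, fun i => w.1 (pos i))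
  left_inv := by
    rintro ⟨y, x⟩
    refine Prod.ext ?_ ?_
    · funext p
      by_cases hp : ∃ i, pos i = p
      · obtain ⟨i, rfl⟩ := hp
        simp only
        rw [put_pos hpos]
      · push Not at hp
        simp only
        rw [put_off _ _ fun i h => hp i h.symm, put_off _ _ fun i h => hp i h.symm]
    · funext i
      exact put_pos hpos y x i
  right_inv := by
    rintro ⟨y, x⟩
    refine Prod.ext ?_ ?_
    · funext p
      by_cases hp : ∃ i, pos i = p
      · obtain ⟨i, rfl⟩ := hp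
        simp only
        rw [put_pos hpos]
      · push Not at hp
        simp only
        rw [put_off _ _ fun i h => hp i h.symm, put_off _ _ fun i h => hp i h.symm]
    · funext i
      exact put_pos hpos y x i

theorem sum_put (hpos : Function.Injective pos) (φ : (Fin N → Bool) → ℝ) :
    ∑ y : Fin N → Bool, ∑ x : Fin n → Bool, φ (Function.extend pos x y) = 2 ^ n * ∑ z, φ z := by
  rw [← Fintype.sum_prod_type']
  rw [← (putEquiv hpos).symm.sum_comp]
  have h : ∀ w : (Fin N → Bool) × (Fin n → Bool),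
      φ (Function.extend pos ((putEquiv hpos).symm w).2 ((putEquiv hpos).symm w).1) = φ w.1 := by
    intro w
    have := congrArg Prod.fst ((putEquiv hpos).apply_symm_apply w)
    exact congrArg φ this
  rw [Finset.sum_congr rfl fun w _ => h w, Fintype.sum_prod_type]
  simp only [Finset.sum_const, Finset.card_univ, Fintype.card_fun, Fintype.card_bool, Fintype.card_fin,
    nsmul_eq_mul]
  rw [← Finset.mul_sum]
  push_cast
  ring

end Put

/-- the accepted digits of a program form a set of small bias -/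
theorem acc_smallX (hsplit : SplitStack) {N n k R s : ℕ} {pos : Fin n → Fin N}
    (hpos : Function.Injective pos) (y : Fin N → Bool) (f : (Fin n → Bool) → Bool) {k' B : ℕ} {δ : ℝ}
    (hfam : ∀ (ι : Type) [Fintype ι] (W : ι → Finset (Fin n → Bool))
      (c : ι → Fin R → (Fin n → Bool) → Fin n → Option Bool),
      (∀ i, ∀ z ∈ W i, ∀ j, Sub (c i j z) z) →
      (∀ i j, ∀ z ∈ W i, ∀ z' ∈ W i, Compat (c i j z) (c i j z') → c i j z = c i j z') →
      (∀ i u, (∀ j, ∃ w ∈ W i, Sub (c i j w) u) → u ∈ W i) →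
      (∀ i, ∀ z ∈ W i, ∀ j, (dom (c i j z)).card * R ≤ k' * n) →
      (∀ i i', i ≠ i' → Disjoint (W i) (W i')) →
      (Fintype.card ι : ℝ) ≤ 2 ^ ((n : ℝ) / B) →
      |∑ i, ∑ x ∈ W i, (sg (f x) : ℝ)| ≤ δ)
    (hs1 : 1 ≤ s) (hs2 : k * N < R * s) (hs3 : 2 * s * R ≤ k' * n)
    {V Γ : Type} [Fintype V] (P : SBP V Γ (Fin N)) (hP : Det P)
    (hV : ((((Fintype.card V + 1) ^ 2 * (k * N + 1) * 2 ^ R) ^ R : ℕ) : ℝ) ≤ 2 ^ ((n : ℝ) / B))
    (Acc : Finset (Fin n → Bool))
    (hAcc : ∀ x, x ∈ Acc ↔ ∃ l, P.AccWalk (Function.extend pos x y) l ∧ l.length ≤ k * N) :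
    |∑ x ∈ Acc, (sg (f x) : ℝ)| ≤ δ := by
  classical
  obtain ⟨ι, hι, W, c, hcard, hsub, hdet, hclosed, hdom, hdisj, hall⟩ :=
    hsplit V Γ N P hP s R (k * N) hs1 hs2
  obtain ⟨w, hw⟩ : ∃ w : (Fin n → Bool) → (Fin N → Bool), w = fun x => Function.extend pos x y :=
    ⟨_, rfl⟩
  have hwpos : ∀ x i, w x (pos i) = x i := fun x i => by rw [hw]; exact put_pos hpos y x i
  have hwoff : ∀ x x' p, (∀ i : Fin n, p ≠ pos i) → w x p = w x' p := fun x x' p hp => by
    rw [hw]; exact (put_off y x hp).trans (put_off y x' hp).symm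
  obtain ⟨W', hW'⟩ : ∃ W' : ι → Finset (Fin n → Bool), ∀ i, W' i = univ.filter (fun x => w x ∈ W i) :=
    ⟨_, fun _ => rfl⟩
  have memW' : ∀ i x, x ∈ W' i ↔ w x ∈ W i := fun i x => by
    rw [hW', Finset.mem_filter]
    exact ⟨fun h => h.2, fun h => ⟨Finset.mem_univ _, h⟩⟩
  obtain ⟨c', hc'⟩ : ∃ c' : ι → Fin R → (Fin n → Bool) → Fin n → Option Bool,
      ∀ i j x t, c' i j x t = c i j (w x) (pos t) := ⟨fun i j x t => c i j (w x) (pos t), fun _ _ _ _ => rfl⟩
  have h1 : ∀ i, ∀ z ∈ W' i, ∀ j, Sub (c' i j z) z := by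
    intro i z hz j t v hv
    rw [hc'] at hv
    have := hsub i (w z) ((memW' i z).1 hz) j (pos t) v hv
    rw [hwpos] at this
    exact this
  have h2 : ∀ i j, ∀ z ∈ W' i, ∀ z' ∈ W' i, Compat (c' i j z) (c' i j z') → c' i j z = c' i j z' := by
    intro i j z hz z' hz' hcomp
    have hz1 := (memW' i z).1 hz
    have hz1' := (memW' i z').1 hz'
    have h3 : c i j (w z) = c i j (w z') := by
      refine hdet i j _ hz1 _ hz1' fun p v v' hv hv' => ?_
      by_cases hp : ∃ t, p = pos t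
      · obtain ⟨t, rfl⟩ := hp
        exact hcomp t v v' (by rw [hc']; exact hv) (by rw [hc']; exact hv')
      · push Not at hp
        rw [← hsub i _ hz1 j p v hv, ← hsub i _ hz1' j p v' hv', hwoff z z' p hp]
    funext t
    rw [hc', hc', h3]
  have h3 : ∀ i u, (∀ j, ∃ z ∈ W' i, Sub (c' i j z) u) → u ∈ W' i := by
    intro i u hu
    rw [memW']
    refine hclosed i (w u) fun j => ?_
    obtain ⟨z, hz, hzu⟩ := hu j
    have hz1 := (memW' i z).1 hz
    refine ⟨w z, hz1, fun p v hv => ?_⟩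
    by_cases hp : ∃ t, p = pos t
    · obtain ⟨t, rfl⟩ := hp
      rw [hwpos]
      exact hzu t v (by rw [hc']; exact hv)
    · push Not at hp
      rw [hwoff u z p hp]
      exact hsub i _ hz1 j p v hv
  have h4 : ∀ i, ∀ z ∈ W' i, ∀ j, (dom (c' i j z)).card * R ≤ k' * n := by
    intro i z hz j
    refine le_trans (Nat.mul_le_mul_right _ ?_) hs3
    refine le_trans ?_ (hdom i (w z) ((memW' i z).1 hz) j)
    refine Finset.card_le_card_of_injOn pos ?_ hpos.injOn
    intro t ht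
    have ht1 : c' i j z t ≠ none := mem_dom.1 ht
    rw [hc'] at ht1
    exact mem_dom.2 ht1
  have h5 : ∀ i i', i ≠ i' → Disjoint (W' i) (W' i') := by
    intro i i' hii
    rw [Finset.disjoint_left]
    intro x hx hx'
    exact Finset.disjoint_left.1 (hdisj i i' hii) ((memW' i x).1 hx) ((memW' i' x).1 hx')
  have h6 : (Fintype.card ι : ℝ) ≤ 2 ^ ((n : ℝ) / B) := by
    refine le_trans ?_ hV
    exact_mod_cast hcard
  have h7 := hfam ι W' c' h1 h2 h3 h4 h5 h6
  have h8 : Acc = univ.biUnion W' := by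
    ext x
    rw [hAcc, Finset.mem_biUnion]
    have h9 := hall (w x)
    rw [hw] at h9
    rw [← h9]
    constructor
    · rintro ⟨i, hi⟩
      exact ⟨i, Finset.mem_univ _, (memW' i x).2 (by rw [hw]; exact hi)⟩
    · rintro ⟨i, _, hi⟩
      have := (memW' i x).1 hi
      rw [hw] at this
      exact ⟨i, this⟩
  rw [h8, Finset.sum_biUnion fun i _ i' _ hii => h5 i i' hii]
  exact h7

/-- **The abstract correlation theorem.** -/
theorem corr_of (hsplit : SplitStack) (hF : FamilyX) : ∃ c : ℕ, ∀ k, 2 ≤ k → ∀ N n, k ^ (c * k) ≤ N →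
    N ≤ 400 * n → ∃ e q : ℕ, 1 ≤ e ∧ 8 * e ≤ n ∧ 2 * n ≤ q * e ∧ q * e ≤ 2 * n + e ∧
      q ^ (2 * q) ≤ 2 ^ n ∧ ∀ (pos : Fin n → Fin N), Function.Injective pos →
      ∀ (F : (Fin N → Bool) → Bool) (Bad : Finset (Fin N → Bool)),
      (∀ y, y ∉ Bad → Bal (fun x => F (Function.extend pos x y)) e) →
      ∀ (V Γ : Type) [Fintype V] (P : SBP V Γ (Fin N)), Det P →
      (Fintype.card V : ℝ) ≤ 2 ^ ((N : ℝ) / (k : ℝ) ^ (c * k)) →
      ∀ Acc : Finset (Fin N → Bool), (∀ y, y ∈ Acc ↔ ∃ l, P.AccWalk y l ∧ l.length ≤ k * N) →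
        |∑ y ∈ Acc, (sg (F y) : ℝ)| ≤ Bad.card + 2 ^ N / 2 ^ (8 * (N : ℝ) / (k : ℝ) ^ (c * k)) := by
  classical
  obtain ⟨B2, Rf, hB2, hRf, hB21, hRf1, hfam⟩ := hF
  obtain ⟨B, hB⟩ : ∃ B : ℕ → ℕ, ∀ k, B k = B2 (1000 * k) + 1 := ⟨_, fun _ => rfl⟩
  obtain ⟨R, hR⟩ : ∃ R : ℕ → ℕ, ∀ k, R k = Rf (1000 * k) := ⟨_, fun _ => rfl⟩
  obtain ⟨Y, hY⟩ : ∃ Y : ℕ → ℕ, ∀ k, Y k = 6000 * (R k * R k) * B k + k + 1 := ⟨_, fun _ => rfl⟩
  obtain ⟨Z, hZ⟩ : ∃ Z : ℕ → ℕ, ∀ k, Z k = (Y k + 1) ^ 2 + 400 * (2 * B k * (2 * R k)) + 3200 * B k :=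
    ⟨_, fun _ => rfl⟩
  have hkK : KB (fun k => k) := ⟨1, fun k hk => by
    calc k = k ^ 1 := (pow_one k).symm
      _ ≤ k ^ (1 * k) := Nat.pow_le_pow_right (by omega) (by omega)⟩
  have hBK : KB B := ((KB_scale hB2 1000 (by norm_num)).add (KB.const 1)).mono fun k _ => by rw [hB]
  have hRK : KB R := (KB_scale hRf 1000 (by norm_num)).mono fun k _ => by rw [hR]
  have hYK : KB Y := (((((KB.const 6000).mul (hRK.mul hRK)).mul hBK).add hkK).add (KB.const 1)).mono fun k _ => by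
    rw [hY]
  have hZK : KB Z := ((((hYK.add (KB.const 1)).pow 2).add
    ((KB.const 400).mul (((KB.const 2).mul hBK).mul ((KB.const 2).mul hRK)))).add
    ((KB.const 3200).mul hBK)).mono fun k _ => by rw [hZ]
  obtain ⟨c, hc⟩ := hZK
  refine ⟨c, fun k hk N n hN hN400 => ?_⟩
  have hZN : Z k ≤ N := (hc k hk).trans hN
  have hBk := hB k
  have hRk := hR k
  have hYk := hY k
  have hZk := hZ k
  have hR1 : 1 ≤ R k := by rw [hR]; exact hRf1 _
  have hB1 : 1 ≤ B k := by rw [hB]; omega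
  have hRR : R k ≤ R k * R k := Nat.le_mul_of_pos_right _ hR1
  have hRB : R k * R k ≤ R k * R k * B k := Nat.le_mul_of_pos_right _ hB1
  have hBR : B k ≤ R k * R k * B k := Nat.le_mul_of_pos_left _ (Nat.mul_pos hR1 hR1)
  have hYR : 6000 * (R k * R k * B k) ≤ Y k := by
    rw [hYk]
    have : 6000 * (R k * R k) * B k = 6000 * (R k * R k * B k) := by ring
    omega
  have hYk1 : k ≤ Y k := by omega
  have hY2 : (Y k + 1) ^ 2 ≤ N := by omega
  have hYN : 400 * (Y k + 1) ≤ N := by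
    refine le_trans ?_ hY2
    have : 500 ≤ Y k := by
      have : 1 ≤ R k * R k * B k := Nat.mul_pos (Nat.mul_pos hR1 hR1) hB1
      omega
    nlinarith
  have hYn : Y k ≤ n := by omega
  have hB2n : B2 (1000 * k) ≤ n := by omega
  obtain ⟨e, q, he1, he8, hq1, hq2, hq3, hf⟩ := hfam (1000 * k) (by omega) n hB2n
  rw [← hRk] at hf
  refine ⟨e, q, he1, he8, hq1, hq2, hq3, fun pos hpos F Bad hBad V Γ _ P hP hV Acc hAcc => ?_⟩
  -- the size of the segments
  obtain ⟨s, hs⟩ : ∃ s, s = k * N / R k + 1 := ⟨_, rfl⟩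
  have hs1 : 1 ≤ s := by rw [hs]; exact Nat.le_add_left _ _
  have hs2 : k * N < R k * s := by rw [hs]; exact Nat.lt_mul_div_succ _ hR1
  have hs3 : 2 * s * R k ≤ 1000 * k * n := by
    have h1 : k * N / R k * R k ≤ k * N := Nat.div_mul_le_self _ _
    have h2 : s * R k = k * N / R k * R k + R k := by rw [hs]; ring
    have h3 : k * N ≤ k * (400 * n) := Nat.mul_le_mul_left _ hN400
    have h5 : R k ≤ k * n := by
      calc R k ≤ n := by omega
        _ ≤ k * n := Nat.le_mul_of_pos_left _ (by omega)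
    nlinarith
  -- the size of the family
  obtain ⟨r, hr⟩ : ∃ r, r = Nat.sqrt N := ⟨_, rfl⟩
  have hr1 : r * r ≤ N := by rw [hr]; exact Nat.sqrt_le N
  have hr2 : N < (r + 1) * (r + 1) := by rw [hr]; exact Nat.lt_succ_sqrt N
  have hrY : Y k ≤ r := by
    rw [hr, Nat.le_sqrt]
    nlinarith
  have hs4 : k * N + 1 ≤ 2 ^ (4 * r) := by
    have h2 : r + 1 ≤ 2 ^ r := Nat.lt_two_pow_self
    have h3 : N + 1 ≤ 2 ^ r * 2 ^ r := by
      calc N + 1 ≤ (r + 1) * (r + 1) := hr2
        _ ≤ 2 ^ r * 2 ^ r := Nat.mul_le_mul h2 h2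
    have h4 : k * N + k ≤ 2 ^ r * (2 ^ r * 2 ^ r) := by
      calc k * N + k = k * (N + 1) := by ring
        _ ≤ 2 ^ r * (2 ^ r * 2 ^ r) := Nat.mul_le_mul (by omega) h3
    calc k * N + 1 ≤ k * N + k := by omega
      _ ≤ 2 ^ r * (2 ^ r * 2 ^ r) := h4
      _ = 2 ^ (3 * r) := by rw [← pow_add, ← pow_add]; ring_nf
      _ ≤ 2 ^ (4 * r) := Nat.pow_le_pow_right (by norm_num) (by omega)
  have hB2R : ((B2 (1000 * k) : ℕ) : ℝ) ≤ B k := by
    rw [hBk]; push_cast; linarith
  have hnB : (0 : ℝ) < B k := by exact_mod_cast hB1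
  have hnn : (0 : ℝ) ≤ n := Nat.cast_nonneg _
  have hkc : (0 : ℝ) < (k : ℝ) ^ (c * k) := by
    have : (0 : ℝ) < k := by exact_mod_cast (by omega : 0 < k)
    positivity
  have hVV : ((((Fintype.card V + 1) ^ 2 * (k * N + 1) * 2 ^ R k) ^ R k : ℕ) : ℝ) ≤
      2 ^ ((n : ℝ) / ((B k : ℕ) : ℝ)) := by
    have hV1 : 1 ≤ Fintype.card V := Fintype.card_pos_iff.2 ⟨P.src⟩
    have h1 : ((Fintype.card V : ℝ)) ^ (2 * R k) ≤ 2 ^ ((n : ℝ) / (2 * B k)) := by
      have h2 : ((Fintype.card V : ℝ)) ^ (2 * R k) ≤ (2 ^ ((N : ℝ) / (k : ℝ) ^ (c * k))) ^ (2 * R k) :=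
        pow_le_pow_left₀ (Nat.cast_nonneg _) hV _
      refine h2.trans ?_
      rw [← Real.rpow_natCast, ← Real.rpow_mul (by norm_num)]
      refine Real.rpow_le_rpow_of_exponent_le (by norm_num) ?_
      rw [div_mul_eq_mul_div, div_le_div_iff₀ hkc (by positivity)]
      have h3 : N * (2 * R k) * (2 * B k) ≤ n * k ^ (c * k) := by
        calc N * (2 * R k) * (2 * B k) = N * (2 * B k * (2 * R k)) := by ring
          _ ≤ 400 * n * (2 * B k * (2 * R k)) := Nat.mul_le_mul_right _ hN400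
          _ = n * (400 * (2 * B k * (2 * R k))) := by ring
          _ ≤ n * Z k := Nat.mul_le_mul_left _ (by omega)
          _ ≤ n * k ^ (c * k) := Nat.mul_le_mul_left _ (hc k hk)
      have h4 : ((N * (2 * R k) * (2 * B k) : ℕ) : ℝ) ≤ ((n * k ^ (c * k) : ℕ) : ℝ) := by exact_mod_cast h3
      push_cast at h4 ⊢
      exact h4
    have h5 : (2 : ℝ) ^ ((2 * R k + 4 * r * R k + R k * R k : ℕ) : ℝ) ≤ 2 ^ ((n : ℝ) / (2 * B k)) := by
      refine Real.rpow_le_rpow_of_exponent_le (by norm_num) ?_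
      rw [le_div_iff₀ (by positivity)]
      have hr0 : 1 ≤ r := by omega
      have h8 : (2 * R k + 4 * r * R k + R k * R k) * (2 * B k) ≤ n := by
        have h10 : 2 * R k + 4 * r * R k + R k * R k ≤ 7 * (r * (R k * R k)) := by
          have a1 : R k * R k ≤ r * (R k * R k) := Nat.le_mul_of_pos_left _ hr0
          have a2 : r * R k ≤ r * (R k * R k) := Nat.mul_le_mul_left _ hRR
          have a3 : 4 * r * R k = 4 * (r * R k) := by ring
          omega
        have h9 : 400 * ((2 * R k + 4 * r * R k + R k * R k) * (2 * B k)) ≤ 400 * n := by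
          calc 400 * ((2 * R k + 4 * r * R k + R k * R k) * (2 * B k))
              ≤ 400 * (7 * (r * (R k * R k)) * (2 * B k)) :=
                Nat.mul_le_mul_left _ (Nat.mul_le_mul_right _ h10)
            _ = r * (5600 * (R k * R k * B k)) := by ring
            _ ≤ r * Y k := Nat.mul_le_mul_left _ (by omega)
            _ ≤ r * r := Nat.mul_le_mul_left _ hrY
            _ ≤ N := hr1
            _ ≤ 400 * n := hN400
        omega
      exact_mod_cast h8
    have h6 : ((Fintype.card V + 1) ^ 2 * (k * N + 1) * 2 ^ R k) ^ R k ≤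
        Fintype.card V ^ (2 * R k) * 2 ^ (2 * R k + 4 * r * R k + R k * R k) := by
      calc ((Fintype.card V + 1) ^ 2 * (k * N + 1) * 2 ^ R k) ^ R k
          ≤ ((2 * Fintype.card V) ^ 2 * 2 ^ (4 * r) * 2 ^ R k) ^ R k := by
            refine Nat.pow_le_pow_left (Nat.mul_le_mul_right _ (Nat.mul_le_mul ?_ hs4)) _
            exact Nat.pow_le_pow_left (by omega) _
        _ = Fintype.card V ^ (2 * R k) * 2 ^ (2 * R k + 4 * r * R k + R k * R k) := by
            rw [pow_add, pow_add, pow_mul (Fintype.card V) 2 (R k), pow_mul 2 2 (R k),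
              pow_mul 2 (4 * r) (R k), pow_mul 2 (R k) (R k), ← mul_pow, ← mul_pow, ← mul_pow]
            congr 1
            rw [mul_pow]
            ring
    have h7 : ((((Fintype.card V + 1) ^ 2 * (k * N + 1) * 2 ^ R k) ^ R k : ℕ) : ℝ) ≤
        (Fintype.card V : ℝ) ^ (2 * R k) * (2 : ℝ) ^ ((2 * R k + 4 * r * R k + R k * R k : ℕ) : ℝ) := by
      rw [Real.rpow_natCast]
      exact_mod_cast h6
    have h10 : ((n : ℝ) / ((B k : ℕ) : ℝ)) = (n : ℝ) / (2 * B k) + (n : ℝ) / (2 * B k) := by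
      field_simp
      ring
    refine h7.trans ?_
    rw [h10, Real.rpow_add (by norm_num)]
    exact mul_le_mul h1 h5 (by positivity) (by positivity)
  have h0 : 0 < B2 (1000 * k) := hB21 _
  have h0R : (0 : ℝ) < B2 (1000 * k) := by exact_mod_cast h0
  obtain ⟨φ, hφ⟩ : ∃ φ : (Fin N → Bool) → ℝ, φ = fun z => if z ∈ Acc then (sg (F z) : ℝ) else 0 :=
    ⟨_, rfl⟩
  obtain ⟨δ, hδ⟩ : ∃ δ : ℝ, δ = 2 ^ n / 2 ^ ((n : ℝ) / B2 (1000 * k)) := ⟨_, rfl⟩
  have hsg : ∀ b : Bool, |(sg b : ℝ)| = 1 := by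
    intro b; cases b <;> simp [sg]
  have hin : ∀ y, |∑ x : Fin n → Bool, φ (Function.extend pos x y)| ≤
      (if y ∈ Bad then (2 : ℝ) ^ n else 0) + δ := by
    intro y
    have hδ0 : 0 ≤ δ := by rw [hδ]; positivity
    by_cases hy : y ∈ Bad
    · rw [if_pos hy]
      calc |∑ x : Fin n → Bool, φ (Function.extend pos x y)|
          ≤ ∑ x : Fin n → Bool, |φ (Function.extend pos x y)| := Finset.abs_sum_le_sum_abs _ _
        _ ≤ ∑ _x : Fin n → Bool, (1 : ℝ) := by
            refine Finset.sum_le_sum fun x _ => ?_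
            rw [hφ]
            simp only
            split_ifs
            · rw [hsg]
            · simp
        _ = 2 ^ n := by
            rw [Finset.sum_const, Finset.card_univ, Fintype.card_fun, Fintype.card_bool, Fintype.card_fin]
            simp
        _ ≤ 2 ^ n + δ := by linarith
    · rw [if_neg hy, zero_add]
      obtain ⟨A, hA⟩ : ∃ A : Finset (Fin n → Bool),
          A = univ.filter (fun x => Function.extend pos x y ∈ Acc) := ⟨_, rfl⟩
      have hAm : ∀ x, x ∈ A ↔ ∃ l, P.AccWalk (Function.extend pos x y) l ∧ l.length ≤ k * N := by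
        intro x
        rw [hA, Finset.mem_filter, ← hAcc]
        exact ⟨fun h => h.2, fun h => ⟨Finset.mem_univ _, h⟩⟩
      have h1 : ∑ x : Fin n → Bool, φ (Function.extend pos x y) =
          ∑ x ∈ A, (sg (F (Function.extend pos x y)) : ℝ) := by
        rw [hA, Finset.sum_filter, hφ]
      rw [h1]
      refine acc_smallX hsplit hpos y (fun x => F (Function.extend pos x y)) (k := k) (s := s) (R := R k)
        (k' := 1000 * k) (B := B k) ?_ hs1 hs2 hs3 P hP hVV A hAm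
      intro ι _ W c' g1 g2 g3 g4 g5 g6
      rw [hδ]
      refine hf _ (hBad y hy) ι W c' g1 g2 g3 g4 g5 (g6.trans ?_)
      refine Real.rpow_le_rpow_of_exponent_le (by norm_num) ?_
      exact div_le_div_of_nonneg_left hnn h0R hB2R
  have hsum := sum_put (N := N) (n := n) hpos φ
  have e1 : ∑ z, φ z = ∑ y ∈ Acc, (sg (F y) : ℝ) := by
    rw [hφ, ← Finset.sum_filter]
    congr 1
    ext z
    simp
  have h2n : (0 : ℝ) < 2 ^ n := by positivity
  have hbig : 2 ^ n * |∑ y ∈ Acc, (sg (F y) : ℝ)| ≤ 2 ^ n * Bad.card + 2 ^ N * δ := by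
    have a1 : 2 ^ n * |∑ y ∈ Acc, (sg (F y) : ℝ)| = |∑ y : Fin N → Bool, ∑ x : Fin n → Bool,
        φ (Function.extend pos x y)| := by
      rw [hsum, e1, abs_mul, abs_of_pos h2n]
    rw [a1]
    calc |∑ y : Fin N → Bool, ∑ x : Fin n → Bool, φ (Function.extend pos x y)|
        ≤ ∑ y : Fin N → Bool, |∑ x : Fin n → Bool, φ (Function.extend pos x y)| :=
          Finset.abs_sum_le_sum_abs _ _
      _ ≤ ∑ y : Fin N → Bool, ((if y ∈ Bad then (2 : ℝ) ^ n else 0) + δ) :=
          Finset.sum_le_sum fun y _ => hin y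
      _ = 2 ^ n * Bad.card + 2 ^ N * δ := by
          rw [Finset.sum_add_distrib, ← Finset.sum_filter, Finset.sum_const, Finset.sum_const,
            Finset.card_univ, Fintype.card_fun, Fintype.card_bool, Fintype.card_fin]
          have : (univ.filter fun y => y ∈ Bad) = Bad := by ext; simp
          rw [this]
          simp only [nsmul_eq_mul]
          push_cast
          ring
  have hδ2 : (2 : ℝ) ^ N * δ ≤ 2 ^ n * (2 ^ N / 2 ^ (8 * (N : ℝ) / (k : ℝ) ^ (c * k))) := by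
    rw [hδ]
    have a2 : 8 * (N : ℝ) / (k : ℝ) ^ (c * k) ≤ (n : ℝ) / B2 (1000 * k) := by
      rw [div_le_div_iff₀ hkc h0R]
      have h3 : 8 * N * B2 (1000 * k) ≤ n * k ^ (c * k) := by
        calc 8 * N * B2 (1000 * k) ≤ 8 * (400 * n) * B k :=
              Nat.mul_le_mul (Nat.mul_le_mul_left _ hN400) (by omega)
          _ = n * (3200 * B k) := by ring
          _ ≤ n * Z k := Nat.mul_le_mul_left _ (by omega)
          _ ≤ n * k ^ (c * k) := Nat.mul_le_mul_left _ (hc k hk)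
      exact_mod_cast h3
    have a3 : (2 : ℝ) ^ (8 * (N : ℝ) / (k : ℝ) ^ (c * k)) ≤ 2 ^ ((n : ℝ) / B2 (1000 * k)) :=
      Real.rpow_le_rpow_of_exponent_le (by norm_num) a2
    have a4 : (0 : ℝ) < 2 ^ (8 * (N : ℝ) / (k : ℝ) ^ (c * k)) := by positivity
    calc (2 : ℝ) ^ N * (2 ^ n / 2 ^ ((n : ℝ) / B2 (1000 * k)))
        ≤ 2 ^ N * (2 ^ n / 2 ^ (8 * (N : ℝ) / (k : ℝ) ^ (c * k))) := by
          gcongr
      _ = 2 ^ n * (2 ^ N / 2 ^ (8 * (N : ℝ) / (k : ℝ) ^ (c * k))) := by ring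
  have hfin : 2 ^ n * |∑ y ∈ Acc, (sg (F y) : ℝ)| ≤
      2 ^ n * (Bad.card + 2 ^ N / 2 ^ (8 * (N : ℝ) / (k : ℝ) ^ (c * k))) := by
    rw [mul_add]
    linarith
  exact le_of_mul_le_mul_left hfin h2n

end Pool.Agent.KF
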