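import Pool.Agent.KE.Defs

/-! The language of the average-case theorem: bits of exponentiation in the field with `2 ^ M` elements,
`M = 2 * 3 ^ i`, given by the explicit polynomial `X ^ M + X ^ (M / 2) + 1`. -/

namespace Pool.Agent.KF

open Pool.Agent.KE

/-- the coefficients of `X ^ m + 1` -/
def tg (m : ℕ) (i : ℕ) : Bool := decide (i = 0 ∨ i = m)

/-- the number of digits of the exponent for words of length `N` -/
def nn (N : ℕ) : ℕ := 2 * 3 ^ Nat.log 3 (N / 110)

/-- coefficient `i` of `b * a ^ x` modulo `X ^ M + g` over the field with two elements -/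
noncomputable def coefBit (M n : ℕ) (g a b x : ℕ → Bool) (i : ℕ) : ZMod 2 :=
  ((polyOf M b * polyOf M a ^ numOf n x) %ₘ (Polynomial.X ^ M + polyOf M g)).coeff i

/-- A word `y` of length `N` consists, with `n = 2 * 3 ^ j`, `3 ^ j` the largest power of three with
`110 * 3 ^ j ≤ N`, and `M = 27 n`, of the coefficients of `a` and `b` (`M` bits each), the `n` binary
digits of `x` and unused bits; `out y i` is the coefficient `i` of `b * a ^ x` modulo
`X ^ M + X ^ (M / 2) + 1`. -/
noncomputable def out (y : List Bool) (i : ℕ) : ZMod 2 :=
  coefBit (27 * nn y.length) (nn y.length) (tg (27 * nn y.length / 2))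
    (fun i => y.getD i false)
    (fun i => y.getD (27 * nn y.length + i) false)
    (fun i => y.getD (2 * (27 * nn y.length) + i) false) i

/-- **The language**: the constant coefficient of `b * a ^ x` is one. -/
def Lang (y : List Bool) : Prop := out y 0 = 1

end Pool.Agent.KF
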