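import Pool.Agent.KE.Defs
import Pool.Agent.KD.Growth

/-! The interface of the family theorem with exponentially small bias, and of the sampling lemma. -/

namespace Pool.Agent.KF

open Finset Pool.Agent.SemRO Pool.Agent.KD Pool.Agent.KE

/-- number of sample points in `K` -/
def cnt {n t : ℕ} (S : Fin t → Fin n) (K : Finset (Fin n)) : ℕ := (univ.filter fun a => S a ∈ K).card

/-- the sampling lemma: one sample decides, for all but few points `z` and for all `i`, whether the set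
`K i z` is small or large -/
def SampleX : Prop := ∀ {α κ : Type} [Fintype κ] {n t b : ℕ}, 0 < n → ∀ (Z : Finset α)
    (K : κ → α → Finset (Fin n)) (lo hi β : κ → ℕ), (∀ i, b ≤ β i) →
    (∀ i, lo i * t ≤ β i * n) → (∀ i, 16 * β i * n ≤ hi i * t) →
    ∃ S : Fin t → Fin n, ∀ Y ⊆ Z,
      (∀ z ∈ Y, ¬ ∀ i, ((K i z).card ≤ lo i → cnt S (K i z) < 4 * β i) ∧
        (hi i ≤ (K i z).card → 4 * β i ≤ cnt S (K i z))) →
      Y.card * 2 ^ (2 * b) ≤ 2 * Fintype.card κ * Z.card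

/-- the family theorem: families of skeletons have exponentially small bias for every balanced function -/
def FamilyX : Prop := ∃ B2 Rf : ℕ → ℕ, KB B2 ∧ KB Rf ∧ (∀ k, 1 ≤ B2 k) ∧ (∀ k, 1 ≤ Rf k) ∧
  ∀ k, 2 ≤ k → ∀ n, B2 k ≤ n → ∃ e q : ℕ, 1 ≤ e ∧ 8 * e ≤ n ∧ 2 * n ≤ q * e ∧ q * e ≤ 2 * n + e ∧
    q ^ (2 * q) ≤ 2 ^ n ∧ ∀ f : (Fin n → Bool) → Bool, Bal f e →
      ∀ (ι : Type) [Fintype ι] (W : ι → Finset (Fin n → Bool))
        (c : ι → Fin (Rf k) → (Fin n → Bool) → Fin n → Option Bool),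
        (∀ i, ∀ z ∈ W i, ∀ j, Sub (c i j z) z) →
        (∀ i j, ∀ z ∈ W i, ∀ z' ∈ W i, Compat (c i j z) (c i j z') → c i j z = c i j z') →
        (∀ i u, (∀ j, ∃ w ∈ W i, Sub (c i j w) u) → u ∈ W i) →
        (∀ i, ∀ z ∈ W i, ∀ j, (dom (c i j z)).card * Rf k ≤ k * n) →
        (∀ i i', i ≠ i' → Disjoint (W i) (W i')) →
        (Fintype.card ι : ℝ) ≤ 2 ^ ((n : ℝ) / B2 k) →
        |∑ i, ∑ x ∈ W i, (sg (f x) : ℝ)| ≤ 2 ^ n / 2 ^ ((n : ℝ) / B2 k)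

end Pool.Agent.KF
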