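import Pool.Agent.KF.Words
import Pool.Agent.KE.Final

/-! Agreement of programs with the language for uniformly random words; the bound for the time. -/

namespace Pool.Agent.KF

open Finset Pool.Agent.SemRO Pool.Agent.KD Pool.Agent.KNL Pool.Agent.KE

/-- the program that accepts everything -/
def allP (N : ℕ) : SBP Unit Empty (Fin N) where
  src := ()
  acc := ()
  free _ _ := False
  test _ _ _ _ := False
  push _ _ _ := False
  pop _ _ _ := False

lemma det_allP (N : ℕ) : Det (allP N) where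
  free_free h := h.elim
  free_test h := h.elim
  free_push h := h.elim
  free_pop h := h.elim
  test_test h := h.elim
  test_push h := h.elim
  test_pop h := h.elim
  push_push h := h.elim
  push_pop h := h.elim
  pop_pop h := h.elim
  acc_free h := h
  acc_test h := h
  acc_push h := h
  acc_pop h := h

lemma pre_self {N : ℕ} (z : Fin N → Bool) : pre le_rfl z = z := rfl

/-- **Agreement with the language.** -/
theorem agreeX (hsplit : SplitStack) (hF : FamilyX) : ∃ c : ℕ, ∀ k, 2 ≤ k → ∀ N, k ^ (c * k) ≤ N →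
    ∀ (V Γ : Type) [Fintype V] (P : SBP V Γ (Fin N)), Det P →
    (Fintype.card V : ℝ) ≤ 2 ^ ((N : ℝ) / (k : ℝ) ^ (c * k)) →
    ∀ G : Finset (Fin N → Bool), (∀ y, y ∈ G ↔ ((∃ l, P.AccWalk y l ∧ l.length ≤ k * N) ↔
      Lang (List.ofFn y))) →
      |(G.card : ℝ) - 2 ^ N / 2| ≤ 2 ^ N / 2 ^ (4 * (N : ℝ) / (k : ℝ) ^ (c * k)) := by
  classical
  obtain ⟨c, hc⟩ := corrJ hsplit hF
  refine ⟨c + 1, fun k hk N hkN V Γ _ P hP hV G hG => ?_⟩
  have hk0 : 0 < k := by omega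
  have hck : k ^ (c * k) ≤ k ^ ((c + 1) * k) :=
    Nat.pow_le_pow_right hk0 (Nat.mul_le_mul_right _ (by omega))
  have hkr : (2 : ℝ) ≤ k := by exact_mod_cast hk
  have hkr0 : (0 : ℝ) < k := by linarith
  have hcR : (0 : ℝ) < (k : ℝ) ^ (c * k) := by positivity
  have hcR' : (0 : ℝ) < (k : ℝ) ^ ((c + 1) * k) := by positivity
  have hckR : (k : ℝ) ^ (c * k) ≤ (k : ℝ) ^ ((c + 1) * k) := by exact_mod_cast hck
  have hN0 : (0 : ℝ) ≤ N := Nat.cast_nonneg _
  have h4 : 4 ≤ k ^ ((c + 1) * k) := by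
    calc 4 = 2 ^ 2 := by norm_num
      _ ≤ k ^ 2 := Nat.pow_le_pow_left hk 2
      _ ≤ k ^ ((c + 1) * k) := Nat.pow_le_pow_right hk0 (by nlinarith)
  obtain ⟨t, ht⟩ : ∃ t : ℝ, t = (N : ℝ) / (k : ℝ) ^ ((c + 1) * k) := ⟨_, rfl⟩
  have ht1 : 1 ≤ t := by
    rw [ht, le_div_iff₀ hcR', one_mul]
    exact_mod_cast hkN
  have ht2 : t ≤ (N : ℝ) / (k : ℝ) ^ (c * k) := by
    rw [ht]; exact div_le_div_of_nonneg_left hN0 hcR hckR
  have hJM : ∀ j ∈ ({0} : Finset ℕ), j < 27 * nn N := by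
    intro j hj
    rw [Finset.mem_singleton] at hj
    have := nn_pos N
    omega
  obtain ⟨F, hFd⟩ : ∃ F : (Fin N → Bool) → Bool, F = fun z =>
      xor (decide (∑ j ∈ ({0} : Finset ℕ), out (List.ofFn (pre le_rfl z)) j = 1)) false := ⟨_, rfl⟩
  have hFL : ∀ z, F z = true ↔ Lang (List.ofFn z) := by
    intro z
    rw [hFd]
    simp only [Finset.sum_singleton, Bool.xor_false, decide_eq_true_eq]
    rfl
  have hgen : ∀ (V Γ : Type) [Fintype V] (P : SBP V Γ (Fin N)), Det P →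
      (Fintype.card V : ℝ) ≤ 2 ^ ((N : ℝ) / (k : ℝ) ^ (c * k)) →
      ∀ Acc : Finset (Fin N → Bool), (∀ y, y ∈ Acc ↔ ∃ l, P.AccWalk y l ∧ l.length ≤ k * N) →
      |∑ z ∈ Acc, (sg (F z) : ℝ)| ≤ 2 ^ N / 2 ^ (6 * t) := by
    intro V Γ _ P hP hV Acc hAcc
    have h := hc k hk N N le_rfl (hck.trans hkN) (by omega) {0} (Finset.singleton_nonempty 0) hJM
      (fun _ => false) (fun _ _ _ => rfl) V Γ P hP hV Acc hAcc
    rw [hFd]
    refine h.trans ?_
    refine div_le_div_of_nonneg_left (by positivity) (by positivity) ?_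
    refine Real.rpow_le_rpow_of_exponent_le (by norm_num) ?_
    rw [mul_div_assoc]
    linarith
  obtain ⟨Acc, hAcc⟩ : ∃ Acc : Finset (Fin N → Bool),
      Acc = univ.filter (fun y => ∃ l, P.AccWalk y l ∧ l.length ≤ k * N) := ⟨_, rfl⟩
  have hAccm : ∀ y, y ∈ Acc ↔ ∃ l, P.AccWalk y l ∧ l.length ≤ k * N := by
    intro y
    rw [hAcc, Finset.mem_filter]
    exact ⟨fun h => h.2, fun h => ⟨Finset.mem_univ _, h⟩⟩
  have b1 := hgen V Γ P hP (hV.trans (Real.rpow_le_rpow_of_exponent_le (by norm_num) (by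
    rw [← ht]; exact ht2))) Acc hAccm
  have b2 := hgen Unit Empty (allP N) (det_allP N) (by
    rw [Fintype.card_unit, Nat.cast_one]
    exact Real.one_le_rpow (by norm_num) (by linarith)) univ (fun y => by
    refine ⟨fun _ => ⟨[], SBP.Walk.nil _ _, by simp⟩, fun _ => Finset.mem_univ _⟩)
  have hpt : ∀ y : Fin N → Bool, (if y ∈ G then (2 : ℝ) else 0) =
      1 + (sg (F y) : ℝ) - 2 * (if y ∈ Acc then (sg (F y) : ℝ) else 0) := by
    intro y
    have h1 := hG y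
    rw [← hAccm y, ← hFL y] at h1
    by_cases hA : y ∈ Acc
    · rw [if_pos hA]
      cases hFy : F y
      · rw [if_neg (by rw [h1, hFy]; simp [hA])]
        norm_num [sg]
      · rw [if_pos (by rw [h1, hFy]; simp [hA])]
        norm_num [sg]
    · rw [if_neg hA]
      cases hFy : F y
      · rw [if_pos (by rw [h1, hFy]; simp [hA])]
        norm_num [sg]
      · rw [if_neg (by rw [h1, hFy]; simp [hA])]
        norm_num [sg]
  have e1 : ∑ y : Fin N → Bool, (if y ∈ G then (2 : ℝ) else 0) = 2 * G.card := by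
    rw [← Finset.sum_filter, Finset.sum_const, nsmul_eq_mul]
    have : (univ.filter fun x => x ∈ G) = G := by ext; simp
    rw [this]
    ring
  have e2 : ∑ x : Fin N → Bool, (1 + (sg (F x) : ℝ) - 2 * (if x ∈ Acc then (sg (F x) : ℝ) else 0)) =
      2 ^ N + ∑ x : Fin N → Bool, (sg (F x) : ℝ) - 2 * ∑ x ∈ Acc, (sg (F x) : ℝ) := by
    rw [Finset.sum_sub_distrib, Finset.sum_add_distrib, ← Finset.mul_sum, ← Finset.sum_filter]
    have h5 : (univ.filter fun x => x ∈ Acc) = Acc := by ext; simp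
    have h6 : ∑ _x : Fin N → Bool, (1 : ℝ) = 2 ^ N := by
      rw [Finset.sum_const, Finset.card_univ, Fintype.card_fun, Fintype.card_bool, Fintype.card_fin]
      simp
    rw [h5, h6]
  have e3 : 2 * (G.card : ℝ) = 2 ^ N + ∑ x : Fin N → Bool, (sg (F x) : ℝ) -
      2 * ∑ x ∈ Acc, (sg (F x) : ℝ) := by
    rw [← e1, ← e2]
    exact Finset.sum_congr rfl fun y _ => hpt y
  have e4 : 4 * (N : ℝ) / (k : ℝ) ^ ((c + 1) * k) = 4 * t := by rw [ht]; ring
  rw [e4]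
  have h7 : (2 : ℝ) ^ N / 2 ^ (6 * t) * 2 ≤ 2 ^ N / 2 ^ (4 * t) := by
    rw [div_mul_eq_mul_div, div_le_div_iff₀ (by positivity) (by positivity)]
    have h1 : (2 : ℝ) * 2 ^ (4 * t) ≤ 2 ^ (6 * t) := by
      calc (2 : ℝ) * 2 ^ (4 * t) = 2 ^ (1 : ℝ) * 2 ^ (4 * t) := by rw [Real.rpow_one]
        _ = 2 ^ (1 + 4 * t) := by rw [← Real.rpow_add (by norm_num)]
        _ ≤ 2 ^ (6 * t) := Real.rpow_le_rpow_of_exponent_le (by norm_num) (by linarith)
    calc (2 : ℝ) ^ N * 2 * 2 ^ (4 * t) = 2 ^ N * (2 * 2 ^ (4 * t)) := by ring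
      _ ≤ 2 ^ N * 2 ^ (6 * t) := mul_le_mul_of_nonneg_left h1 (by positivity)
  have h8 : (0 : ℝ) ≤ 2 ^ N / 2 ^ (6 * t) := by positivity
  obtain ⟨c1, c2⟩ := abs_le.1 b1
  obtain ⟨d1, d2⟩ := abs_le.1 b2
  rw [abs_le]
  constructor <;> linarith

/-- **The bound for the time, uniform distribution.** -/
theorem timeX (hsplit : SplitStack) (hF : FamilyX) : ∃ c x0 : ℝ, 0 < c ∧ 1 ≤ x0 ∧ ∀ N S : ℕ, 1 ≤ S →
    x0 * S ≤ N → ∀ (V Γ : Type) [Fintype V] (P : SBP V Γ (Fin N)), Det P →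
    Fintype.card V ≤ 2 ^ S → ∀ (T : ℕ) (G : Finset (Fin N → Bool)), (∀ y ∈ G, Correct Lang P T y) →
      (1 / 2 + 1 / 2 ^ S) * 2 ^ N < (G.card : ℝ) →
      c * N * Real.log (N / S) / Real.log (Real.log (N / S)) ≤ T := by
  classical
  obtain ⟨c, hc⟩ := agreeX hsplit hF
  obtain ⟨d, x0, hd, hx0, hk⟩ := choose_k c
  refine ⟨d, x0, hd, hx0, ?_⟩
  intro N S hS hxN V Γ _ P hP hV T G hG hGc
  by_contra hcon
  push Not at hcon
  obtain ⟨k, hk2, hkN, hkS, hTk⟩ := hk N S hS hxN T hcon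
  have hV' : (Fintype.card V : ℝ) ≤ (2 : ℝ) ^ ((N : ℝ) / (k : ℝ) ^ (c * k)) := by
    have h1 : (Fintype.card V : ℝ) ≤ (2 : ℝ) ^ (S : ℝ) := by
      rw [Real.rpow_natCast]; exact_mod_cast hV
    exact h1.trans (Real.rpow_le_rpow_of_exponent_le (by norm_num) hkS)
  obtain ⟨G', hG'⟩ : ∃ G' : Finset (Fin N → Bool), G' = univ.filter (fun y =>
      ((∃ l, P.AccWalk y l ∧ l.length ≤ k * N) ↔ Lang (List.ofFn y))) := ⟨_, rfl⟩
  have h1 := hc k hk2 N hkN V Γ P hP hV' G' (fun y => by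
    rw [hG', Finset.mem_filter]
    exact ⟨fun h => h.2, fun h => ⟨Finset.mem_univ _, h⟩⟩)
  have h2 : G ⊆ G' := by
    intro y hy
    rw [hG', Finset.mem_filter]
    refine ⟨Finset.mem_univ _, ?_⟩
    obtain ⟨hy1, hy2⟩ := hG y hy
    rw [← hy1]
    constructor
    · rintro ⟨l, hl, _⟩
      exact ⟨l, hl⟩
    · rintro ⟨l, hl⟩
      exact ⟨l, hl, (hy2 l hl).trans hTk⟩
  have h3 : (G.card : ℝ) ≤ G'.card := by exact_mod_cast Finset.card_le_card h2
  have h4 : (2 : ℝ) ^ N / 2 ^ (4 * (N : ℝ) / (k : ℝ) ^ (c * k)) ≤ 1 / 2 ^ S * 2 ^ N := by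
    rw [div_mul_eq_mul_div, one_mul]
    refine div_le_div_of_nonneg_left (by positivity) (by positivity) ?_
    rw [← Real.rpow_natCast]
    refine Real.rpow_le_rpow_of_exponent_le (by norm_num) ?_
    rw [mul_div_assoc]
    have hS0 : (0 : ℝ) ≤ S := Nat.cast_nonneg _
    linarith
  have h5 := (abs_le.1 h1).2
  linarith

end Pool.Agent.KF
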