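import Pool.Agent.KE.Alg

/-! The exponential sum over `a`, `b` for a sum of coefficients of `b * a ^ x` and a set of exponents. -/

namespace Pool.Agent.KF

open Finset Polynomial Pool.Agent.KQL Pool.Agent.KE

/-- coefficient `i` of `b * a ^ x` modulo `X ^ M + g`, in coordinates -/
lemma coef_eq (M n : ℕ) (g a b x : ℕ → Bool) (i : ℕ) :
    ((polyOf M b * polyOf M a ^ numOf n x) %ₘ (X ^ M + polyOf M g)).coeff i =
      co M g i (el M g b * el M g a ^ numOf n x) := by
  unfold el
  rw [← map_pow, ← map_mul, co_mk]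
  rfl

/-- **The exponential sum.** -/
theorem hG_J (n : ℕ) {M : ℕ} {g : ℕ → Bool} (hirr : Irreducible (modu M g)) {J : Finset ℕ}
    (hJ : J.Nonempty) (hJM : ∀ j ∈ J, j < M) (D : Finset (Fin n → Bool)) (hD : D.Nonempty) :
    |∑ a : Fin M → Bool, ∑ b : Fin M → Bool, ∏ x ∈ D,
      sg (decide (∑ j ∈ J, ((polyOf M (xb b) * polyOf M (xb a) ^ numOf n (xb x)) %ₘ
        (X ^ M + polyOf M g)).coeff j = 1))| ≤ 2 ^ (n + M) := by
  classical
  have : Fact (Irreducible (modu M g)) := ⟨hirr⟩
  have hfin : Finite (AdjoinRoot (modu M g)) := Finite.of_surjective _ (el_bij M g).2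
  letI : Fintype (AdjoinRoot (modu M g)) := Fintype.ofFinite _
  obtain ⟨lam, hlam⟩ : ∃ lam : AdjoinRoot (modu M g) →ₗ[ZMod 2] ZMod 2, lam = ∑ j ∈ J, co M g j := ⟨_, rfl⟩
  have hlam' : ∀ z, ∑ j ∈ J, co M g j z = lam z := by
    intro z
    rw [hlam, LinearMap.sum_apply]
  obtain ⟨E, hE⟩ : ∃ E : (Fin M → Bool) → AdjoinRoot (modu M g), ∀ c, E c = el M g (xb c) := ⟨_, fun _ => rfl⟩
  have hEb : Function.Bijective E := by
    have : E = fun c : Fin M → Bool => el M g (ex0 c) := by
      funext c
      exact hE c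
    rw [this]
    exact el_bij M g
  obtain ⟨Z, hZ⟩ : ∃ Z : (Fin M → Bool) → AdjoinRoot (modu M g),
    ∀ a, Z a = ∑ x ∈ D, E a ^ numOf n (xb x) := ⟨_, fun _ => rfl⟩
  have h1 : ∀ a b : Fin M → Bool, ∏ x ∈ D,
      sg (decide (∑ j ∈ J, ((polyOf M (xb b) * polyOf M (xb a) ^ numOf n (xb x)) %ₘ
        (X ^ M + polyOf M g)).coeff j = 1)) = chi (lam (E b * Z a)) := by
    intro a b
    simp_rw [sg_chi]
    rw [chi_sum]
    congr 1
    simp_rw [coef_eq, hlam']
    rw [hZ, Finset.mul_sum, map_sum]
    refine Finset.sum_congr rfl fun x _ => ?_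
    rw [hE, hE]
  -- the sum over all elements
  have hall : ∑ c : Fin M → Bool, chi (lam (E c)) = 0 := by
    have e1 : ∀ c : Fin M → Bool, lam (E c) = ∑ i ∈ range M, if xb c i = true then (if i ∈ J then 1 else 0) else 0 := by
      intro c
      rw [← hlam', hE]
      have e2 : ∀ j ∈ J, co M g j (el M g (xb c)) = if xb c j = true then 1 else 0 :=
        fun j hj => co_el g _ (hJM j hj)
      rw [Finset.sum_congr rfl e2]
      have e3 : ∀ i ∈ range M, (if xb c i = true then (if i ∈ J then (1 : ZMod 2) else 0) else 0) =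
          if i ∈ J then (if xb c i = true then 1 else 0) else 0 := by
        intro i _
        by_cases h : xb c i = true
        · rw [if_pos h, if_pos h]
        · rw [if_neg h, if_neg h, ite_self]
      rw [Finset.sum_congr rfl e3, Finset.sum_ite_mem,
        Finset.inter_eq_right.2 fun j hj => mem_range.2 (hJM j hj)]
    simp_rw [e1]
    rw [sum_chi M fun i => if i ∈ J then 1 else 0]
    obtain ⟨j, hj⟩ := hJ
    refine Finset.prod_eq_zero (Finset.mem_univ (⟨j, hJM j hj⟩ : Fin M)) ?_
    simp only [hj, if_true, chi_one]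
    norm_num
  have hallK : ∑ w : AdjoinRoot (modu M g), chi (lam w) = 0 := by
    rw [← hall]
    exact (hEb.sum_comp fun w => chi (lam w)).symm
  have h2 : ∀ a : Fin M → Bool, (∑ b : Fin M → Bool, chi (lam (E b * Z a))) =
      if Z a = 0 then 2 ^ M else 0 := by
    intro a
    split_ifs with h0
    · simp only [h0, mul_zero, map_zero, chi_zero]
      rw [Finset.sum_const, Finset.card_univ, Fintype.card_fun, Fintype.card_bool, Fintype.card_fin]
      simp
    · rw [hEb.sum_comp fun w => chi (lam (w * Z a))]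
      rw [← hallK]
      exact Fintype.sum_equiv (Equiv.mulRight₀ (Z a) h0) _ _ fun w => rfl
  simp_rw [h1, h2]
  -- the roots
  set p : (AdjoinRoot (modu M g))[X] := ∑ x ∈ D, X ^ numOf n (xb x) with hp
  obtain ⟨x0, hx0⟩ := hD
  have hcoeff : p.coeff (numOf n (xb x0)) = 1 := by
    rw [hp, finsetSum_coeff]
    rw [Finset.sum_eq_single x0]
    · rw [coeff_X_pow, if_pos rfl]
    · intro x _ hne
      rw [coeff_X_pow, if_neg]
      intro h
      exact hne (numOf_xb_inj h.symm)
    · intro h
      exact absurd hx0 h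
  have hp0 : p ≠ 0 := by
    intro h
    rw [h, coeff_zero] at hcoeff
    exact zero_ne_one hcoeff
  have hdeg : p.natDegree ≤ 2 ^ n := by
    refine natDegree_sum_le_of_forall_le _ _ fun x _ => ?_
    rw [natDegree_X_pow]
    exact (numOf_lt n _).le
  have hroots : (univ.filter fun a : Fin M → Bool => Z a = 0).card ≤ 2 ^ n := by
    have h3 : (univ.filter fun a : Fin M → Bool => Z a = 0).card ≤ p.roots.toFinset.card := by
      refine Finset.card_le_card_of_injOn E (fun a ha => ?_) fun a _ a' _ h => ?_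
      · have h4 : Z a = 0 := (Finset.mem_filter.1 (Finset.mem_coe.1 ha)).2
        rw [Finset.mem_coe, Multiset.mem_toFinset, mem_roots hp0, IsRoot.def, hp, eval_finsetSum]
        simp only [eval_pow, eval_X]
        rw [← hZ]
        exact h4
      · exact hEb.1 h
    exact h3.trans ((Multiset.toFinset_card_le _).trans ((card_roots' p).trans hdeg))
  have h5 : (∑ a : Fin M → Bool, if Z a = 0 then (2:ℤ) ^ M else 0) =
      (univ.filter fun a : Fin M → Bool => Z a = 0).card * 2 ^ M := by
    rw [← Finset.sum_filter, Finset.sum_const, nsmul_eq_mul]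
  rw [h5, abs_of_nonneg (by positivity), pow_add]
  have h6 : ((univ.filter fun a : Fin M → Bool => Z a = 0).card : ℤ) ≤ 2 ^ n := by exact_mod_cast hroots
  exact mul_le_mul_of_nonneg_right h6 (by positivity)

end Pool.Agent.KF
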