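import Pool.Agent.KE.SeedF

/-! Most seeds are good: the number of parameters of a family for which balance fails. -/

namespace Pool.Agent.KF

open Finset Pool.Agent.SemRO Pool.Agent.KD Pool.Agent.KE Pool.Agent.KQL

/-- **union bound with a count** -/
theorem bad_bal {n : ℕ} {Ω : Type*} [Fintype Ω] (F : Ω → (Fin n → Bool) → Bool) {B q e : ℕ}
    (H : ∀ D : Finset (Fin n → Bool), D.Nonempty → |∑ w, ∏ x ∈ D, sg (F w x)| ≤ (B : ℤ))
    (hq : 1 ≤ q) {Bad : Finset Ω} (hBad : ∀ w ∈ Bad, ¬ Bal (F w) e) :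
    Bad.card * 2 ^ (12 * e * q) ≤
      2 ^ (3 * n) * (Fintype.card Ω * (q ^ (2 * q) * 2 ^ (8 * e * q)) + 2 ^ (16 * e * q) * B) := by
  classical
  set Q : Finset (Finset (Fin n) × (Fin n → Bool) × (Fin n → Bool)) :=
    univ.filter fun t => t.1.card = 8 * e ∧ ∃ i, i ∉ t.1 ∧ t.2.1 i ≠ t.2.2 i with hQ
  have hcov : Bad ⊆ Q.biUnion fun t =>
      univ.filter fun w => ¬ |ssum (F w) t.1 t.2.1 t.2.2| ≤ 2 ^ (6 * e) := by
    intro w hw
    have h := hBad w hw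
    unfold Bal at h
    push Not at h
    obtain ⟨T, hT, y, y', hy, hb⟩ := h
    refine Finset.mem_biUnion.2 ⟨(T, y, y'), Finset.mem_filter.2 ⟨Finset.mem_univ _, hT, hy⟩,
      Finset.mem_filter.2 ⟨Finset.mem_univ _, ?_⟩⟩
    rw [not_le]
    exact hb
  have h1 : Bad.card ≤ ∑ t ∈ Q,
      (univ.filter fun w => ¬ |ssum (F w) t.1 t.2.1 t.2.2| ≤ 2 ^ (6 * e)).card :=
    (Finset.card_le_card hcov).trans Finset.card_biUnion_le
  have h2 : Bad.card * 2 ^ (12 * e * q) ≤ ∑ t ∈ Q,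
      (Fintype.card Ω * (q ^ (2 * q) * 2 ^ (8 * e * q)) + 2 ^ (16 * e * q) * B) := by
    refine (Nat.mul_le_mul_right _ h1).trans ?_
    rw [Finset.sum_mul]
    refine Finset.sum_le_sum fun t ht => ?_
    obtain ⟨_, ht1, ht2⟩ := Finset.mem_filter.1 ht
    have := bad_card F H ht2 (q := q) (e := e) hq
    rw [ht1] at this
    refine this.trans (le_of_eq ?_)
    rw [← pow_mul, ← pow_mul]
    congr 3
    · ring
  have h3 : Q.card ≤ 2 ^ (3 * n) := by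
    refine (Finset.card_filter_le _ _).trans (le_of_eq ?_)
    rw [Finset.card_univ, Fintype.card_prod, Fintype.card_prod, Fintype.card_finset, Fintype.card_fun,
      Fintype.card_bool, Fintype.card_fin, ← pow_add, ← pow_add]
    congr 1
    ring
  rw [Finset.sum_const, smul_eq_mul] at h2
  exact h2.trans (Nat.mul_le_mul_right _ h3)

theorem seedX_num {n e q A : ℕ} (hn : 1 ≤ n) (h8 : 8 * e ≤ n) (hq1 : 2 * n ≤ q * e)
    (hq2 : q * e ≤ 2 * n + e) (hq : q ^ (2 * q) ≤ 2 ^ n)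
    (h : A * 2 ^ (12 * e * q) ≤
      2 ^ (3 * n) * (2 ^ (54 * n) * (q ^ (2 * q) * 2 ^ (8 * e * q)) + 2 ^ (16 * e * q) * 2 ^ (28 * n))) :
    A * 2 ^ n ≤ 2 ^ (54 * n) := by
  set t := q * e with ht
  have e1 : 8 * e * q = 8 * t := by rw [ht]; ring
  have e2 : 16 * e * q = 16 * t := by rw [ht]; ring
  have e3 : 12 * e * q = 12 * t := by rw [ht]; ring
  rw [e1, e2, e3] at h
  have h1 : 2 * (2 ^ n * (2 ^ (3 * n) * (2 ^ (54 * n) * (q ^ (2 * q) * 2 ^ (8 * t))))) ≤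
      2 ^ (54 * n) * 2 ^ (12 * t) := by
    calc 2 * (2 ^ n * (2 ^ (3 * n) * (2 ^ (54 * n) * (q ^ (2 * q) * 2 ^ (8 * t)))))
        ≤ 2 * (2 ^ n * (2 ^ (3 * n) * (2 ^ (54 * n) * (2 ^ n * 2 ^ (8 * t))))) := by gcongr
      _ = 2 ^ (1 + (n + (3 * n + (54 * n + (n + 8 * t))))) := by
          rw [pow_add 2 1, pow_add 2 n, pow_add 2 (3 * n), pow_add 2 (54 * n), pow_add 2 n, pow_one]
      _ ≤ 2 ^ (54 * n + 12 * t) := Nat.pow_le_pow_right (by norm_num) (by omega)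
      _ = 2 ^ (54 * n) * 2 ^ (12 * t) := pow_add _ _ _
  have h2 : 2 * (2 ^ n * (2 ^ (3 * n) * (2 ^ (16 * t) * 2 ^ (28 * n)))) ≤
      2 ^ (54 * n) * 2 ^ (12 * t) := by
    calc 2 * (2 ^ n * (2 ^ (3 * n) * (2 ^ (16 * t) * 2 ^ (28 * n))))
        = 2 ^ (1 + (n + (3 * n + (16 * t + 28 * n)))) := by
          rw [pow_add 2 1, pow_add 2 n, pow_add 2 (3 * n), pow_add 2 (16 * t), pow_one]
      _ ≤ 2 ^ (54 * n + 12 * t) := Nat.pow_le_pow_right (by norm_num) (by omega)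
      _ = 2 ^ (54 * n) * 2 ^ (12 * t) := pow_add _ _ _
  have h4 : (A * 2 ^ n) * 2 ^ (12 * t) ≤ 2 ^ (54 * n) * 2 ^ (12 * t) := by
    calc (A * 2 ^ n) * 2 ^ (12 * t) = 2 ^ n * (A * 2 ^ (12 * t)) := by ring
      _ ≤ 2 ^ n * (2 ^ (3 * n) * (2 ^ (54 * n) * (q ^ (2 * q) * 2 ^ (8 * t)) +
            2 ^ (16 * t) * 2 ^ (28 * n))) := Nat.mul_le_mul_left _ h
      _ = 2 ^ n * (2 ^ (3 * n) * (2 ^ (54 * n) * (q ^ (2 * q) * 2 ^ (8 * t)))) +
            2 ^ n * (2 ^ (3 * n) * (2 ^ (16 * t) * 2 ^ (28 * n))) := by ring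
      _ ≤ 2 ^ (54 * n) * 2 ^ (12 * t) := by omega
  exact Nat.le_of_mul_le_mul_right h4 (by positivity)

/-- **Most seeds are good.** -/
theorem seeds_of {n e q M : ℕ} (f : (Fin M → Bool) → (Fin M → Bool) → (Fin n → Bool) → Bool)
    (hM : M = 27 * n)
    (hG : ∀ D : Finset (Fin n → Bool), D.Nonempty →
      |∑ a : Fin M → Bool, ∑ b : Fin M → Bool, ∏ x ∈ D, sg (f a b x)| ≤ 2 ^ (n + M))
    (he : 1 ≤ e) (h8 : 8 * e ≤ n) (hq1 : 2 * n ≤ q * e) (hq2 : q * e ≤ 2 * n + e)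
    (hq : q ^ (2 * q) ≤ 2 ^ n) {Bad : Finset ((Fin M → Bool) × (Fin M → Bool))}
    (hBad : ∀ w ∈ Bad, ¬ Bal (fun x => f w.1 w.2 x) e) :
    Bad.card * 2 ^ n ≤ 2 ^ (2 * M) := by
  have hq0 : 1 ≤ q := by
    rcases Nat.eq_zero_or_pos q with h | h
    · subst h
      omega
    · exact h
  have hc : Fintype.card ((Fin M → Bool) × (Fin M → Bool)) = 2 ^ (54 * n) := by
    rw [Fintype.card_prod, Fintype.card_fun, Fintype.card_bool, Fintype.card_fin, ← pow_add]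
    congr 1
    omega
  have h := bad_bal (n := n) (Ω := (Fin M → Bool) × (Fin M → Bool)) (fun w x => f w.1 w.2 x)
    (B := 2 ^ (28 * n)) (q := q) (e := e) (fun D hD => by
      rw [Fintype.sum_prod_type]
      refine (hG D hD).trans (le_of_eq ?_)
      push_cast
      congr 1
      omega) hq0 hBad
  rw [hc] at h
  have h2 := seedX_num (by omega) h8 hq1 hq2 hq h
  rwa [show 2 * M = 54 * n by omega]

open Classical in
/-- the same with the set of all bad seeds -/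
theorem seeds_filter {n e q M : ℕ} (f : (Fin M → Bool) → (Fin M → Bool) → (Fin n → Bool) → Bool)
    (hM : M = 27 * n)
    (hG : ∀ D : Finset (Fin n → Bool), D.Nonempty →
      |∑ a : Fin M → Bool, ∑ b : Fin M → Bool, ∏ x ∈ D, sg (f a b x)| ≤ 2 ^ (n + M))
    (he : 1 ≤ e) (h8 : 8 * e ≤ n) (hq1 : 2 * n ≤ q * e) (hq2 : q * e ≤ 2 * n + e)
    (hq : q ^ (2 * q) ≤ 2 ^ n) :
    (univ.filter fun w : (Fin M → Bool) × (Fin M → Bool) =>
      ¬ Bal (fun x => f w.1 w.2 x) e).card * 2 ^ n ≤ 2 ^ (2 * M) :=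
  seeds_of f hM hG he h8 hq1 hq2 hq fun _ hw => (Finset.mem_filter.1 hw).2

end Pool.Agent.KF
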