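import Pool.Agent.KF.Defs

/-! The polynomials `X ^ (2 * 3 ^ i) + X ^ (3 ^ i) + 1` are irreducible over the field with two elements. -/

namespace Pool.Agent.KF

open Polynomial Pool.Agent.KE

/-- the polynomial `X ^ M + X ^ (M / 2) + 1` over the field with two elements -/
noncomputable def tri (M : ℕ) : (ZMod 2)[X] := X ^ M + X ^ (M / 2) + 1

lemma polyOf_tg {M m : ℕ} (h0 : 0 < m) (hm : m < M) : polyOf M (tg m) = X ^ m + 1 := by
  unfold polyOf tg
  have h1 : ∀ i ∈ Finset.range M, (if decide (i = 0 ∨ i = m) = true then (X : (ZMod 2)[X]) ^ i else 0) =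
      (if i = m then X ^ i else 0) + (if i = 0 then X ^ i else 0) := by
    intro i _
    by_cases h : i = 0
    · subst h
      rw [if_neg (show ¬ (0 = m) by omega)]
      simp
    · by_cases h' : i = m
      · subst h'
        simp [h]
      · simp [h, h']
  rw [Finset.sum_congr rfl h1, Finset.sum_add_distrib, Finset.sum_ite_eq', Finset.sum_ite_eq',
    if_pos (Finset.mem_range.2 hm), if_pos (Finset.mem_range.2 (by omega)), pow_zero]

lemma tri_eq {M : ℕ} (hM : 2 ≤ M) : tri M = X ^ M + polyOf M (tg (M / 2)) := by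
  rw [polyOf_tg (by omega) (by omega), tri]
  ring

lemma two_sq_zmod3 : (2 : ZMod 3) ^ 2 = 1 := by decide

lemma two_ne_one_zmod3 : ¬ (2 : ZMod 3) = 1 := by decide

/-- the order of two modulo a power of three -/
lemma orderOf_two (i : ℕ) : orderOf (2 : ZMod (3 ^ (i + 1))) = 2 * 3 ^ i := by
  have h3 : Fact (Nat.Prime 3) := ⟨Nat.prime_three⟩
  -- the order of four
  have h4 : orderOf (4 : ZMod (3 ^ (i + 1))) = 3 ^ i := by
    have := ZMod.orderOf_one_add_prime (p := 3) Nat.prime_three (by norm_num) i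
    norm_num at this
    exact this
  have h5 : (4 : ZMod (3 ^ (i + 1))) = 2 ^ 2 := by norm_num
  have h6 : (4 : ZMod (3 ^ (i + 1))) ^ (3 ^ i) = 1 := by rw [← h4]; exact pow_orderOf_eq_one _
  have h7 : (2 : ZMod (3 ^ (i + 1))) ^ (2 * 3 ^ i) = 1 := by rw [pow_mul, ← h5]; exact h6
  have hdvd : orderOf (2 : ZMod (3 ^ (i + 1))) ∣ 2 * 3 ^ i := orderOf_dvd_of_pow_eq_one h7
  -- the order is even
  have heven : 2 ∣ orderOf (2 : ZMod (3 ^ (i + 1))) := by
    by_contra hodd
    have h8 : (2 : ZMod (3 ^ (i + 1))) ^ orderOf (2 : ZMod (3 ^ (i + 1))) = 1 := pow_orderOf_eq_one _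
    have h9 : ((ZMod.castHom (dvd_pow_self 3 (Nat.succ_ne_zero i)) (ZMod 3)) 2) ^
        orderOf (2 : ZMod (3 ^ (i + 1))) = 1 := by
      rw [← map_pow, h8, map_one]
    have h10 : (ZMod.castHom (dvd_pow_self 3 (Nat.succ_ne_zero i)) (ZMod 3)) 2 = (2 : ZMod 3) := by
      rw [map_ofNat]
    rw [h10] at h9
    obtain ⟨m, hm⟩ := Nat.odd_iff.2 (Nat.two_dvd_ne_zero.1 hodd)
    rw [hm, pow_succ, pow_mul] at h9
    rw [two_sq_zmod3, one_pow, one_mul] at h9
    exact absurd h9 two_ne_one_zmod3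
  obtain ⟨m, hm⟩ := heven
  have h12 : orderOf (4 : ZMod (3 ^ (i + 1))) ∣ m := by
    refine orderOf_dvd_of_pow_eq_one ?_
    rw [h5, ← pow_mul, ← hm]
    exact pow_orderOf_eq_one _
  rw [h4] at h12
  refine Nat.dvd_antisymm hdvd ?_
  rw [hm]
  exact Nat.mul_dvd_mul_left 2 h12

theorem tri_irr0 (i : ℕ) : Irreducible (tri (2 * 3 ^ i)) := by
  have h3 : Fact (Nat.Prime 3) := ⟨Nat.prime_three⟩
  have h2 : Fact (Nat.Prime 2) := ⟨Nat.prime_two⟩
  have h1 : tri (2 * 3 ^ i) = cyclotomic (3 ^ (i + 1)) (ZMod 2) := by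
    rw [cyclotomic_prime_pow_eq_geom_sum Nat.prime_three]
    rw [Finset.sum_range_succ, Finset.sum_range_succ, Finset.sum_range_one]
    unfold tri
    have : 2 * 3 ^ i / 2 = 3 ^ i := by omega
    rw [this, pow_zero, pow_one, ← pow_mul, mul_comm (3 ^ i) 2]
    ring
  have hnd : ¬ 2 ∣ 3 ^ (i + 1) := by
    intro h
    have := Nat.Prime.dvd_of_dvd_pow Nat.prime_two h
    omega
  refine ZMod.irreducible_of_dvd_cyclotomic_of_natDegree hnd (h1 ▸ dvd_rfl) ?_
  rw [h1, natDegree_cyclotomic, Nat.totient_prime_pow_succ Nat.prime_three, ← orderOf_units,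
    ZMod.coe_unitOfCoprime]
  have h4 := orderOf_two i
  push_cast
  rw [h4]
  ring

/-- **The trinomials are irreducible.** -/
theorem tri_irr (i : ℕ) :
    Irreducible ((X : (ZMod 2)[X]) ^ (2 * 3 ^ i) + polyOf (2 * 3 ^ i) (tg (2 * 3 ^ i / 2))) := by
  rw [← tri_eq]
  · exact tri_irr0 i
  · have : 0 < 3 ^ i := by positivity
    omega

/-- the modulus of the language -/
theorem lang_irr (N : ℕ) : Irreducible ((X : (ZMod 2)[X]) ^ (27 * nn N) +
    polyOf (27 * nn N) (tg (27 * nn N / 2))) := by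
  have h : 27 * nn N = 2 * 3 ^ (Nat.log 3 (N / 110) + 3) := by
    unfold nn
    rw [pow_add]
    ring
  rw [h]
  exact tri_irr _

end Pool.Agent.KF
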