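import Pool.Agent.KF.Defs
import Pool.Agent.KF.SeedX
import Pool.Agent.KF.SeedJ
import Pool.Agent.KF.Tri

/-! Instances of the count of bad seeds: every sum of coefficients of `b * a ^ x`, and the language, for
seeds and for words. -/

namespace Pool.Agent.KF

open Finset Pool.Agent.SemRO Pool.Agent.KD Pool.Agent.KE Pool.Agent.KQL

/-- balance does not see a constant sign -/
theorem bal_xor {n e : ℕ} {f : (Fin n → Bool) → Bool} (h : Bal f e) (c : Bool) :
    Bal (fun x => xor c (f x)) e := by
  intro T hT y y' hy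
  refine le_trans (le_of_eq ?_) (h T hT y y' hy)
  congr 1
  refine Finset.sum_congr rfl fun x _ => ?_
  have e : ∀ u v : Bool, sg (Bool.xor c u) * sg (Bool.xor c v) = sg u * sg v := by
    intro u v
    cases c <;> cases u <;> cases v <;> rfl
  exact e _ _

/-- **seeds, a sum of coefficients** -/
theorem seeds_coef {n e q : ℕ} {g : ℕ → Bool} (hg : Irreducible (modu (27 * n) g)) {J : Finset ℕ}
    (hJ : J.Nonempty) (hJM : ∀ j ∈ J, j < 27 * n)
    (he : 1 ≤ e) (h8 : 8 * e ≤ n) (hq1 : 2 * n ≤ q * e) (hq2 : q * e ≤ 2 * n + e)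
    (hq : q ^ (2 * q) ≤ 2 ^ n) {Bad : Finset ((Fin (27 * n) → Bool) × (Fin (27 * n) → Bool))}
    (hBad : ∀ w ∈ Bad, ¬ Bal (fun x : Fin n → Bool =>
      decide (∑ j ∈ J, coefBit (27 * n) n g (xb w.1) (xb w.2) (xb x) j = 1)) e) :
    Bad.card * 2 ^ n ≤ 2 ^ (2 * (27 * n)) :=
  seeds_of (fun a b x => decide (∑ j ∈ J, coefBit (27 * n) n g (xb a) (xb b) (xb x) j = 1)) rfl
    (fun D hD => hG_J n hg hJ hJM D hD) he h8 hq1 hq2 hq hBad

/-- **words**: the digits at the positions `pos` (after the first `2 M`) are `x`; the other digits enter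
through `a`, `b` and a sign -/
theorem bad_words {L n M e : ℕ} (hL : 2 * M + n ≤ L) {A : ℕ}
    (f : (Fin M → Bool) → (Fin M → Bool) → (Fin n → Bool) → Bool)
    (hf : ∀ Bad : Finset ((Fin M → Bool) × (Fin M → Bool)),
      (∀ w ∈ Bad, ¬ Bal (fun x => f w.1 w.2 x) e) → Bad.card * A ≤ 2 ^ (2 * M))
    (F : (Fin L → Bool) → Bool) (pos : Fin n → Fin L)
    (hF : ∀ y : Fin L → Bool, ∃ c : Bool, ∀ x : Fin n → Bool, F (Function.extend pos x y) =
      xor c (f (fun i => y ⟨i, by omega⟩) (fun i => y ⟨M + i, by omega⟩) x))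
    {BW : Finset (Fin L → Bool)}
    (hBW : ∀ y ∈ BW, ¬ Bal (fun x => F (Function.extend pos x y)) e) :
    BW.card * A ≤ 2 ^ L := by
  classical
  set pr : (Fin L → Bool) → (Fin M → Bool) × (Fin M → Bool) := fun y =>
    (fun i => y ⟨i, by omega⟩, fun i => y ⟨M + i, by omega⟩) with hpr
  set Bad : Finset ((Fin M → Bool) × (Fin M → Bool)) := BW.image pr with hBad
  have h1 : ∀ w ∈ Bad, ¬ Bal (fun x => f w.1 w.2 x) e := by
    intro w hw hbal
    obtain ⟨y, hy, rfl⟩ := Finset.mem_image.1 hw
    obtain ⟨c, hc⟩ := hF y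
    refine hBW y hy ?_
    have : (fun x => F (Function.extend pos x y)) = fun x => Bool.xor c (f (pr y).1 (pr y).2 x) :=
      funext fun x => hc x
    rw [this]
    exact bal_xor hbal c
  have h2 := hf Bad h1
  set rs : (Fin L → Bool) → (Fin (L - 2 * M) → Bool) := fun y i => y ⟨2 * M + i, by omega⟩ with hrs
  have h3 : BW.card ≤ Bad.card * 2 ^ (L - 2 * M) := by
    have h4 : BW.card ≤ (Bad ×ˢ (univ : Finset (Fin (L - 2 * M) → Bool))).card := by
      refine Finset.card_le_card_of_injOn (fun y => (pr y, rs y)) (fun y hy => ?_) ?_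
      · exact Finset.mem_coe.2 (Finset.mem_product.2 ⟨Finset.mem_image_of_mem _ hy, Finset.mem_univ _⟩)
      · intro y _ y' _ h
        have a1 : pr y = pr y' := congrArg Prod.fst h
        have a2 : rs y = rs y' := congrArg Prod.snd h
        have a3 := congrArg Prod.fst a1
        have a4 := congrArg Prod.snd a1
        funext i
        rcases lt_or_ge i.1 M with hi | hi
        · exact congrFun a3 ⟨i, hi⟩
        · rcases lt_or_ge i.1 (2 * M) with hi2 | hi2
          · have := congrFun a4 ⟨i.1 - M, by omega⟩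
            simp only [hpr] at this
            have e : (⟨M + (i.1 - M), by omega⟩ : Fin L) = i := by
              ext
              simp only
              omega
            rwa [e] at this
          · have := congrFun a2 ⟨i.1 - 2 * M, by omega⟩
            simp only [hrs] at this
            have e : (⟨2 * M + (i.1 - 2 * M), by omega⟩ : Fin L) = i := by
              ext
              simp only
              omega
            rwa [e] at this
    rw [Finset.card_product, Finset.card_univ, Fintype.card_fun, Fintype.card_bool,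
      Fintype.card_fin] at h4
    exact h4
  calc BW.card * A ≤ Bad.card * 2 ^ (L - 2 * M) * A := Nat.mul_le_mul_right _ h3
    _ = Bad.card * A * 2 ^ (L - 2 * M) := by ring
    _ ≤ 2 ^ (2 * M) * 2 ^ (L - 2 * M) := Nat.mul_le_mul_right _ h2
    _ = 2 ^ L := by
        rw [← pow_add]
        congr 1
        omega

theorem polyOf_congr {M : ℕ} {c c' : ℕ → Bool} (h : ∀ i < M, c i = c' i) : polyOf M c = polyOf M c' := by
  unfold polyOf
  exact Finset.sum_congr rfl fun i hi => by rw [h i (Finset.mem_range.1 hi)]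

theorem numOf_congr {n : ℕ} {c c' : ℕ → Bool} (h : ∀ i < n, c i = c' i) : numOf n c = numOf n c' := by
  unfold numOf
  exact Finset.sum_congr rfl fun i hi => by rw [h i (Finset.mem_range.1 hi)]

theorem coefBit_congr {M n : ℕ} {g a a' b b' x x' : ℕ → Bool} (ha : ∀ i < M, a i = a' i)
    (hb : ∀ i < M, b i = b' i) (hx : ∀ i < n, x i = x' i) (j : ℕ) :
    coefBit M n g a b x j = coefBit M n g a' b' x' j := by
  unfold coefBit
  rw [polyOf_congr ha, polyOf_congr hb, numOf_congr hx]

theorem nn_le {N : ℕ} (hN : 110 ≤ N) : 55 * nn N ≤ N := by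
  unfold nn
  have h : 3 ^ Nat.log 3 (N / 110) ≤ N / 110 := Nat.pow_log_le_self 3 (by omega)
  have := Nat.div_mul_le_self N 110
  omega

theorem lt_nn (N : ℕ) : N < 165 * nn N + 110 := by
  unfold nn
  have h : N / 110 < 3 ^ (Nat.log 3 (N / 110) + 1) := Nat.lt_pow_succ_log_self (by norm_num) _
  rw [pow_succ] at h
  have h2 := Nat.div_add_mod N 110
  have h3 := Nat.mod_lt N (show 0 < 110 by norm_num)
  omega

/-- the coefficients as functions of the parts of a word -/
theorem out_eq {N : ℕ} (hN : 110 ≤ N) (y : Fin N → Bool) (j : ℕ) : out (List.ofFn y) j =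
    coefBit (27 * nn N) (nn N) (tg (27 * nn N / 2))
      (xb fun i : Fin (27 * nn N) => y ⟨i, by have := nn_le hN; omega⟩)
      (xb fun i : Fin (27 * nn N) => y ⟨27 * nn N + i, by have := nn_le hN; omega⟩)
      (xb fun i : Fin (nn N) => y ⟨2 * (27 * nn N) + i, by have := nn_le hN; omega⟩) j := by
  have hn := nn_le hN
  unfold out
  rw [List.length_ofFn]
  have g : ∀ i (hi : i < N), (List.ofFn y).getD i false = y ⟨i, hi⟩ := by
    intro i hi
    rw [List.getD_eq_getElem _ _ (by rw [List.length_ofFn]; exact hi), List.getElem_ofFn]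
  refine coefBit_congr (fun i hi => ?_) (fun i hi => ?_) (fun i hi => ?_) j
  · rw [g i (by omega)]
    unfold xb
    rw [dif_pos hi]
  · rw [g _ (by omega)]
    unfold xb
    rw [dif_pos hi]
  · rw [g _ (by omega)]
    unfold xb
    rw [dif_pos hi]

/-- the position of the digit `i` of `x` -/
def xpos {N L : ℕ} (hN : 110 ≤ N) (hL : N ≤ L) (i : Fin (nn N)) : Fin L :=
  ⟨2 * (27 * nn N) + i, by have := nn_le hN; omega⟩

theorem xpos_inj {N L : ℕ} (hN : 110 ≤ N) (hL : N ≤ L) : Function.Injective (xpos hN hL) := by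
  intro i j h
  unfold xpos at h
  simp only [Fin.mk.injEq] at h
  ext
  omega

/-- **the digits of `x` replaced**: the coefficients of the first `N` digits of a word of length `L` -/
theorem out_extend {N L : ℕ} (hN : 110 ≤ N) (hL : N ≤ L) (y : Fin L → Bool)
    (x : Fin (nn N) → Bool) (j : ℕ) :
    out (List.ofFn fun i : Fin N => Function.extend (xpos hN hL) x y (Fin.castLE hL i)) j =
    coefBit (27 * nn N) (nn N) (tg (27 * nn N / 2))
      (xb fun i : Fin (27 * nn N) => y ⟨i, by have := nn_le hN; omega⟩)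
      (xb fun i : Fin (27 * nn N) => y ⟨27 * nn N + i, by have := nn_le hN; omega⟩)
      (xb x) j := by
  have hn := nn_le hN
  rw [out_eq hN]
  have off : ∀ p : Fin L, p.1 < 2 * (27 * nn N) → Function.extend (xpos hN hL) x y p = y p := by
    intro p hp
    refine Function.extend_apply' _ _ _ ?_
    rintro ⟨i, hi⟩
    have := congrArg Fin.val hi
    unfold xpos at this
    simp only at this
    omega
  refine coefBit_congr (fun i hi => ?_) (fun i hi => ?_) (fun i hi => ?_) j
  · unfold xb
    rw [dif_pos hi, dif_pos hi]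
    exact off ⟨i, by omega⟩ (by simp only; omega)
  · unfold xb
    rw [dif_pos hi, dif_pos hi]
    exact off ⟨27 * nn N + i, by omega⟩ (by simp only; omega)
  · unfold xb
    rw [dif_pos hi, dif_pos hi]
    exact (xpos_inj hN hL).extend_apply x y ⟨i, hi⟩

/-- **words of length `L ≥ N`, a sum of coefficients of the first `N` digits and other digits** -/
theorem words_coef {N L e q : ℕ} (hN : 110 ≤ N) (hL : N ≤ L) {J : Finset ℕ} (hJ : J.Nonempty)
    (hJM : ∀ j ∈ J, j < 27 * nn N) (s : (Fin L → Bool) → ZMod 2)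
    (hs : ∀ y x, s (Function.extend (xpos hN hL) x y) = s y)
    (he : 1 ≤ e) (h8 : 8 * e ≤ nn N) (hq1 : 2 * nn N ≤ q * e) (hq2 : q * e ≤ 2 * nn N + e)
    (hq : q ^ (2 * q) ≤ 2 ^ nn N) {BW : Finset (Fin L → Bool)}
    (hBW : ∀ y ∈ BW, ¬ Bal (fun x : Fin (nn N) → Bool =>
      decide (s (Function.extend (xpos hN hL) x y) + ∑ j ∈ J, out (List.ofFn fun i : Fin N =>
        Function.extend (xpos hN hL) x y (Fin.castLE hL i)) j = 1)) e) :
    BW.card * 2 ^ nn N ≤ 2 ^ L := by
  have hn := nn_le hN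
  refine bad_words (L := L) (n := nn N) (M := 27 * nn N) (e := e) (by omega)
    (fun a b x => decide (∑ j ∈ J, coefBit (27 * nn N) (nn N) (tg (27 * nn N / 2)) (xb a) (xb b)
      (xb x) j = 1))
    (fun Bad h => seeds_coef (lang_irr N) hJ hJM he h8 hq1 hq2 hq h)
    (fun y => decide (s y + ∑ j ∈ J, out (List.ofFn fun i : Fin N => y (Fin.castLE hL i)) j = 1))
    (xpos hN hL) (fun y => ?_) hBW
  refine ⟨decide (s y = 1), fun x => ?_⟩
  simp only [hs, out_extend hN hL]
  generalize (∑ j ∈ J, coefBit (27 * nn N) (nn N) (tg (27 * nn N / 2)) _ _ (xb x) j) = u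
  generalize s y = v
  revert u v
  decide

/-- **words and the language** -/
theorem words_lang {N e q : ℕ} (hN : 110 ≤ N)
    (he : 1 ≤ e) (h8 : 8 * e ≤ nn N) (hq1 : 2 * nn N ≤ q * e) (hq2 : q * e ≤ 2 * nn N + e)
    (hq : q ^ (2 * q) ≤ 2 ^ nn N) {BW : Finset (Fin N → Bool)}
    (hBW : ∀ y ∈ BW, ¬ Bal (fun x : Fin (nn N) → Bool =>
      decide (out (List.ofFn (Function.extend (xpos hN le_rfl) x y)) 0 = 1)) e) :
    BW.card * 2 ^ nn N ≤ 2 ^ N := by
  refine words_coef hN le_rfl (J := {0}) (Finset.singleton_nonempty 0) ?_ (fun _ => 0)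
    (fun _ _ => rfl) he h8 hq1 hq2 hq (BW := BW) fun y hy => ?_
  · intro j hj
    rw [Finset.mem_singleton] at hj
    omega
  · simpa using hBW y hy

end Pool.Agent.KF
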