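import Pool.Agent.KF.Corr
import Pool.Agent.KF.SeedX
import Pool.Agent.KF.SeedJ
import Pool.Agent.KF.Tri

/-! The correlation of programs with sums of coefficients of `b * a ^ x`, for uniformly random words. -/

namespace Pool.Agent.KF

open Finset Pool.Agent.SemRO Pool.Agent.KD Pool.Agent.KNL Pool.Agent.KE
open Pool.Agent.KQL (xb)

lemma nn_pos (N : ℕ) : 1 ≤ nn N := by
  unfold nn
  have : 1 ≤ 3 ^ Nat.log 3 (N / 110) := Nat.one_le_pow _ _ (by norm_num)
  omega

lemma nn_le {N : ℕ} (h : 110 ≤ N) : 55 * nn N ≤ N := by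
  unfold nn
  have h1 : 3 ^ Nat.log 3 (N / 110) ≤ N / 110 := Nat.pow_log_le_self 3 (by omega)
  omega

lemma lt_nn (N : ℕ) : N < 165 * nn N := by
  unfold nn
  have h1 : N / 110 < 3 ^ (Nat.log 3 (N / 110) + 1) := Nat.lt_pow_succ_log_self (by norm_num) _
  rw [pow_succ] at h1
  omega

section Pull

variable {ι : Type} {N : ℕ} {p : ι → Fin N}

/-- the number of words whose part at the positions `p` is in `S` -/
theorem card_pull [Fintype ι] [DecidableEq ι] (hp : Function.Injective p) (S : Finset (ι → Bool)) :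
    (univ.filter fun y : Fin N → Bool => (fun i => y (p i)) ∈ S).card * 2 ^ Fintype.card ι =
      S.card * 2 ^ N := by
  classical
  have hx : ∀ (y : Fin N → Bool) (x : ι → Bool), (fun i => Function.extend p x y (p i)) = x := by
    intro y x
    funext i
    exact hp.extend_apply x y i
  have hy : ∀ (y : Fin N → Bool) (x : ι → Bool),
      Function.extend p (fun i => y (p i)) (Function.extend p x y) = y := by
    intro y x
    funext q
    by_cases hq : ∃ i, p i = q
    · obtain ⟨i, rfl⟩ := hq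
      exact hp.extend_apply _ _ i
    · rw [Function.extend_apply' _ _ _ hq, Function.extend_apply' _ _ _ hq]
  obtain ⟨e, he⟩ : ∃ e : (Fin N → Bool) × (ι → Bool) ≃ (Fin N → Bool) × (ι → Bool),
      ∀ w, e w = (Function.extend p w.2 w.1, fun i => w.1 (p i)) := by
    refine ⟨⟨fun w => (Function.extend p w.2 w.1, fun i => w.1 (p i)),
      fun w => (Function.extend p w.2 w.1, fun i => w.1 (p i)), ?_, ?_⟩, fun _ => rfl⟩
    · rintro ⟨y, x⟩
      exact Prod.ext (hy y x) (hx y x)
    · rintro ⟨y, x⟩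
      exact Prod.ext (hy y x) (hx y x)
  have h := Finset.card_equiv (s := (univ : Finset (Fin N → Bool)) ×ˢ S)
    (t := (univ.filter fun y : Fin N → Bool => (fun i => y (p i)) ∈ S) ×ˢ
      (univ : Finset (ι → Bool))) e (by
    rintro ⟨y, x⟩
    rw [he, Finset.mem_product, Finset.mem_product, Finset.mem_filter]
    simp only [Finset.mem_univ, true_and, and_true]
    rw [hx])
  rw [Finset.card_product, Finset.card_product, Finset.card_univ, Finset.card_univ, Fintype.card_fun,
    Fintype.card_fun, Fintype.card_bool, Fintype.card_fin] at h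
  rw [← h, mul_comm]

end Pull

lemma Bal_xor {n e : ℕ} {f : (Fin n → Bool) → Bool} (h : Bal f e) (b : Bool) :
    Bal (fun x => xor (f x) b) e := by
  intro T hT y y' hy
  have h1 := h T hT y y' hy
  have h2 : ∀ u v : Bool, sg (xor u b) * sg (xor v b) = sg u * sg v := by
    intro u v
    cases u <;> cases v <;> cases b <;> rfl
  simp only [h2]
  exact h1

/-- position of a digit of `a` -/
def pa {n N : ℕ} (h : 55 * n ≤ N) (i : Fin (27 * n)) : Fin N := ⟨i, by have := i.2; omega⟩

/-- position of a digit of `b` -/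
def pb {n N : ℕ} (h : 55 * n ≤ N) (i : Fin (27 * n)) : Fin N := ⟨27 * n + i, by have := i.2; omega⟩

/-- position of a digit of `x` -/
def px {n N : ℕ} (h : 55 * n ≤ N) (i : Fin n) : Fin N := ⟨2 * (27 * n) + i, by have := i.2; omega⟩

lemma px_inj {n N : ℕ} (h : 55 * n ≤ N) : Function.Injective (px h) := by
  intro i j hij
  have := congrArg Fin.val hij
  unfold px at this
  simp only at this
  exact Fin.ext (by omega)

lemma ps_inj {n N : ℕ} (h : 55 * n ≤ N) : Function.Injective (Sum.elim (pa h) (pb h)) := by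
  intro i j hij
  have hv := congrArg Fin.val hij
  rcases i with i | i <;> rcases j with j | j <;> simp only [Sum.elim_inl, Sum.elim_inr, pa, pb] at hv
  · exact congrArg Sum.inl (Fin.ext hv)
  · have := i.2; omega
  · have := j.2; omega
  · exact congrArg Sum.inr (Fin.ext (by omega))

/-- the first digits of a word -/
def pre {N N' : ℕ} (h : N ≤ N') (z : Fin N' → Bool) : Fin N → Bool := fun i => z (Fin.castLE h i)

lemma coefBit_congr {M n : ℕ} {g a a' b b' x x' : ℕ → Bool} (ha : ∀ i < M, a i = a' i)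
    (hb : ∀ i < M, b i = b' i) (hx : ∀ i < n, x i = x' i) (j : ℕ) :
    coefBit M n g a b x j = coefBit M n g a' b' x' j := by
  unfold coefBit
  rw [polyOf_congr ha, polyOf_congr hb, numOf_congr hx]

lemma out_pre {N N' : ℕ} (hN : N ≤ N') (h : 55 * nn N ≤ N) (z : Fin N' → Bool) (j : ℕ) :
    out (List.ofFn (pre hN z)) j = coefBit (27 * nn N) (nn N) (tg (27 * nn N / 2))
      (xb fun i => z (pa (h.trans hN) i)) (xb fun i => z (pb (h.trans hN) i))
      (xb fun i => z (px (h.trans hN) i)) j := by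
  unfold out
  rw [List.length_ofFn]
  refine coefBit_congr ?_ ?_ ?_ j
  · intro i hi
    rw [getD_ofFn _ _ (by omega)]
    unfold Pool.Agent.KQL.xb
    rw [dif_pos hi]
    rfl
  · intro i hi
    rw [getD_ofFn _ _ (by omega)]
    unfold Pool.Agent.KQL.xb
    rw [dif_pos hi]
    rfl
  · intro i hi
    rw [getD_ofFn _ _ (by omega)]
    unfold Pool.Agent.KQL.xb
    rw [dif_pos hi]
    rfl

/-- **The correlation theorem for sums of coefficients.** -/
theorem corrJ (hsplit : SplitStack) (hF : FamilyX) : ∃ c : ℕ, ∀ k, 2 ≤ k → ∀ N N' (hN : N ≤ N'),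
    k ^ (c * k) ≤ N → N' ≤ 2 * N → ∀ J : Finset ℕ, J.Nonempty → (∀ j ∈ J, j < 27 * nn N) →
    ∀ h : (Fin N' → Bool) → Bool, (∀ y y', (∀ p : Fin N', N ≤ p → y p = y' p) → h y = h y') →
    ∀ (V Γ : Type) [Fintype V] (P : SBP V Γ (Fin N')), Det P →
    (Fintype.card V : ℝ) ≤ 2 ^ ((N' : ℝ) / (k : ℝ) ^ (c * k)) →
    ∀ Acc : Finset (Fin N' → Bool), (∀ y, y ∈ Acc ↔ ∃ l, P.AccWalk y l ∧ l.length ≤ k * N') →
      |∑ z ∈ Acc, (sg (xor (decide (∑ j ∈ J, out (List.ofFn (pre hN z)) j = 1)) (h z)) : ℝ)| ≤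
        2 ^ N' / 2 ^ (6 * (N' : ℝ) / (k : ℝ) ^ (c * k)) := by
  classical
  obtain ⟨c, hc⟩ := corr_of hsplit hF
  refine ⟨c + 12, fun k hk N N' hN hkN hN2 J hJ hJM h hh V Γ _ P hP hV Acc hAcc => ?_⟩
  have hk0 : 0 < k := by omega
  have hck : k ^ (c * k) ≤ k ^ ((c + 12) * k) :=
    Nat.pow_le_pow_right hk0 (Nat.mul_le_mul_right _ (by omega))
  have hbig : 2 ^ 24 ≤ k ^ ((c + 12) * k) := by
    calc 2 ^ 24 ≤ k ^ 24 := Nat.pow_le_pow_left hk 24
      _ ≤ k ^ ((c + 12) * k) := Nat.pow_le_pow_right hk0 (by nlinarith)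
  have h110 : 110 ≤ N := by
    have : (110 : ℕ) ≤ 2 ^ 24 := by norm_num
    omega
  have h55 := nn_le h110
  have h165 := lt_nn N
  have hn1 := nn_pos N
  obtain ⟨n, hn⟩ : ∃ n, n = nn N := ⟨_, rfl⟩
  obtain ⟨e, q, he1, he8, hq1, hq2, hq3, hmain⟩ := hc k hk N' n (by omega) (by rw [hn]; omega)
  have hkr : (2 : ℝ) ≤ k := by exact_mod_cast hk
  have hkr0 : (0 : ℝ) < k := by linarith
  have hcR : (0 : ℝ) < (k : ℝ) ^ (c * k) := by positivity
  have hcR' : (0 : ℝ) < (k : ℝ) ^ ((c + 12) * k) := by positivity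
  have hckR : (k : ℝ) ^ (c * k) ≤ (k : ℝ) ^ ((c + 12) * k) := by exact_mod_cast hck
  have hN'0 : (0 : ℝ) ≤ N' := Nat.cast_nonneg _
  have hV' : (Fintype.card V : ℝ) ≤ 2 ^ ((N' : ℝ) / (k : ℝ) ^ (c * k)) :=
    hV.trans (Real.rpow_le_rpow_of_exponent_le (by norm_num)
      (div_le_div_of_nonneg_left hN'0 hcR hckR))
  have h55n : 55 * n ≤ N' := by rw [hn]; omega
  obtain ⟨f, hf⟩ : ∃ f : (Fin (27 * n) → Bool) → (Fin (27 * n) → Bool) → (Fin n → Bool) → Bool,
      f = fun a b x => decide (∑ j ∈ J, coefBit (27 * n) n (tg (27 * n / 2)) (xb a) (xb b) (xb x) j = 1) :=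
    ⟨_, rfl⟩
  obtain ⟨BS, hBS⟩ : ∃ BS : Finset ((Fin (27 * n) → Bool) × (Fin (27 * n) → Bool)),
      BS = univ.filter (fun w => ¬ Bal (fun x => f w.1 w.2 x) e) := ⟨_, rfl⟩
  have hirr : Irreducible (modu (27 * n) (tg (27 * n / 2))) := by
    rw [hn]; exact lang_irr N
  have hBScard : BS.card * 2 ^ n ≤ 2 ^ (2 * (27 * n)) := by
    refine seeds_of f rfl ?_ he1 he8 hq1 hq2 hq3 (fun w hw => ?_)
    · intro D hD
      rw [hf]
      exact hG_J n hirr hJ (by rw [hn]; exact hJM) D hD
    · rw [hBS] at hw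
      exact (Finset.mem_filter.1 hw).2
  obtain ⟨S, hS⟩ : ∃ S : Finset (Fin (27 * n) ⊕ Fin (27 * n) → Bool),
      S = univ.filter (fun s => (fun i => s (Sum.inl i), fun i => s (Sum.inr i)) ∈ BS) := ⟨_, rfl⟩
  have hScard : S.card = BS.card := by
    refine Finset.card_equiv (Equiv.sumArrowEquivProdArrow _ _ _) fun s => ?_
    rw [hS, Finset.mem_filter]
    simp only [Finset.mem_univ, true_and]
    rfl
  obtain ⟨Bad, hBad⟩ : ∃ Bad : Finset (Fin N' → Bool), Bad = univ.filter
      (fun y : Fin N' → Bool => (fun i => y (Sum.elim (pa h55n) (pb h55n) i)) ∈ S) := ⟨_, rfl⟩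
  have hBadcard : Bad.card * 2 ^ n ≤ 2 ^ N' := by
    have h1 := card_pull (ps_inj h55n) S
    rw [← hBad, Fintype.card_sum, Fintype.card_fin, hScard] at h1
    have h2 : (Bad.card * 2 ^ n) * 2 ^ (27 * n + 27 * n) ≤ 2 ^ N' * 2 ^ (27 * n + 27 * n) := by
      calc (Bad.card * 2 ^ n) * 2 ^ (27 * n + 27 * n) = (Bad.card * 2 ^ (27 * n + 27 * n)) * 2 ^ n := by ring
        _ = (BS.card * 2 ^ n) * 2 ^ N' := by rw [h1]; ring
        _ ≤ 2 ^ (2 * (27 * n)) * 2 ^ N' := Nat.mul_le_mul_right _ hBScard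
        _ = 2 ^ N' * 2 ^ (27 * n + 27 * n) := by
            rw [mul_comm]
            congr 2
            ring
    exact Nat.le_of_mul_le_mul_right h2 (by positivity)
  have hres := hmain (px h55n) (px_inj h55n)
    (fun z => xor (decide (∑ j ∈ J, out (List.ofFn (pre hN z)) j = 1)) (h z)) Bad (by
      intro y hy
      have hg : Bal (fun x => f (fun i => y (pa h55n i)) (fun i => y (pb h55n i)) x) e := by
        by_contra hcon
        apply hy
        rw [hBad, Finset.mem_filter, hS, Finset.mem_filter, hBS, Finset.mem_filter]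
        exact ⟨Finset.mem_univ _, Finset.mem_univ _, Finset.mem_univ _, hcon⟩
      have hg2 := Bal_xor hg (h y)
      have hfun : (fun x : Fin n → Bool => xor (decide (∑ j ∈ J,
          out (List.ofFn (pre hN (Function.extend (px h55n) x y))) j = 1))
          (h (Function.extend (px h55n) x y))) =
          fun x => xor (f (fun i => y (pa h55n i)) (fun i => y (pb h55n i)) x) (h y) := by
        funext x
        have e1 : h (Function.extend (px h55n) x y) = h y := by
          refine hh _ _ fun p hp => ?_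
          refine put_off y x fun i hi => ?_
          have h1 : (p : ℕ) = 2 * (27 * n) + i := by rw [hi]; rfl
          have := i.2
          rw [← hn] at h55
          omega
        have e2 : ∀ j, out (List.ofFn (pre hN (Function.extend (px h55n) x y))) j =
            coefBit (27 * n) n (tg (27 * n / 2)) (xb fun i => y (pa h55n i))
              (xb fun i => y (pb h55n i)) (xb x) j := by
          intro j
          subst hn
          rw [out_pre hN h55]
          congr 1
          · funext i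
            congr 1
            funext i
            refine put_off y x fun t ht => ?_
            have h1 : ((pa (h55.trans hN) i : Fin N') : ℕ) = ((px h55n t : Fin N') : ℕ) := by rw [ht]
            unfold pa px at h1
            simp only at h1
            have := i.2
            omega
          · funext i
            congr 1
            funext i
            refine put_off y x fun t ht => ?_
            have h1 : ((pb (h55.trans hN) i : Fin N') : ℕ) = ((px h55n t : Fin N') : ℕ) := by rw [ht]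
            unfold pb px at h1
            simp only at h1
            have := i.2
            omega
          · funext i
            congr 1
            funext i
            exact put_pos (px_inj h55n) y x i
        rw [e1, hf]
        simp only [e2]
      rw [hfun]
      exact hg2) V Γ P hP hV' Acc hAcc
  -- the numbers
  refine hres.trans ?_
  obtain ⟨t, ht⟩ : ∃ t : ℝ, t = (N' : ℝ) / (k : ℝ) ^ ((c + 12) * k) := ⟨_, rfl⟩
  have ht1 : 1 ≤ t := by
    rw [ht, le_div_iff₀ hcR', one_mul]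
    exact_mod_cast hkN.trans hN
  have ht2 : 7 * t ≤ n := by
    rw [ht, mul_div_assoc', div_le_iff₀ hcR']
    have h1 : 7 * N' ≤ n * k ^ ((c + 12) * k) := by
      calc 7 * N' ≤ n * 2 ^ 24 := by
            have : N' ≤ 330 * n := by rw [hn]; omega
            omega
        _ ≤ n * k ^ ((c + 12) * k) := Nat.mul_le_mul_left _ hbig
    exact_mod_cast h1
  have e6 : 6 * (N' : ℝ) / (k : ℝ) ^ ((c + 12) * k) = 6 * t := by rw [ht]; ring
  have e8 : 8 * t ≤ 8 * (N' : ℝ) / (k : ℝ) ^ (c * k) := by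
    rw [ht, mul_div_assoc]
    exact mul_le_mul_of_nonneg_left (div_le_div_of_nonneg_left hN'0 hcR hckR) (by norm_num)
  rw [e6]
  have hB1 : (Bad.card : ℝ) ≤ 2 ^ N' / 2 ^ (7 * t) := by
    have h1 : (Bad.card : ℝ) * 2 ^ n ≤ 2 ^ N' := by exact_mod_cast hBadcard
    rw [le_div_iff₀ (by positivity)]
    refine le_trans ?_ h1
    refine mul_le_mul_of_nonneg_left ?_ (Nat.cast_nonneg _)
    calc (2 : ℝ) ^ (7 * t) ≤ 2 ^ (n : ℝ) := Real.rpow_le_rpow_of_exponent_le (by norm_num) ht2
      _ = 2 ^ n := Real.rpow_natCast _ _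
  have hB2 : (2 : ℝ) ^ N' / 2 ^ (8 * (N' : ℝ) / (k : ℝ) ^ (c * k)) ≤ 2 ^ N' / 2 ^ (7 * t) := by
    refine div_le_div_of_nonneg_left (by positivity) (by positivity) ?_
    exact Real.rpow_le_rpow_of_exponent_le (by norm_num) (by linarith)
  have hB3 : (2 : ℝ) ^ N' / 2 ^ (7 * t) * 2 ≤ 2 ^ N' / 2 ^ (6 * t) := by
    rw [div_mul_eq_mul_div, div_le_div_iff₀ (by positivity) (by positivity)]
    have h1 : (2 : ℝ) * 2 ^ (6 * t) ≤ 2 ^ (7 * t) := by
      calc (2 : ℝ) * 2 ^ (6 * t) = 2 ^ (1 : ℝ) * 2 ^ (6 * t) := by rw [Real.rpow_one]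
        _ = 2 ^ (1 + 6 * t) := by rw [← Real.rpow_add (by norm_num)]
        _ ≤ 2 ^ (7 * t) := Real.rpow_le_rpow_of_exponent_le (by norm_num) (by linarith)
    calc (2 : ℝ) ^ N' * 2 * 2 ^ (6 * t) = 2 ^ N' * (2 * 2 ^ (6 * t)) := by ring
      _ ≤ 2 ^ N' * 2 ^ (7 * t) := mul_le_mul_of_nonneg_left h1 (by positivity)
  linarith

end Pool.Agent.KF
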